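import Mathlib

/-!
# An Efron-Stein inequality for coordinate sign flips on a cube
-/

open MeasureTheory Finset

namespace HypLayer

variable {I : Type*} [Fintype I] [DecidableEq I]

/-- Flip the signs of the coordinates in `T`. -/
def flp (T : Finset I) (y : I → ℝ) : I → ℝ := fun i => if i ∈ T then - y i else y i

/-- The cube `[-r, r]^I`. -/
def cube (I : Type*) (r : ℝ) : Set (I → ℝ) := Set.pi Set.univ (fun _ => Set.Icc (-r) r)

omit [Fintype I] in
theorem flp_flp (T : Finset I) (y : I → ℝ) : flp T (flp T y) = y := by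
  ext i; simp only [flp]; split_ifs <;> simp

omit [Fintype I] in
theorem flp_comm (T U : Finset I) (y : I → ℝ) : flp T (flp U y) = flp U (flp T y) := by
  ext i; simp only [flp]; split_ifs <;> simp

omit [Fintype I] in
theorem flp_empty (y : I → ℝ) : flp ∅ y = y := by
  ext i; simp [flp]

omit [Fintype I] in
theorem flp_insert {j : I} {U : Finset I} (hj : j ∉ U) (y : I → ℝ) :
    flp (insert j U) y = flp U (flp {j} y) := by
  ext i
  simp only [flp, Finset.mem_insert, Finset.mem_singleton]
  by_cases h1 : i = j
  · subst h1; simp [hj]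
  · simp [h1]

omit [Fintype I] in
theorem flp_sdiff {T U : Finset I} (hU : U ⊆ T) (y : I → ℝ) :
    flp (T \ U) y = flp T (flp U y) := by
  ext i
  simp only [flp, Finset.mem_sdiff]
  by_cases h1 : i ∈ U
  · simp [h1, hU h1]
  · simp [h1]

omit [Fintype I] in
@[fun_prop]
theorem continuous_flp (T : Finset I) : Continuous (flp T) := by
  apply continuous_pi
  intro i
  simp only [flp]
  split_ifs <;> fun_prop

omit [Fintype I] in
theorem flp_mem_cube (T : Finset I) (r : ℝ) (y : I → ℝ) : flp T y ∈ cube I r ↔ y ∈ cube I r := by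
  simp only [cube, Set.mem_pi, Set.mem_univ, true_implies, Set.mem_Icc, flp]
  apply forall_congr'
  intro i
  split_ifs
  · constructor <;> rintro ⟨h1, h2⟩ <;> constructor <;> linarith
  · rfl

theorem measurePreserving_flp (T : Finset I) :
    MeasurePreserving (flp T) (volume : Measure (I → ℝ)) volume := by
  have h : ∀ i : I, MeasurePreserving (fun t : ℝ => if i ∈ T then -t else t) volume volume := by
    intro i
    by_cases hi : i ∈ T
    · simp only [hi, if_true]
      exact Measure.measurePreserving_neg volume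
    · simp only [hi, if_false]
      exact MeasurePreserving.id volume
  exact volume_preserving_pi h

theorem measurableEmbedding_flp (T : Finset I) : MeasurableEmbedding (flp T : (I → ℝ) → (I → ℝ)) := by
  have h : MeasurableEquiv (I → ℝ) (I → ℝ) :=
    { toFun := flp T
      invFun := flp T
      left_inv := flp_flp T
      right_inv := flp_flp T
      measurable_toFun := (continuous_flp T).measurable
      measurable_invFun := (continuous_flp T).measurable }
  exact ({ toFun := flp T
           invFun := flp T
           left_inv := flp_flp T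
           right_inv := flp_flp T
           measurable_toFun := (continuous_flp T).measurable
           measurable_invFun := (continuous_flp T).measurable } :
    MeasurableEquiv (I → ℝ) (I → ℝ)).measurableEmbedding

theorem setIntegral_flp (T : Finset I) (r : ℝ) (f : (I → ℝ) → ℝ) :
    ∫ y in cube I r, f (flp T y) = ∫ y in cube I r, f y := by
  have h := (measurePreserving_flp T).setIntegral_preimage_emb (measurableEmbedding_flp T) f
    (cube I r)
  have h2 : flp T ⁻¹' (cube I r) = cube I r := by
    ext y; exact flp_mem_cube T r y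
  rw [h2] at h
  exact h

omit [DecidableEq I] [Fintype I] in
theorem isCompact_cube (r : ℝ) : IsCompact (cube I r) :=
  isCompact_univ_pi (fun _ => isCompact_Icc)

omit [DecidableEq I] in
theorem measurableSet_cube (r : ℝ) : MeasurableSet (cube I r) :=
  MeasurableSet.univ_pi (fun _ => measurableSet_Icc)

omit [DecidableEq I] in
theorem integrableOn_cube {f : (I → ℝ) → ℝ} (hf : Continuous f) (r : ℝ) :
    IntegrableOn f (cube I r) :=
  hf.continuousOn.integrableOn_compact (isCompact_cube r)

/-- Average over all sign flips supported in `T`. -/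
noncomputable def avgf (T : Finset I) (Y : (I → ℝ) → ℝ) (y : I → ℝ) : ℝ :=
  (1 / 2 ^ T.card) * ∑ U ∈ T.powerset, Y (flp U y)

omit [Fintype I] in
@[fun_prop]
theorem continuous_avgf (T : Finset I) {Y : (I → ℝ) → ℝ} (hY : Continuous Y) :
    Continuous (avgf T Y) := by
  unfold avgf
  fun_prop

omit [Fintype I] in
theorem avgf_insert {j : I} {T : Finset I} (hj : j ∉ T) (Y : (I → ℝ) → ℝ) (y : I → ℝ) :
    avgf (insert j T) Y y = (avgf T Y y + avgf T Y (flp {j} y)) / 2 := by
  simp only [avgf]
  rw [Finset.sum_powerset_insert hj, Finset.card_insert_of_notMem hj, pow_succ]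
  have h1 : ∑ U ∈ T.powerset, Y (flp (insert j U) y) = ∑ U ∈ T.powerset, Y (flp U (flp {j} y)) := by
    apply Finset.sum_congr rfl
    intro U hU
    rw [flp_insert]
    intro h
    exact hj (Finset.mem_powerset.mp hU h)
  rw [h1]
  field_simp

omit [Fintype I] in
theorem avgf_diff (T : Finset I) (j : I) (Y : (I → ℝ) → ℝ) (y : I → ℝ) :
    avgf T (fun z => (Y z - Y (flp {j} z)) / 2) y = (avgf T Y y - avgf T Y (flp {j} y)) / 2 := by
  simp only [avgf]
  rw [← Finset.sum_div, Finset.sum_sub_distrib]
  have h1 : ∑ U ∈ T.powerset, Y (flp {j} (flp U y)) = ∑ U ∈ T.powerset, Y (flp U (flp {j} y)) := by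
    apply Finset.sum_congr rfl
    intro U _
    rw [flp_comm]
  rw [h1]
  ring

theorem avgf_contract (T : Finset I) {Y : (I → ℝ) → ℝ} (hY : Continuous Y) (r : ℝ) :
    ∫ y in cube I r, (avgf T Y y) ^ 2 ≤ ∫ y in cube I r, (Y y) ^ 2 := by
  have h1 : ∀ y, (avgf T Y y) ^ 2 ≤ (1 / 2 ^ T.card) * ∑ U ∈ T.powerset, (Y (flp U y)) ^ 2 := by
    intro y
    have h := sq_sum_le_card_mul_sum_sq (s := T.powerset) (f := fun U => Y (flp U y))
    rw [Finset.card_powerset] at h
    simp only [avgf]
    rw [mul_pow]
    have h2 : (0:ℝ) < 2 ^ T.card := by positivity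
    calc (1 / (2:ℝ) ^ T.card) ^ 2 * (∑ U ∈ T.powerset, Y (flp U y)) ^ 2
        ≤ (1 / (2:ℝ) ^ T.card) ^ 2 * (2 ^ T.card * ∑ U ∈ T.powerset, (Y (flp U y)) ^ 2) := by
          apply mul_le_mul_of_nonneg_left _ (by positivity)
          exact_mod_cast h
      _ = _ := by field_simp
  have hc : ∀ U : Finset I, Continuous (fun y => (Y (flp U y)) ^ 2) := by
    intro U; fun_prop
  calc ∫ y in cube I r, (avgf T Y y) ^ 2
      ≤ ∫ y in cube I r, (1 / 2 ^ T.card) * ∑ U ∈ T.powerset, (Y (flp U y)) ^ 2 := by
        apply integral_mono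
        · exact integrableOn_cube (by fun_prop) r
        · exact integrableOn_cube (by fun_prop) r
        · intro y; exact h1 y
    _ = (1 / 2 ^ T.card) * ∑ U ∈ T.powerset, ∫ y in cube I r, (Y (flp U y)) ^ 2 := by
        rw [integral_const_mul, integral_finsetSum]
        intro U _
        exact integrableOn_cube (hc U) r
    _ = (1 / 2 ^ T.card) * ∑ U ∈ T.powerset, ∫ y in cube I r, (Y y) ^ 2 := by
        congr 1
        apply Finset.sum_congr rfl
        intro U _
        exact setIntegral_flp U r (fun y => (Y y) ^ 2)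
    _ = ∫ y in cube I r, (Y y) ^ 2 := by
        rw [Finset.sum_const, Finset.card_powerset, nsmul_eq_mul]
        push_cast
        field_simp

theorem efron_stein_aux (T : Finset I) {Y : (I → ℝ) → ℝ} (hY : Continuous Y) (r : ℝ) :
    ∫ y in cube I r, (Y y) ^ 2 ≤
      (∑ j ∈ T, ∫ y in cube I r, ((Y y - Y (flp {j} y)) / 2) ^ 2)
        + ∫ y in cube I r, (avgf T Y y) ^ 2 := by
  induction T using Finset.induction_on with
  | empty =>
    simp only [Finset.sum_empty, zero_add]
    apply le_of_eq
    apply integral_congr_ae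
    filter_upwards with y
    simp [avgf, flp_empty]
  | insert j T hj ih =>
    rw [Finset.sum_insert hj]
    have hW : Continuous (avgf T Y) := continuous_avgf T hY
    have h1 : ∫ y in cube I r, (avgf T Y y) ^ 2 =
        (∫ y in cube I r, ((avgf T Y y - avgf T Y (flp {j} y)) / 2) ^ 2)
        + ∫ y in cube I r, (avgf (insert j T) Y y) ^ 2 := by
      have h2 : (∫ y in cube I r, ((avgf T Y y - avgf T Y (flp {j} y)) / 2) ^ 2)
          + ∫ y in cube I r, (avgf (insert j T) Y y) ^ 2
          = ∫ y in cube I r, (((avgf T Y y) ^ 2) / 2 + ((avgf T Y (flp {j} y)) ^ 2) / 2) := by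
        rw [← integral_add]
        · congr 1; ext y
          rw [avgf_insert hj]; ring
        · exact integrableOn_cube (by fun_prop) r
        · exact integrableOn_cube (by fun_prop) r
      rw [h2, integral_add, integral_div, integral_div,
        setIntegral_flp {j} r (fun y => (avgf T Y y) ^ 2)]
      · ring
      · exact integrableOn_cube (by fun_prop) r
      · exact integrableOn_cube (by fun_prop) r
    have h3 : ∫ y in cube I r, ((avgf T Y y - avgf T Y (flp {j} y)) / 2) ^ 2
        ≤ ∫ y in cube I r, ((Y y - Y (flp {j} y)) / 2) ^ 2 := by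
      have h4 := avgf_contract T (Y := fun z => (Y z - Y (flp {j} z)) / 2) (by fun_prop) r
      simp_rw [avgf_diff] at h4
      exact h4
    linarith

omit [Fintype I] in
theorem avgf_odd (T : Finset I) (Y : (I → ℝ) → ℝ) (hodd : ∀ y, Y (flp T y) = - Y y) (y : I → ℝ) :
    avgf T Y y = 0 := by
  have h1 : ∑ U ∈ T.powerset, Y (flp U y) = ∑ U ∈ T.powerset, Y (flp (T \ U) y) := by
    apply Finset.sum_nbij' (fun U => T \ U) (fun U => T \ U)
    · intro U _; simp
    · intro U _; simp
    · intro U hU; simp only [Finset.mem_powerset] at hU; simp [Finset.inter_eq_right.mpr hU]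
    · intro U hU; simp only [Finset.mem_powerset] at hU; simp [Finset.inter_eq_right.mpr hU]
    · intro U hU
      simp only [Finset.mem_powerset] at hU
      simp [Finset.inter_eq_right.mpr hU]
  have h2 : ∑ U ∈ T.powerset, Y (flp (T \ U) y) = - ∑ U ∈ T.powerset, Y (flp U y) := by
    rw [← Finset.sum_neg_distrib]
    apply Finset.sum_congr rfl
    intro U hU
    rw [flp_sdiff (Finset.mem_powerset.mp hU), hodd]
  have h3 : ∑ U ∈ T.powerset, Y (flp U y) = 0 := by linarith
  rw [avgf, h3, mul_zero]

/-- Efron-Stein inequality for sign flips. -/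
theorem efron_stein (T : Finset I) {Y : (I → ℝ) → ℝ} (hY : Continuous Y)
    (hodd : ∀ y, Y (flp T y) = - Y y) (r : ℝ) :
    ∫ y in cube I r, (Y y) ^ 2 ≤
      ∑ j ∈ T, ∫ y in cube I r, ((Y y - Y (flp {j} y)) / 2) ^ 2 := by
  have h := efron_stein_aux T hY r
  have h2 : ∫ y in cube I r, (avgf T Y y) ^ 2 = 0 := by
    simp_rw [avgf_odd T Y hodd]
    simp
  rw [h2, add_zero] at h
  exact h

/-- An odd function has integral zero over the cube. -/
theorem integral_odd (T : Finset I) {Y : (I → ℝ) → ℝ}
    (hodd : ∀ y, Y (flp T y) = - Y y) (r : ℝ) : ∫ y in cube I r, Y y = 0 := by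
  have h := setIntegral_flp T r Y
  simp_rw [hodd] at h
  rw [integral_neg] at h
  linarith

end HypLayer
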