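import Mathlib

/-!
# Definitions for MP_36752c_an

Volume of the dual-type `L_1` ball on the hyperbolic layer.
-/

open MeasureTheory

namespace HypLayer

/-- Normalised Lebesgue measure on `[0, 2π)`. -/
noncomputable def circleMeas : Measure ℝ :=
  (ENNReal.ofReal (2 * Real.pi))⁻¹ • (volume.restrict (Set.Ico (0 : ℝ) (2 * Real.pi)))

/-- Normalised Lebesgue measure on `T^d = [0, 2π)^d` (a probability measure on `ℝ^d` concentrated
on the cube). -/
noncomputable def torusMeas (d : ℕ) : Measure (Fin d → ℝ) := Measure.pi (fun _ => circleMeas)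

/-- The phase `k · x`. -/
noncomputable def ang {d : ℕ} (k : Fin d → ℤ) (x : Fin d → ℝ) : ℝ := ∑ j, (k j : ℝ) * x j

/-- Fourier coefficient `∫ f(x) exp(- i k·x) dx` (normalised measure). -/
noncomputable def fourierCoef {d : ℕ} (f : (Fin d → ℝ) → ℂ) (k : Fin d → ℤ) : ℂ :=
  ∫ x, f x * Complex.exp (-(Complex.I * (ang k x : ℂ))) ∂(torusMeas d)

/-- Dyadic block `ρ(s) = {k : ⌊2^(s_j - 1)⌋ ≤ |k_j| < 2^(s_j) for all j}` (integer division
`2^s / 2` is `⌊2^(s-1)⌋`, which is `0` for `s = 0`). -/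
def block {d : ℕ} (s : Fin d → ℕ) : Set (Fin d → ℤ) :=
  {k | ∀ j, (2 : ℤ) ^ (s j) / 2 ≤ |k j| ∧ |k j| < (2 : ℤ) ^ (s j)}

/-- The hyperbolic layer `ΔQ_n`, as a set of frequencies. -/
def layerSet (d n : ℕ) : Set (Fin d → ℤ) :=
  {k | ∃ s : Fin d → ℕ, ∑ j, s j = n ∧ k ∈ block s}

theorem layerSet_finite (d n : ℕ) : (layerSet d n).Finite := by
  apply Set.Finite.subset (Set.finite_Icc (fun _ : Fin d => -(2 : ℤ) ^ n) (fun _ => (2 : ℤ) ^ n))
  rintro k ⟨s, hs, hk⟩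
  have h1 : ∀ j, |k j| ≤ (2 : ℤ) ^ n := by
    intro j
    have h2 : s j ≤ n := by
      rw [← hs]
      exact Finset.single_le_sum (f := s) (fun _ _ => Nat.zero_le _) (Finset.mem_univ j)
    exact (hk j).2.le.trans (pow_le_pow_right₀ (by norm_num) h2)
  exact ⟨fun j => (abs_le.mp (h1 j)).1, fun j => (abs_le.mp (h1 j)).2⟩

/-- The hyperbolic layer `ΔQ_n` as a finite set. -/
noncomputable def layer (d n : ℕ) : Finset (Fin d → ℤ) := (layerSet_finite d n).toFinset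

/-- `T(Λ)`: integrable functions whose Fourier coefficients vanish outside `Λ`. -/
def TrigPoly {d : ℕ} (Λ : Finset (Fin d → ℤ)) : Set ((Fin d → ℝ) → ℂ) :=
  {f | Integrable f (torusMeas d) ∧ ∀ k, k ∉ Λ → fourierCoef f k = 0}

/-- The real coefficient vector `A(f) ∈ ℝ^(2|Λ|)`: real parts (second index `false`) and imaginary
parts (second index `true`) of the Fourier coefficients of `f` on `Λ`. -/
noncomputable def coefVec {d : ℕ} (Λ : Finset (Fin d → ℤ)) (f : (Fin d → ℝ) → ℂ) :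
    (Λ × Bool) → ℝ :=
  fun i => if i.2 then (fourierCoef f i.1).im else (fourierCoef f i.1).re

/-- `E^⊥_Λ(f)_1`: the `L_1` distance from `f` to the integrable functions with no spectrum
in `Λ`. -/
noncomputable def Eperp {d : ℕ} (Λ : Finset (Fin d → ℤ)) (f : (Fin d → ℝ) → ℂ) : ℝ :=
  sInf {t : ℝ | ∃ g : (Fin d → ℝ) → ℂ, Integrable g (torusMeas d) ∧
    (∀ k ∈ Λ, fourierCoef g k = 0) ∧ t = ∫ x, ‖f x - g x‖ ∂(torusMeas d)}

/-- `B^⊥_Λ(L_1) = A({f ∈ T(Λ) : E^⊥_Λ(f)_1 ≤ 1})`. -/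
noncomputable def Bperp {d : ℕ} (Λ : Finset (Fin d → ℤ)) : Set ((Λ × Bool) → ℝ) :=
  coefVec Λ '' {f | f ∈ TrigPoly Λ ∧ Eperp Λ f ≤ 1}

/-- `V_n = (vol B^⊥_{ΔQ_n}(L_1))^(1/N)`, `N = 2 |ΔQ_n|`. -/
noncomputable def Vn (d n : ℕ) : ℝ :=
  (volume (Bperp (layer d n))).toReal ^ ((1 : ℝ) / (2 * ((layer d n).card : ℝ)))

end HypLayer
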