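import Mathlib
import Pool.Agent.Work.MP_36752c_an.Defs

/-!
# Counting lemmas for dyadic blocks and intersections of shifted hyperbolic layers
-/

open Finset

namespace HypLayer

/-- Dyadic block index of an integer: the number of binary digits of `|z|`. -/
def bt (z : ℤ) : ℕ := Nat.size z.natAbs

theorem bt_le_iff (z : ℤ) (s : ℕ) : bt z ≤ s ↔ |z| < (2 : ℤ) ^ s := by
  rw [bt, Nat.size_le, Int.abs_eq_natAbs]
  constructor
  · intro h; exact_mod_cast h
  · intro h; exact_mod_cast h

theorem lt_bt_iff (z : ℤ) (s : ℕ) : s < bt z ↔ (2 : ℤ) ^ s ≤ |z| := by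
  rw [← not_le, bt_le_iff, not_lt]

theorem abs_lt_bt (z : ℤ) : |z| < (2 : ℤ) ^ (bt z) := (bt_le_iff z _).mp le_rfl

theorem bt_neg (z : ℤ) : bt (-z) = bt z := by simp [bt]

theorem bt_iff (z : ℤ) (s : ℕ) : bt z = s ↔ ((2 : ℤ) ^ s / 2 ≤ |z| ∧ |z| < (2 : ℤ) ^ s) := by
  cases s with
  | zero =>
    constructor
    · intro h
      refine ⟨?_, (bt_le_iff z 0).mp h.le⟩
      simp
    · rintro ⟨_, h⟩
      exact Nat.le_zero.mp ((bt_le_iff z 0).mpr h)
  | succ s =>
    have h2 : (2 : ℤ) ^ (s + 1) / 2 = 2 ^ s := by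
      rw [pow_succ]; simp
    rw [h2, ← bt_le_iff, ← lt_bt_iff]
    omega

theorem mem_layer_iff {d n : ℕ} (k : Fin d → ℤ) :
    k ∈ layer d n ↔ ∑ j, bt (k j) = n := by
  rw [layer, Set.Finite.mem_toFinset]
  constructor
  · rintro ⟨s, hs, hk⟩
    rw [← hs]
    apply Finset.sum_congr rfl
    intro j _
    exact (bt_iff _ _).mpr (hk j)
  · intro h
    exact ⟨fun j => bt (k j), h, fun j => (bt_iff _ _).mp rfl⟩

/-- The block of integers with block index `s`. -/
noncomputable def blk (s : ℕ) : Finset ℤ := (Finset.Ioo (-(2 : ℤ) ^ s) (2 ^ s)).filter (fun z => bt z = s)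

theorem mem_blk (z : ℤ) (s : ℕ) : z ∈ blk s ↔ bt z = s := by
  rw [blk, mem_filter, mem_Ioo, and_iff_right_iff_imp]
  intro h
  have := (bt_le_iff z s).mp h.le
  exact abs_lt.mp this

theorem card_blk (s : ℕ) : (blk s).card = 2 ^ s := by
  cases s with
  | zero =>
    have : blk 0 = {0} := by
      ext z
      rw [mem_blk, mem_singleton, ← Nat.le_zero, bt_le_iff, pow_zero, Int.abs_lt_one_iff]
    rw [this]; simp
  | succ s =>
    have h1 : blk (s + 1) = (Finset.Ioo (-(2 : ℤ) ^ (s+1)) (2 ^ (s+1))) \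
        (Finset.Ioo (-(2 : ℤ) ^ s) (2 ^ s)) := by
      ext z
      rw [mem_blk, mem_sdiff, mem_Ioo, mem_Ioo, ← abs_lt, ← abs_lt, ← bt_le_iff, ← bt_le_iff]
      omega
    have hsub : (Finset.Ioo (-(2 : ℤ) ^ s) (2 ^ s)) ⊆ (Finset.Ioo (-(2 : ℤ) ^ (s+1)) (2 ^ (s+1))) := by
      intro z
      rw [mem_Ioo, mem_Ioo, ← abs_lt, ← abs_lt, ← bt_le_iff, ← bt_le_iff]
      omega
    rw [h1, card_sdiff_of_subset hsub, Int.card_Ioo, Int.card_Ioo]
    have h2 : (2 : ℤ) ^ (s + 1) = 2 * 2 ^ s := by ring
    have h3 : (0 : ℤ) < 2 ^ s := by positivity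
    have h4 : (((2 : ℕ) ^ (s + 1) : ℕ) : ℤ) = 2 * 2 ^ s := by push_cast; ring
    rw [h2]
    omega

theorem card_shift (S : Finset ℤ) (w : ℤ) (t : ℕ) :
    (S.filter (fun z => bt (z - w) = t)).card ≤ 2 ^ t := by
  rw [← card_blk t]
  apply Finset.card_le_card_of_injOn (fun z => z - w)
  · intro z hz
    rw [mem_coe, mem_filter] at hz
    rw [mem_coe, mem_blk]; exact hz.2
  · intro z _ z' _ h
    simpa using h

/-- `√2`. -/
noncomputable def qq : ℝ := Real.sqrt 2
/-- `1/√2`. -/
noncomputable def rho : ℝ := Real.sqrt 2 / 2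

theorem qq_sq : qq ^ 2 = 2 := by rw [qq]; norm_num
theorem qq_pos : 0 < qq := by rw [qq]; positivity
theorem rho_pos : 0 < rho := by rw [rho]; positivity
theorem rho_eq : rho = qq / 2 := rfl
theorem qq_rho : qq * rho = 1 := by
  rw [rho_eq]; have := qq_sq; nlinarith
theorem two_rho : 2 * rho = qq := by rw [rho_eq]; ring
theorem qq_lt : qq < 1.4143 := by
  have := qq_sq; nlinarith [qq_pos]
theorem qq_gt : 1.4142 < qq := by
  have := qq_sq; nlinarith [qq_pos]
theorem rho_lt : rho < 0.70715 := by rw [rho_eq]; linarith [qq_lt]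
theorem rho_lt_one : rho < 1 := by linarith [rho_lt]
theorem qq_gt_one : 1 < qq := by linarith [qq_gt]

theorem qq_pow_rho_pow (s : ℕ) : qq ^ s * rho ^ s = 1 := by
  rw [← mul_pow, qq_rho, one_pow]

theorem sum_qq_pow (s : ℕ) : ∑ t ∈ range s, qq ^ t ≤ 3 * qq ^ s := by
  induction s with
  | zero => simp
  | succ s ih =>
    rw [sum_range_succ, pow_succ]
    have h1 : 0 < qq ^ s := pow_pos qq_pos s
    nlinarith [qq_gt]

theorem lemA (s : ℕ) (w : ℤ) : ∑ z ∈ blk s, qq ^ s * rho ^ (bt (z - w)) ≤ 4 * 2 ^ s := by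
  have h1 : ∀ z ∈ blk s, qq ^ s * rho ^ (bt (z - w))
      ≤ 1 + ∑ t ∈ range s, (if bt (z - w) = t then qq ^ s * rho ^ t else 0) := by
    intro z _
    by_cases h : bt (z - w) < s
    · have : ∑ t ∈ range s, (if bt (z - w) = t then qq ^ s * rho ^ t else 0)
          = qq ^ s * rho ^ (bt (z - w)) := by
        rw [Finset.sum_ite_eq, if_pos (mem_range.mpr h)]
      rw [this]; linarith
    · have h2 : 0 ≤ ∑ t ∈ range s, (if bt (z - w) = t then qq ^ s * rho ^ t else 0) := by
        apply Finset.sum_nonneg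
        intro t _
        split_ifs
        · exact mul_nonneg (pow_nonneg qq_pos.le _) (pow_nonneg rho_pos.le _)
        · exact le_rfl
      have h3 : qq ^ s * rho ^ (bt (z - w)) ≤ qq ^ s * rho ^ s := by
        apply mul_le_mul_of_nonneg_left _ (pow_nonneg qq_pos.le _)
        exact pow_le_pow_of_le_one rho_pos.le rho_lt_one.le (not_lt.mp h)
      rw [qq_pow_rho_pow] at h3
      linarith
  calc ∑ z ∈ blk s, qq ^ s * rho ^ (bt (z - w))
      ≤ ∑ z ∈ blk s, (1 + ∑ t ∈ range s, (if bt (z - w) = t then qq ^ s * rho ^ t else 0)) :=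
        Finset.sum_le_sum h1
    _ = 2 ^ s + ∑ t ∈ range s, ∑ z ∈ blk s, (if bt (z - w) = t then qq ^ s * rho ^ t else 0) := by
        rw [Finset.sum_add_distrib, Finset.sum_comm, Finset.sum_const, card_blk]
        simp
    _ ≤ 2 ^ s + ∑ t ∈ range s, 2 ^ t * (qq ^ s * rho ^ t) := by
        gcongr with t _
        rw [← Finset.sum_filter, Finset.sum_const, nsmul_eq_mul]
        apply mul_le_mul_of_nonneg_right _
          (mul_nonneg (pow_nonneg qq_pos.le _) (pow_nonneg rho_pos.le _))
        exact_mod_cast card_shift (blk s) w t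
    _ = 2 ^ s + qq ^ s * ∑ t ∈ range s, qq ^ t := by
        rw [Finset.mul_sum]
        congr 1
        apply Finset.sum_congr rfl
        intro t _
        have : (2:ℝ) ^ t * rho ^ t = qq ^ t := by rw [← mul_pow, two_rho]
        calc (2:ℝ) ^ t * (qq ^ s * rho ^ t) = qq ^ s * (2 ^ t * rho ^ t) := by ring
          _ = qq ^ s * qq ^ t := by rw [this]
    _ ≤ 2 ^ s + qq ^ s * (3 * qq ^ s) := by
        gcongr
        · exact pow_nonneg qq_pos.le _
        · exact sum_qq_pow s
    _ = 4 * 2 ^ s := by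
        have : qq ^ s * qq ^ s = 2 ^ s := by rw [← mul_pow, ← sq, qq_sq]
        linear_combination 3 * this

/-- The sum `T(w,s)`. -/
noncomputable def TT (w : ℤ) (s : ℕ) : ℝ :=
  ∑ z ∈ blk s, (if s < bt (z - w) then qq ^ s * rho ^ (bt (z - w)) else 0)

theorem TT_nonneg (w : ℤ) (s : ℕ) : 0 ≤ TT w s := by
  apply Finset.sum_nonneg
  intro z _
  split_ifs
  · exact mul_nonneg (pow_nonneg qq_pos.le _) (pow_nonneg rho_pos.le _)
  · exact le_rfl

theorem lemB (w : ℤ) (s : ℕ) : TT w s ≤ 2 ^ s * (2 * rho ^ (Nat.dist s (bt w))) := by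
  rcases le_or_gt s (bt w) with hs | hs
  · -- s ≤ σ
    rw [Nat.dist_eq_sub_of_le hs]
    have h1 : ∀ z ∈ blk s, (if s < bt (z - w) then qq ^ s * rho ^ (bt (z - w)) else 0)
        ≤ 2 * rho ^ (bt w - s) := by
      intro z hz
      rw [mem_blk] at hz
      have hpos : 0 < rho ^ (bt w - s) := pow_pos rho_pos _
      split_ifs with h
      · -- bt w ≤ bt (z-w) + 1
        have h2 : bt w ≤ bt (z - w) + 1 := by
          rw [bt_le_iff]
          have h3 : |z| < 2 ^ bt z := abs_lt_bt z
          have h4 : |z - w| < 2 ^ bt (z - w) := abs_lt_bt (z - w)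
          have h5 : (2 : ℤ) ^ bt z ≤ 2 ^ bt (z - w) := by
            apply pow_le_pow_right₀ (by norm_num); omega
          have h6 : |w| ≤ |z| + |z - w| := by
            have : w = z - (z - w) := by ring
            calc |w| = |z - (z - w)| := by rw [← this]
              _ ≤ |z| + |z - w| := abs_sub _ _
          rw [pow_succ]; linarith
        have h7 : rho ^ (bt (z - w)) = qq * rho ^ (bt (z - w) + 1) := by
          rw [pow_succ]
          have := qq_rho
          calc rho ^ (bt (z - w)) = rho ^ (bt (z - w)) * (qq * rho) := by rw [this, mul_one]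
            _ = _ := by ring
        rw [h7]
        have h8 : rho ^ (bt (z - w) + 1) ≤ rho ^ (bt w) :=
          pow_le_pow_of_le_one rho_pos.le rho_lt_one.le h2
        have h9 : rho ^ (bt w) = rho ^ s * rho ^ (bt w - s) := by
          rw [← pow_add]; congr 1; omega
        calc qq ^ s * (qq * rho ^ (bt (z - w) + 1)) ≤ qq ^ s * (qq * rho ^ (bt w)) := by
              apply mul_le_mul_of_nonneg_left _ (pow_nonneg qq_pos.le _)
              exact mul_le_mul_of_nonneg_left h8 qq_pos.le
          _ = (qq ^ s * rho ^ s) * (qq * rho ^ (bt w - s)) := by rw [h9]; ring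
          _ = qq * rho ^ (bt w - s) := by rw [qq_pow_rho_pow, one_mul]
          _ ≤ 2 * rho ^ (bt w - s) := by
              apply mul_le_mul_of_nonneg_right _ hpos.le
              linarith [qq_lt]
      · positivity
    calc TT w s ≤ ∑ z ∈ blk s, 2 * rho ^ (bt w - s) := Finset.sum_le_sum h1
      _ = 2 ^ s * (2 * rho ^ (bt w - s)) := by
          rw [Finset.sum_const, card_blk, nsmul_eq_mul]; push_cast; ring
  · -- s > σ
    rw [Nat.dist_comm, Nat.dist_eq_sub_of_le hs.le]
    have hw : |w| < 2 ^ bt w := abs_lt_bt w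
    have hcard : ((blk s).filter (fun z => s < bt (z - w))).card ≤ 2 * 2 ^ (bt w) := by
      have hsub : (blk s).filter (fun z => s < bt (z - w)) ⊆
          (Finset.Ico ((2:ℤ) ^ s - 2 ^ (bt w)) (2 ^ s)) ∪
          (Finset.Ioc (-(2:ℤ) ^ s) (-(2:ℤ) ^ s + 2 ^ (bt w))) := by
        intro z hz
        rw [mem_filter, mem_blk, lt_bt_iff] at hz
        obtain ⟨hz1, hz2⟩ := hz
        have hz3 := (bt_le_iff z s).mp hz1.le
        rw [abs_lt] at hz3
        have h6 : |z - w| ≤ |z| + |w| := abs_sub _ _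
        have h7 : (2:ℤ) ^ s - 2 ^ (bt w) ≤ |z| := by linarith
        rw [mem_union, mem_Ico, mem_Ioc]
        rcases le_or_gt 0 z with hz0 | hz0
        · left; rw [abs_of_nonneg hz0] at h7; exact ⟨h7, hz3.2⟩
        · right; rw [abs_of_neg hz0] at h7; exact ⟨hz3.1, by linarith⟩
      refine (card_le_card hsub).trans ((card_union_le _ _).trans ?_)
      rw [Int.card_Ico, Int.card_Ioc]
      have h4 : (((2 : ℕ) ^ (bt w) : ℕ) : ℤ) = 2 ^ (bt w) := by push_cast; ring
      omega
    have h1 : TT w s ≤ ∑ z ∈ (blk s).filter (fun z => s < bt (z - w)), (1 : ℝ) := by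
      rw [TT, Finset.sum_filter]
      apply Finset.sum_le_sum
      intro z _
      split_ifs with h
      · rw [← qq_pow_rho_pow s]
        apply mul_le_mul_of_nonneg_left _ (pow_nonneg qq_pos.le _)
        exact pow_le_pow_of_le_one rho_pos.le rho_lt_one.le h.le
      · exact le_rfl
    have h2 : TT w s ≤ 2 * 2 ^ (bt w) := by
      refine h1.trans ?_
      rw [Finset.sum_const, nsmul_eq_mul, mul_one]
      exact_mod_cast hcard
    refine h2.trans ?_
    have h3 : (2:ℝ) ^ s = 2 ^ (bt w) * 2 ^ (s - bt w) := by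
      rw [← pow_add]; congr 1; omega
    rw [h3]
    have h4 : 1 ≤ (2:ℝ) ^ (s - bt w) * rho ^ (s - bt w) := by
      rw [← mul_pow, two_rho]
      exact one_le_pow₀ qq_gt_one.le
    have h5 : (0:ℝ) < 2 ^ (bt w) := by positivity
    calc 2 * (2:ℝ) ^ (bt w) = 2 * 2 ^ (bt w) * 1 := by ring
      _ ≤ 2 * 2 ^ (bt w) * ((2:ℝ) ^ (s - bt w) * rho ^ (s - bt w)) := by
          apply mul_le_mul_of_nonneg_left h4; positivity
      _ = _ := by ring

theorem geom_sum_le (r : ℝ) (h0 : 0 ≤ r) (h1 : r < 1) (N : ℕ) :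
    ∑ j ∈ range N, r ^ j ≤ 1 / (1 - r) := by
  have h2 : 0 < 1 - r := by linarith
  rw [le_div_iff₀ h2, geom_sum_mul_neg]
  have := pow_nonneg h0 N
  linarith

theorem sum_dist_le (N t : ℕ) : ∑ s ∈ range N, rho ^ (Nat.dist s t) ≤ 7 := by
  have h1 : ∑ s ∈ range N, rho ^ (Nat.dist s t) ≤ ∑ s ∈ range (t + N), rho ^ (Nat.dist s t) := by
    apply Finset.sum_le_sum_of_subset_of_nonneg
    · intro x hx; rw [mem_range] at *; omega
    · intro _ _ _; exact pow_nonneg rho_pos.le _
  refine h1.trans ?_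
  rw [Finset.sum_range_add]
  have h2 : ∑ s ∈ range t, rho ^ (Nat.dist s t) ≤ ∑ j ∈ range t, rho ^ j := by
    rw [← Finset.sum_range_reflect (fun j => rho ^ j) t]
    apply Finset.sum_le_sum
    intro s hs
    rw [mem_range] at hs
    rw [Nat.dist_eq_sub_of_le hs.le]
    apply pow_le_pow_of_le_one rho_pos.le rho_lt_one.le
    omega
  have h3 : ∑ s ∈ range N, rho ^ (Nat.dist (t + s) t) = ∑ j ∈ range N, rho ^ j := by
    apply Finset.sum_congr rfl
    intro s _
    rw [Nat.dist_comm, Nat.dist_eq_sub_of_le (by omega)]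
    congr 1; omega
  rw [h3]
  have h4 := geom_sum_le rho rho_pos.le rho_lt_one t
  have h5 := geom_sum_le rho rho_pos.le rho_lt_one N
  have h6 : 1 / (1 - rho) ≤ 3.5 := by
    rw [div_le_iff₀ (by linarith [rho_lt])]
    linarith [rho_lt]
  linarith

/-- Block vectors with prescribed zeroth coordinate and sum. -/
def SB (p n b : ℕ) : Finset (Fin (p+3) → ℕ) :=
  (Fintype.piFinset (fun _ => range (n+1))).filter (fun s => s 0 = b ∧ ∑ j, s j = n)

theorem card_fiber (p n b t : ℕ) (j0 : Fin (p+3)) (hj0 : j0 ≠ 0) :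
    ((SB p n b).filter (fun s => s j0 = t)).card ≤ (n+1) ^ p := by
  obtain ⟨j1, hj1, hj1'⟩ : ∃ j1 : Fin (p+3), j1 ≠ 0 ∧ j1 ≠ j0 := by
    by_cases h : j0 = 1
    · refine ⟨2, ?_, ?_⟩
      · intro h2
        have h3 := congrArg Fin.val h2
        simp at h3
        rw [Nat.mod_eq_of_lt (by omega)] at h3
        omega
      · rw [h]
        intro h2
        have h3 := congrArg Fin.val h2
        simp at h3
        rw [Nat.mod_eq_of_lt (by omega)] at h3
        omega
    · exact ⟨1, by simp, fun h2 => h h2.symm⟩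
  set V : Fin (p+3) → Finset ℕ := fun j => if j = 0 then {b} else if j = j0 then {t} else
    if j = j1 then {0} else range (n+1) with hV
  have hcard : (Fintype.piFinset V).card = (n+1) ^ p := by
    rw [Fintype.card_piFinset]
    have h1 : ∀ j, (V j).card = if j ∈ ({0, j0, j1} : Finset (Fin (p+3))) then 1 else (n+1) := by
      intro j
      simp only [hV, Finset.mem_insert, Finset.mem_singleton]
      by_cases h0 : j = 0
      · simp [h0]
      · by_cases h1 : j = j0
        · simp [h1, hj0]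
        · by_cases h2 : j = j1
          · simp [h2, hj1, hj1']
          · simp [h0, h1, h2]
    simp_rw [h1]
    rw [Finset.prod_ite]
    simp only [Finset.prod_const_one, one_mul, Finset.prod_const]
    congr 1
    have h2 : (Finset.univ.filter (fun j : Fin (p+3) => j ∉ ({0, j0, j1} : Finset (Fin (p+3)))))
        = Finset.univ \ {0, j0, j1} := by
      ext j; simp
    rw [h2, card_sdiff_of_subset (Finset.subset_univ _), Finset.card_univ, Fintype.card_fin]
    rw [Finset.card_insert_of_notMem, Finset.card_pair hj1'.symm]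
    · omega
    · simp only [Finset.mem_insert, Finset.mem_singleton, not_or]
      exact ⟨hj0.symm, hj1.symm⟩
  rw [← hcard]
  apply Finset.card_le_card_of_injOn (fun s => Function.update s j1 0)
  · intro s hs
    rw [mem_coe, mem_filter, SB, mem_filter, Fintype.mem_piFinset] at hs
    obtain ⟨⟨hs1, hs2, hs3⟩, hs4⟩ := hs
    rw [mem_coe, Fintype.mem_piFinset]
    intro j
    simp only [hV]
    by_cases h0 : j = 0
    · rw [if_pos h0, mem_singleton, h0, Function.update_of_ne hj1.symm]; exact hs2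
    · rw [if_neg h0]
      by_cases h1 : j = j0
      · rw [if_pos h1, mem_singleton, h1, Function.update_of_ne hj1'.symm]; exact hs4
      · rw [if_neg h1]
        by_cases h2 : j = j1
        · rw [if_pos h2, mem_singleton, h2, Function.update_self]
        · rw [if_neg h2, Function.update_of_ne h2]; exact hs1 j
  · intro s hs s' hs' h
    rw [mem_coe, mem_filter, SB, mem_filter, Fintype.mem_piFinset] at hs hs'
    obtain ⟨⟨hs1, hs2, hs3⟩, hs4⟩ := hs
    obtain ⟨⟨hs1', hs2', hs3'⟩, hs4'⟩ := hs'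
    have h3 : ∀ j, j ≠ j1 → s j = s' j := by
      intro j hj
      have := congrFun h j
      simpa [Function.update_of_ne hj] using this
    have h4 : s j1 = s' j1 := by
      have h5 := Finset.add_sum_erase Finset.univ s (Finset.mem_univ j1)
      have h6 := Finset.add_sum_erase Finset.univ s' (Finset.mem_univ j1)
      have h7 : ∑ j ∈ Finset.univ.erase j1, s j = ∑ j ∈ Finset.univ.erase j1, s' j := by
        apply Finset.sum_congr rfl
        intro j hj
        exact h3 j (Finset.ne_of_mem_erase hj)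
      omega
    ext j
    by_cases hj : j = j1
    · rw [hj]; exact h4
    · exact h3 j hj

theorem sum_SB (p n b σ : ℕ) (j0 : Fin (p+3)) (hj0 : j0 ≠ 0) :
    ∑ s ∈ SB p n b, rho ^ (Nat.dist (s j0) σ) ≤ 7 * ((n:ℝ)+1) ^ p := by
  have hmaps : ∀ s ∈ SB p n b, s j0 ∈ range (n+1) := by
    intro s hs
    rw [SB, mem_filter, Fintype.mem_piFinset] at hs
    exact hs.1 j0
  rw [← Finset.sum_fiberwise_of_maps_to hmaps]
  calc ∑ t ∈ range (n+1), ∑ s ∈ (SB p n b).filter (fun s => s j0 = t), rho ^ (Nat.dist (s j0) σ)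
      ≤ ∑ t ∈ range (n+1), ((n:ℝ)+1) ^ p * rho ^ (Nat.dist t σ) := by
        apply Finset.sum_le_sum
        intro t _
        have h1 : ∑ s ∈ (SB p n b).filter (fun s => s j0 = t), rho ^ (Nat.dist (s j0) σ)
            = ∑ s ∈ (SB p n b).filter (fun s => s j0 = t), rho ^ (Nat.dist t σ) := by
          apply Finset.sum_congr rfl
          intro s hs
          rw [(mem_filter.mp hs).2]
        rw [h1, Finset.sum_const, nsmul_eq_mul]
        apply mul_le_mul_of_nonneg_right _ (pow_nonneg rho_pos.le _)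
        exact_mod_cast card_fiber p n b t j0 hj0
    _ = ((n:ℝ)+1) ^ p * ∑ t ∈ range (n+1), rho ^ (Nat.dist t σ) := by rw [Finset.mul_sum]
    _ ≤ ((n:ℝ)+1) ^ p * 7 := by
        apply mul_le_mul_of_nonneg_left (sum_dist_le _ _); positivity
    _ = _ := by ring

/-- The intersection of a level of the layer with a shifted level. -/
noncomputable def interSet (p n a b : ℕ) (w : Fin (p+3) → ℤ) : Finset (Fin (p+3) → ℤ) :=
  (layer (p+3) n).filter (fun k => bt (k 0) = b ∧ k - w ∈ layer (p+3) n ∧ bt ((k - w) 0) = a)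

/-- The constant in the intersection lemma. -/
noncomputable def CI (p : ℕ) : ℝ := (p+2) * (14 * 4 ^ (p+1))

theorem CI_pos (p : ℕ) : 0 < CI p := by unfold CI; positivity

theorem inter_lt (p n a b : ℕ) (hab : a < b) (w : Fin (p+3) → ℤ) :
    ((interSet p n a b w).card : ℝ) ≤ CI p * (2 ^ n * rho ^ (b - a) * ((n:ℝ)+1) ^ p) := by
  classical
  -- pieces
  set K : (Fin (p+3) → ℕ) → Fin (p+3) → Finset (Fin (p+3) → ℤ) := fun s j0 =>
    (Fintype.piFinset (fun j => blk (s j))).filter (fun k => ∑ j, bt (k j - w j) = n ∧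
      bt (k 0 - w 0) = a ∧ s j0 < bt (k j0 - w j0)) with hK
  have hcover : interSet p n a b w ⊆
      (SB p n b).biUnion (fun s => (Finset.univ.erase (0 : Fin (p+3))).biUnion (fun j0 => K s j0)) := by
    intro k hk
    rw [interSet, mem_filter, mem_layer_iff, mem_layer_iff] at hk
    obtain ⟨hk1, hk2, hk3, hk4⟩ := hk
    simp only [Pi.sub_apply] at hk3 hk4
    have hex : ∃ j0 : Fin (p+3), j0 ≠ 0 ∧ bt (k j0) < bt (k j0 - w j0) := by
      by_contra hcon
      push Not at hcon
      have h5 := Finset.add_sum_erase Finset.univ (fun j => bt (k j)) (Finset.mem_univ 0)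
      have h6 := Finset.add_sum_erase Finset.univ (fun j => bt (k j - w j)) (Finset.mem_univ 0)
      have h7 : ∑ j ∈ Finset.univ.erase 0, bt (k j - w j) ≤ ∑ j ∈ Finset.univ.erase 0, bt (k j) := by
        apply Finset.sum_le_sum
        intro j hj
        exact hcon j (Finset.ne_of_mem_erase hj)
      omega
    obtain ⟨j0, hj0, hj0'⟩ := hex
    rw [mem_biUnion]
    refine ⟨fun j => bt (k j), ?_, ?_⟩
    · rw [SB, mem_filter, Fintype.mem_piFinset]
      refine ⟨?_, hk2, hk1⟩
      intro j
      rw [mem_range]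
      have : bt (k j) ≤ ∑ j, bt (k j) :=
        Finset.single_le_sum (f := fun j => bt (k j)) (fun _ _ => Nat.zero_le _) (Finset.mem_univ j)
      omega
    · rw [mem_biUnion]
      refine ⟨j0, by simp [hj0], ?_⟩
      rw [hK, mem_filter, Fintype.mem_piFinset]
      exact ⟨fun j => (mem_blk _ _).mpr rfl, hk3, hk4, hj0'⟩
  -- bound for one piece
  have hpiece : ∀ s ∈ SB p n b, ∀ j0 ∈ Finset.univ.erase (0 : Fin (p+3)),
      ((K s j0).card : ℝ) ≤ 2 ^ n * rho ^ (b - a) * (2 * 4 ^ (p+1))
        * rho ^ (Nat.dist (s j0) (bt (w j0))) := by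
    intro s hs j0 hj0
    have hj0 : j0 ≠ 0 := Finset.ne_of_mem_erase hj0
    rw [SB, mem_filter, Fintype.mem_piFinset] at hs
    obtain ⟨hs1, hs2, hs3⟩ := hs
    set g : Fin (p+3) → ℤ → ℝ := fun j z =>
      if j = 0 then (if bt (z - w j) = a then qq ^ (s j) * rho ^ (bt (z - w j)) else 0)
      else if j = j0 then (if s j < bt (z - w j) then qq ^ (s j) * rho ^ (bt (z - w j)) else 0)
      else qq ^ (s j) * rho ^ (bt (z - w j)) with hg
    have hgnn : ∀ j z, 0 ≤ g j z := by
      intro j z
      have : 0 ≤ qq ^ (s j) * rho ^ (bt (z - w j)) :=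
        mul_nonneg (pow_nonneg qq_pos.le _) (pow_nonneg rho_pos.le _)
      simp only [hg]
      split_ifs <;> first | exact this | exact le_rfl
    have h1 : ((K s j0).card : ℝ) ≤ ∑ k ∈ Fintype.piFinset (fun j => blk (s j)), ∏ j, g j (k j) := by
      rw [Finset.card_eq_sum_ones]
      push_cast
      refine (Finset.sum_le_sum (g := fun k => ∏ j, g j (k j)) ?_).trans ?_
      · intro k hk
        rw [hK, mem_filter] at hk
        obtain ⟨hk1, hk2, hk3, hk4⟩ := hk
        have h2 : ∏ j, g j (k j) = ∏ j, (qq ^ (s j) * rho ^ (bt (k j - w j))) := by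
          apply Finset.prod_congr rfl
          intro j _
          simp only [hg]
          by_cases h0 : j = 0
          · subst h0; rw [if_pos rfl, if_pos hk3]
          · rw [if_neg h0]
            by_cases h1 : j = j0
            · subst h1; rw [if_pos rfl, if_pos hk4]
            · rw [if_neg h1]
        rw [h2, Finset.prod_mul_distrib, Finset.prod_pow_eq_pow_sum, Finset.prod_pow_eq_pow_sum,
          hs3, hk2, qq_pow_rho_pow]
      · apply Finset.sum_le_sum_of_subset_of_nonneg (Finset.filter_subset _ _)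
        intro k _ _
        exact Finset.prod_nonneg (fun j _ => hgnn j _)
    rw [← Finset.prod_univ_sum] at h1
    refine h1.trans ?_
    -- bound each factor
    set c : Fin (p+3) → ℝ := fun j => if j = 0 then rho ^ (b - a) else if j = j0 then
      2 * rho ^ (Nat.dist (s j0) (bt (w j0))) else 4 with hc
    have hfac : ∀ j, ∑ z ∈ blk (s j), g j z ≤ 2 ^ (s j) * c j := by
      intro j
      simp only [hg, hc]
      by_cases h0 : j = 0
      · subst h0
        simp only [if_true]
        rw [hs2, ← Finset.sum_filter]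
        have h2 : ∑ z ∈ (blk b).filter (fun z => bt (z - w 0) = a), qq ^ b * rho ^ (bt (z - w 0))
            = ∑ z ∈ (blk b).filter (fun z => bt (z - w 0) = a), qq ^ b * rho ^ a := by
          apply Finset.sum_congr rfl
          intro z hz
          rw [(mem_filter.mp hz).2]
        rw [h2, Finset.sum_const, nsmul_eq_mul]
        have h3 : (((blk b).filter (fun z => bt (z - w 0) = a)).card : ℝ) ≤ 2 ^ a := by
          exact_mod_cast card_shift (blk b) (w 0) a
        have h4 : (2:ℝ) ^ b * rho ^ (b - a) = 2 ^ a * (qq ^ b * rho ^ a) := by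
          have h5 : (2:ℝ) ^ b = 2 ^ a * 2 ^ (b - a) := by rw [← pow_add]; congr 1; omega
          have h6 : qq ^ b = qq ^ a * qq ^ (b - a) := by rw [← pow_add]; congr 1; omega
          have h7 : (2:ℝ) ^ (b - a) * rho ^ (b - a) = qq ^ (b - a) := by rw [← mul_pow, two_rho]
          calc (2:ℝ) ^ b * rho ^ (b - a) = 2 ^ a * (2 ^ (b - a) * rho ^ (b - a)) := by rw [h5]; ring
            _ = 2 ^ a * qq ^ (b - a) * 1 := by rw [h7]; ring
            _ = 2 ^ a * qq ^ (b - a) * (qq ^ a * rho ^ a) := by rw [qq_pow_rho_pow]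
            _ = _ := by rw [h6]; ring
        rw [h4]
        apply mul_le_mul_of_nonneg_right h3
        exact mul_nonneg (pow_nonneg qq_pos.le _) (pow_nonneg rho_pos.le _)
      · simp only [if_neg h0]
        by_cases h1 : j = j0
        · subst h1
          simp only [if_true]
          exact lemB (w j) (s j)
        · simp only [if_neg h1]
          have := lemA (s j) (w j)
          linarith
    have hprod : ∏ j, ∑ z ∈ blk (s j), g j z ≤ ∏ j, (2 ^ (s j) * c j) := by
      apply Finset.prod_le_prod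
      · intro j _
        exact Finset.sum_nonneg (fun z _ => hgnn j z)
      · intro j _; exact hfac j
    refine hprod.trans (le_of_eq ?_)
    rw [Finset.prod_mul_distrib, Finset.prod_pow_eq_pow_sum, hs3]
    have hcprod : ∏ j, c j = rho ^ (b - a) * ((2 * rho ^ (Nat.dist (s j0) (bt (w j0)))) * 4 ^ (p+1)) := by
      rw [← Finset.mul_prod_erase Finset.univ c (Finset.mem_univ 0)]
      have hmem : j0 ∈ Finset.univ.erase (0 : Fin (p+3)) := by simp [hj0]
      rw [← Finset.mul_prod_erase _ c hmem]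
      have h1 : c 0 = rho ^ (b - a) := by simp [hc]
      have h2 : c j0 = 2 * rho ^ (Nat.dist (s j0) (bt (w j0))) := by
        simp [hc, hj0]
      have h3 : ∏ j ∈ (Finset.univ.erase (0 : Fin (p+3))).erase j0, c j = 4 ^ (p+1) := by
        have : ∀ j ∈ (Finset.univ.erase (0 : Fin (p+3))).erase j0, c j = 4 := by
          intro j hj
          rw [Finset.mem_erase, Finset.mem_erase] at hj
          simp only [hc]
          rw [if_neg hj.2.1, if_neg hj.1]
        rw [Finset.prod_congr rfl this, Finset.prod_const, Finset.card_erase_of_mem hmem,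
          Finset.card_erase_of_mem (Finset.mem_univ _), Finset.card_univ, Fintype.card_fin]
        congr 1
      rw [h1, h2, h3]
    rw [hcprod]; ring
  -- sum up
  have hsum : ((interSet p n a b w).card : ℝ) ≤
      ∑ s ∈ SB p n b, ∑ j0 ∈ Finset.univ.erase (0 : Fin (p+3)), ((K s j0).card : ℝ) := by
    have h1 := (card_le_card hcover).trans Finset.card_biUnion_le
    have h2 : ∑ s ∈ SB p n b, ((Finset.univ.erase (0 : Fin (p+3))).biUnion (fun j0 => K s j0)).card
        ≤ ∑ s ∈ SB p n b, ∑ j0 ∈ Finset.univ.erase (0 : Fin (p+3)), (K s j0).card :=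
      Finset.sum_le_sum (fun s _ => Finset.card_biUnion_le)
    exact_mod_cast h1.trans h2
  refine hsum.trans ?_
  rw [Finset.sum_comm]
  have hj : ∀ j0 ∈ Finset.univ.erase (0 : Fin (p+3)), ∑ s ∈ SB p n b, ((K s j0).card : ℝ)
      ≤ 2 ^ n * rho ^ (b - a) * (2 * 4 ^ (p+1)) * (7 * ((n:ℝ)+1) ^ p) := by
    intro j0 hj0
    calc ∑ s ∈ SB p n b, ((K s j0).card : ℝ)
        ≤ ∑ s ∈ SB p n b, 2 ^ n * rho ^ (b - a) * (2 * 4 ^ (p+1))
          * rho ^ (Nat.dist (s j0) (bt (w j0))) :=
          Finset.sum_le_sum (fun s hs => hpiece s hs j0 hj0)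
      _ = 2 ^ n * rho ^ (b - a) * (2 * 4 ^ (p+1))
          * ∑ s ∈ SB p n b, rho ^ (Nat.dist (s j0) (bt (w j0))) := by rw [Finset.mul_sum]
      _ ≤ _ := by
          apply mul_le_mul_of_nonneg_left (sum_SB p n b _ j0 (Finset.ne_of_mem_erase hj0))
          have := pow_nonneg rho_pos.le (b - a)
          positivity
  refine (Finset.sum_le_sum hj).trans (le_of_eq ?_)
  rw [Finset.sum_const, Finset.card_erase_of_mem (Finset.mem_univ _), Finset.card_univ,
    Fintype.card_fin, nsmul_eq_mul, CI]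
  have : ((p + 3 - 1 : ℕ) : ℝ) = (p:ℝ) + 2 := by
    have : p + 3 - 1 = p + 2 := by omega
    rw [this]; push_cast; ring
  rw [this]; ring

theorem inter_count (p n a b : ℕ) (hab : a ≠ b) (w : Fin (p+3) → ℤ) :
    ((interSet p n a b w).card : ℝ) ≤ CI p * (2 ^ n * rho ^ (Nat.dist a b) * ((n:ℝ)+1) ^ p) := by
  rcases lt_or_gt_of_ne hab with h | h
  · rw [Nat.dist_eq_sub_of_le h.le]
    exact inter_lt p n a b h w
  · rw [Nat.dist_comm, Nat.dist_eq_sub_of_le h.le]
    refine le_trans ?_ (inter_lt p n b a h (-w))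
    have : (interSet p n a b w).card ≤ (interSet p n b a (-w)).card := by
      apply Finset.card_le_card_of_injOn (fun k => k - w)
      · intro k hk
        rw [mem_coe, interSet, mem_filter] at hk
        obtain ⟨hk1, hk2, hk3, hk4⟩ := hk
        rw [mem_coe, interSet, mem_filter]
        have h1 : k - w - -w = k := by ring
        exact ⟨hk3, hk4, by rw [h1]; exact hk1, by rw [h1]; exact hk2⟩
      · intro z _ z' _ h
        simpa using h
    exact_mod_cast this

/-- Number of elements of a level of the layer. -/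
theorem card_level (p n a : ℕ) :
    (((layer (p+3) n).filter (fun k => bt (k 0) = a)).card : ℝ) ≤ 2 ^ n * ((n:ℝ)+1) ^ (p+1) := by
  classical
  -- cover by blocks
  have hcover : (layer (p+3) n).filter (fun k => bt (k 0) = a) ⊆
      (SB p n a).biUnion (fun s => Fintype.piFinset (fun j => blk (s j))) := by
    intro k hk
    rw [mem_filter, mem_layer_iff] at hk
    rw [mem_biUnion]
    refine ⟨fun j => bt (k j), ?_, ?_⟩
    · rw [SB, mem_filter, Fintype.mem_piFinset]
      refine ⟨?_, hk.2, hk.1⟩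
      intro j
      rw [mem_range]
      have : bt (k j) ≤ ∑ j, bt (k j) :=
        Finset.single_le_sum (f := fun j => bt (k j)) (fun _ _ => Nat.zero_le _) (Finset.mem_univ j)
      omega
    · rw [Fintype.mem_piFinset]
      exact fun j => (mem_blk _ _).mpr rfl
  have h1 := (card_le_card hcover).trans Finset.card_biUnion_le
  have h2 : ∀ s ∈ SB p n a, (Fintype.piFinset (fun j => blk (s j))).card = 2 ^ n := by
    intro s hs
    rw [SB, mem_filter] at hs
    rw [Fintype.card_piFinset]
    simp_rw [card_blk]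
    rw [Finset.prod_pow_eq_pow_sum, hs.2.2]
  rw [Finset.sum_congr rfl h2, Finset.sum_const, smul_eq_mul] at h1
  have h3 : (SB p n a).card ≤ (n+1) ^ (p+1) := by
    have hmaps : ∀ s ∈ SB p n a, s 1 ∈ range (n+1) := by
      intro s hs
      rw [SB, mem_filter, Fintype.mem_piFinset] at hs
      exact hs.1 1
    rw [Finset.card_eq_sum_card_fiberwise hmaps]
    calc ∑ t ∈ range (n+1), ((SB p n a).filter (fun s => s 1 = t)).card
        ≤ ∑ t ∈ range (n+1), (n+1)^p := Finset.sum_le_sum (fun t _ => card_fiber p n a t 1 (by simp))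
      _ = (n+1)^(p+1) := by rw [Finset.sum_const, card_range, smul_eq_mul]; ring
  have h4 : ((layer (p+3) n).filter (fun k => bt (k 0) = a)).card ≤ (n+1)^(p+1) * 2 ^ n :=
    h1.trans (Nat.mul_le_mul_right _ h3)
  calc (((layer (p+3) n).filter (fun k => bt (k 0) = a)).card : ℝ)
      ≤ (((n+1)^(p+1) * 2 ^ n : ℕ) : ℝ) := by exact_mod_cast h4
    _ = _ := by push_cast; ring

end HypLayer
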