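import Mathlib
import Pool.Agent.Work.MP_36752c_an.Defs

open MeasureTheory

namespace HypLayer

instance circleMeas_prob : IsProbabilityMeasure circleMeas := by
  constructor
  rw [circleMeas, Measure.smul_apply, Measure.restrict_apply_univ, Real.volume_Ico, smul_eq_mul,
    sub_zero]
  apply ENNReal.inv_mul_cancel
  · simp [Real.pi_pos]
  · exact ENNReal.ofReal_ne_top

instance torusMeas_prob (d : ℕ) : IsProbabilityMeasure (torusMeas d) := by
  unfold torusMeas; infer_instance

theorem circle_integral (f : ℝ → ℂ) :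
    ∫ t, f t ∂circleMeas = ((2 * Real.pi : ℝ) : ℂ)⁻¹ * ∫ t in (0:ℝ)..(2 * Real.pi), f t := by
  rw [circleMeas, integral_smul_measure]
  rw [ENNReal.toReal_inv, ENNReal.toReal_ofReal (by positivity)]
  rw [intervalIntegral.integral_of_le (by positivity), ← integral_Ico_eq_integral_Ioc]
  rw [Complex.real_smul]
  push_cast
  rfl

theorem circle_char (m : ℤ) :
    ∫ t, Complex.exp (Complex.I * ((m : ℝ) * t : ℝ)) ∂circleMeas = if m = 0 then 1 else 0 := by
  by_cases hm : m = 0
  · subst hm; simp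
  · rw [circle_integral, if_neg hm]
    have h1 : (Complex.I * (m : ℂ)) ≠ 0 := by
      simp [hm, Complex.I_ne_zero]
    have h2 : (∫ t in (0:ℝ)..(2 * Real.pi), Complex.exp (Complex.I * ((m : ℝ) * t : ℝ)))
        = ∫ t in (0:ℝ)..(2 * Real.pi), Complex.exp ((Complex.I * (m : ℂ)) * t) := by
      congr 1; ext t; congr 1; push_cast; ring
    rw [h2, integral_exp_mul_complex h1]
    have h3 : Complex.exp (Complex.I * (m : ℂ) * ((2 * Real.pi : ℝ) : ℂ)) = 1 := by
      rw [Complex.exp_eq_one_iff]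
      exact ⟨m, by push_cast; ring⟩
    rw [h3]
    simp

/-- The character `exp(i k·x)`. -/
noncomputable def chr {d : ℕ} (k : Fin d → ℤ) (x : Fin d → ℝ) : ℂ :=
  Complex.exp (Complex.I * (ang k x : ℂ))

theorem chr_integral {d : ℕ} (k : Fin d → ℤ) :
    ∫ x, chr k x ∂(torusMeas d) = if k = 0 then 1 else 0 := by
  have h1 : ∀ x : Fin d → ℝ, chr k x
      = ∏ j, Complex.exp (Complex.I * (((k j : ℤ) : ℝ) * x j : ℝ)) := by
    intro x
    rw [chr, ang, ← Complex.exp_sum]
    congr 1
    push_cast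
    rw [Finset.mul_sum]
  simp_rw [h1]
  rw [torusMeas, integral_fintype_prod_eq_prod (𝕜 := ℂ)
    (f := fun (j : Fin d) (t : ℝ) => Complex.exp (Complex.I * (((k j : ℤ) : ℝ) * t : ℝ)))]
  simp_rw [circle_char]
  by_cases hk : k = 0
  · subst hk; simp
  · rw [if_neg hk]
    obtain ⟨j, hj⟩ := Function.ne_iff.mp hk
    apply Finset.prod_eq_zero (Finset.mem_univ j)
    rw [if_neg (by simpa using hj)]

theorem ang_add {d : ℕ} (k l : Fin d → ℤ) (x : Fin d → ℝ) : ang (k + l) x = ang k x + ang l x := by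
  simp only [ang, Pi.add_apply, ← Finset.sum_add_distrib]
  congr 1; ext j; push_cast; ring

theorem ang_neg {d : ℕ} (k : Fin d → ℤ) (x : Fin d → ℝ) : ang (-k) x = - ang k x := by
  simp only [ang, Pi.neg_apply, ← Finset.sum_neg_distrib]
  congr 1; ext j; push_cast; ring

theorem ang_sub {d : ℕ} (k l : Fin d → ℤ) (x : Fin d → ℝ) : ang (k - l) x = ang k x - ang l x := by
  rw [sub_eq_add_neg, ang_add, ang_neg, sub_eq_add_neg]

@[fun_prop]
theorem continuous_ang {d : ℕ} (k : Fin d → ℤ) : Continuous (ang k) := by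
  unfold ang; fun_prop

@[fun_prop]
theorem continuous_chr {d : ℕ} (k : Fin d → ℤ) : Continuous (chr k) := by
  unfold chr; fun_prop

theorem norm_chr {d : ℕ} (k : Fin d → ℤ) (x : Fin d → ℝ) : ‖chr k x‖ = 1 := by
  rw [chr, mul_comm, Complex.norm_exp_ofReal_mul_I]

theorem chr_add {d : ℕ} (k l : Fin d → ℤ) (x : Fin d → ℝ) : chr (k + l) x = chr k x * chr l x := by
  rw [chr, chr, chr, ← Complex.exp_add, ang_add]; push_cast; ring_nf

theorem chr_neg {d : ℕ} (k : Fin d → ℤ) (x : Fin d → ℝ) :
    chr (-k) x = (starRingEnd ℂ) (chr k x) := by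
  rw [chr, chr, ← Complex.exp_conj, ang_neg]; simp

theorem chr_neg' {d : ℕ} (k : Fin d → ℤ) (x : Fin d → ℝ) :
    chr (-k) x = Complex.exp (-(Complex.I * (ang k x : ℂ))) := by
  rw [chr, ang_neg]; push_cast; ring_nf

theorem fourierCoef_eq {d : ℕ} (f : (Fin d → ℝ) → ℂ) (k : Fin d → ℤ) :
    fourierCoef f k = ∫ x, f x * chr (-k) x ∂(torusMeas d) := by
  simp_rw [fourierCoef, chr_neg']

theorem chr_re {d : ℕ} (k : Fin d → ℤ) (x : Fin d → ℝ) : (chr k x).re = Real.cos (ang k x) := by
  rw [chr, mul_comm, Complex.exp_ofReal_mul_I_re]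

theorem chr_im {d : ℕ} (k : Fin d → ℤ) (x : Fin d → ℝ) : (chr k x).im = Real.sin (ang k x) := by
  rw [chr, mul_comm, Complex.exp_ofReal_mul_I_im]

/-- Integrability of bounded continuous functions. -/
theorem integrable_of_cont {d : ℕ} {f : (Fin d → ℝ) → ℂ} (hf : Continuous f) (C : ℝ)
    (hC : ∀ x, ‖f x‖ ≤ C) : Integrable f (torusMeas d) :=
  Integrable.of_bound hf.aestronglyMeasurable C (Filter.Eventually.of_forall hC)

theorem integrable_of_cont' {d : ℕ} {f : (Fin d → ℝ) → ℝ} (hf : Continuous f) (C : ℝ)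
    (hC : ∀ x, |f x| ≤ C) : Integrable f (torusMeas d) :=
  Integrable.of_bound hf.aestronglyMeasurable C (Filter.Eventually.of_forall hC)

theorem integrable_chr {d : ℕ} (k : Fin d → ℤ) : Integrable (chr k) (torusMeas d) :=
  integrable_of_cont (continuous_chr k) 1 (fun x => (norm_chr k x).le)

theorem integral_cos {d : ℕ} (k : Fin d → ℤ) :
    ∫ x, Real.cos (ang k x) ∂(torusMeas d) = if k = 0 then 1 else 0 := by
  have h := chr_integral k
  have h2 := congrArg Complex.re h
  have h3 : (∫ x, chr k x ∂(torusMeas d)).re = ∫ x, (chr k x).re ∂(torusMeas d) := by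
    exact (integral_re (integrable_chr k)).symm
  rw [h3] at h2
  simp_rw [chr_re] at h2
  rw [h2]
  split_ifs <;> simp

theorem integral_sin {d : ℕ} (k : Fin d → ℤ) :
    ∫ x, Real.sin (ang k x) ∂(torusMeas d) = 0 := by
  have h := chr_integral k
  have h2 := congrArg Complex.im h
  have h3 : (∫ x, chr k x ∂(torusMeas d)).im = ∫ x, (chr k x).im ∂(torusMeas d) := by
    exact (integral_im (integrable_chr k)).symm
  rw [h3] at h2
  simp_rw [chr_im] at h2
  rw [h2]
  split_ifs <;> simp

/-- Bessel's inequality, real form: sum of the squares of the Fourier coefficients of a bounded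
continuous real function. -/
theorem bessel {d : ℕ} (h : (Fin d → ℝ) → ℝ) (hc : Continuous h) (C : ℝ) (hC : ∀ x, |h x| ≤ C)
    (W : Finset (Fin d → ℤ)) :
    ∑ k ∈ W, ((∫ x, h x * Real.cos (ang k x) ∂(torusMeas d)) ^ 2
      + (∫ x, h x * Real.sin (ang k x) ∂(torusMeas d)) ^ 2) ≤ ∫ x, (h x) ^ 2 ∂(torusMeas d) := by
  set μ := torusMeas d with hμ
  have hC0 : 0 ≤ C := (abs_nonneg _).trans (hC 0)
  -- complex Fourier coefficients
  set a : (Fin d → ℤ) → ℂ := fun k => ∫ x, (h x : ℂ) * chr (-k) x ∂μ with ha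
  have hint : ∀ k, Integrable (fun x => (h x : ℂ) * chr k x) μ := by
    intro k
    apply integrable_of_cont (by fun_prop) C
    intro x
    rw [norm_mul, norm_chr, mul_one, Complex.norm_real]
    exact hC x
  have hak : ∀ k, (∫ x, h x * Real.cos (ang k x) ∂μ) ^ 2
      + (∫ x, h x * Real.sin (ang k x) ∂μ) ^ 2 = Complex.normSq (a k) := by
    intro k
    have h1 : (a k).re = ∫ x, h x * Real.cos (ang k x) ∂μ := by
      have : (a k).re = ∫ x, ((h x : ℂ) * chr (-k) x).re ∂μ := (integral_re (hint (-k))).symm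
      rw [this]
      congr 1; ext x
      rw [Complex.re_ofReal_mul, chr_re, ang_neg, Real.cos_neg]
    have h2 : (a k).im = - ∫ x, h x * Real.sin (ang k x) ∂μ := by
      have : (a k).im = ∫ x, ((h x : ℂ) * chr (-k) x).im ∂μ := (integral_im (hint (-k))).symm
      rw [this, ← integral_neg]
      congr 1; ext x
      rw [Complex.im_ofReal_mul, chr_im, ang_neg, Real.sin_neg]; ring
    rw [Complex.normSq_apply, h1, h2]; ring
  rw [Finset.sum_congr rfl (fun k _ => hak k)]
  -- the polynomial
  set T : (Fin d → ℝ) → ℂ := fun x => ∑ k ∈ W, a k * chr k x with hT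
  have hTc : Continuous T := by rw [hT]; fun_prop
  have hTb : ∀ x, ‖T x‖ ≤ ∑ k ∈ W, ‖a k‖ := by
    intro x
    refine (norm_sum_le _ _).trans (Finset.sum_le_sum fun k _ => ?_)
    rw [norm_mul, norm_chr, mul_one]
  have hpos : 0 ≤ ∫ x, Complex.normSq ((h x : ℂ) - T x) ∂μ :=
    integral_nonneg (fun x => Complex.normSq_nonneg _)
  -- expand
  have hexp : ∀ x, Complex.normSq ((h x : ℂ) - T x)
      = (h x) ^ 2 - 2 * ((h x : ℂ) * (starRingEnd ℂ) (T x)).re
        + (T x * (starRingEnd ℂ) (T x)).re := by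
    intro x
    simp only [Complex.normSq_apply, Complex.sub_re, Complex.sub_im, Complex.mul_re,
      Complex.conj_re, Complex.conj_im, Complex.ofReal_re, Complex.ofReal_im]
    ring
  have hconj : ∀ x, (starRingEnd ℂ) (T x) = ∑ k ∈ W, (starRingEnd ℂ) (a k) * chr (-k) x := by
    intro x
    rw [hT, map_sum]
    apply Finset.sum_congr rfl
    intro k _
    rw [map_mul, chr_neg]
  have hI1 : ∫ x, ((h x : ℂ) * (starRingEnd ℂ) (T x)) ∂μ = ∑ k ∈ W, (Complex.normSq (a k) : ℂ) := by
    have : ∀ x, ((h x : ℂ) * (starRingEnd ℂ) (T x))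
        = ∑ k ∈ W, (starRingEnd ℂ) (a k) * ((h x : ℂ) * chr (-k) x) := by
      intro x
      rw [hconj, Finset.mul_sum]
      apply Finset.sum_congr rfl; intro k _; ring
    simp_rw [this]
    rw [integral_finsetSum]
    · apply Finset.sum_congr rfl
      intro k _
      rw [integral_const_mul, Complex.normSq_eq_conj_mul_self]
    · intro k _
      exact (hint (-k)).const_mul _
  have hI2 : ∫ x, (T x * (starRingEnd ℂ) (T x)) ∂μ = ∑ k ∈ W, (Complex.normSq (a k) : ℂ) := by
    have : ∀ x, (T x * (starRingEnd ℂ) (T x))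
        = ∑ l ∈ W, ∑ k ∈ W, (a l * (starRingEnd ℂ) (a k)) * chr (l - k) x := by
      intro x
      rw [hconj, hT, Finset.sum_mul_sum]
      apply Finset.sum_congr rfl; intro l _
      apply Finset.sum_congr rfl; intro k _
      rw [sub_eq_add_neg, chr_add]; ring
    simp_rw [this]
    rw [integral_finsetSum]
    · apply Finset.sum_congr rfl
      intro l hl
      rw [integral_finsetSum]
      · simp_rw [integral_const_mul]
        rw [Finset.sum_eq_single l]
        · rw [chr_integral, if_pos (sub_self l), mul_one, Complex.mul_conj]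
        · intro k _ hkl
          rw [chr_integral, if_neg (sub_ne_zero.mpr hkl.symm), mul_zero]
        · intro hl'; exact absurd hl hl'
      · intro k _
        exact (integrable_chr _).const_mul _
    · intro l _
      exact integrable_finsetSum _ (fun k _ => (integrable_chr _).const_mul _)
  have hint1 : Integrable (fun x => ((h x : ℂ) * (starRingEnd ℂ) (T x))) μ := by
    apply integrable_of_cont (by fun_prop) (C * ∑ k ∈ W, ‖a k‖)
    intro x
    rw [norm_mul, Complex.norm_real, RCLike.norm_conj]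
    exact mul_le_mul (hC x) (hTb x) (norm_nonneg _) hC0
  have hint2 : Integrable (fun x => (T x * (starRingEnd ℂ) (T x))) μ := by
    apply integrable_of_cont (by fun_prop) ((∑ k ∈ W, ‖a k‖) * ∑ k ∈ W, ‖a k‖)
    intro x
    rw [norm_mul, RCLike.norm_conj]
    exact mul_le_mul (hTb x) (hTb x) (norm_nonneg _) (Finset.sum_nonneg fun _ _ => norm_nonneg _)
  have hint3 : Integrable (fun x => (h x) ^ 2) μ := by
    apply integrable_of_cont' (by fun_prop) (C ^ 2)
    intro x
    rw [abs_pow]
    exact pow_le_pow_left₀ (abs_nonneg _) (hC x) 2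
  have hR1 : ∫ x, ((h x : ℂ) * (starRingEnd ℂ) (T x)).re ∂μ = ∑ k ∈ W, Complex.normSq (a k) := by
    have := integral_re hint1
    simp only [RCLike.re_to_complex] at this
    rw [this, hI1]
    simp
  have hR2 : ∫ x, (T x * (starRingEnd ℂ) (T x)).re ∂μ = ∑ k ∈ W, Complex.normSq (a k) := by
    have := integral_re hint2
    simp only [RCLike.re_to_complex] at this
    rw [this, hI2]
    simp
  simp_rw [hexp] at hpos
  rw [integral_add, integral_sub, integral_const_mul, hR1, hR2] at hpos
  · linarith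
  · exact hint3
  · exact (hint1.re).const_mul 2
  · exact hint3.sub ((hint1.re).const_mul 2)
  · exact hint2.re

end HypLayer
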