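import Mathlib
import Pool.Agent.Work.MP_36752c_an.Torus
import Pool.Agent.Work.MP_36752c_an.Inter
import Pool.Agent.Work.MP_36752c_an.Flip

/-!
# Abstract system of real functions with levels
-/

open MeasureTheory Finset

namespace HypLayer

/-- Abstract data used in the lower bound. -/
structure Sys (d : ℕ) (I : Type) [Fintype I] [DecidableEq I] where
  n : ℕ
  B : ℝ
  CI : ℝ
  E : Bool → I → (Fin d → ℝ) → ℝ
  lv : I → ℤ
  cont : ∀ u i, Continuous (E u i)
  bdd : ∀ u i x, |E u i x| ≤ 1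
  lv_nonneg : ∀ i, 0 ≤ lv i
  lv_le : ∀ i, lv i ≤ n
  CI_nonneg : 0 ≤ CI
  B_ge : 2 ^ n * ((n:ℝ) + 1) ≤ B
  mean : ∀ u i, ∫ x, E u i x ∂(torusMeas d) = 0
  orth : ∀ i j, (∫ x, E false i x * E false j x ∂(torusMeas d))
    + (∫ x, E true i x * E true j x ∂(torusMeas d)) = if i = j then 1 else 0
  sumsq : ∀ u a x, ∑ i, (if lv i = a then (E u i x) ^ 2 else 0) ≤ B
  card_lv : ∀ a, ((Finset.univ.filter (fun i => lv i = a)).card : ℝ) ≤ 2 * B
  bessel : ∀ u (h : (Fin d → ℝ) → ℝ) (C : ℝ), Continuous h → (∀ x, |h x| ≤ C) →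
    ∑ i, (∫ x, h x * E u i x ∂(torusMeas d)) ^ 2 ≤ ∫ x, (h x) ^ 2 ∂(torusMeas d)
  cross : ∀ u (a b : ℤ) (h : (Fin d → ℝ) → ℝ) (C : ℝ), a ≠ b → Continuous h → (∀ x, |h x| ≤ C) →
    ∑ j ∈ Finset.univ.filter (fun j => lv j = a), ∑ i ∈ Finset.univ.filter (fun i => lv i = b),
      (∫ x, h x * (E u j x * E u i x) ∂(torusMeas d)) ^ 2
      ≤ (CI * B * rho ^ (a - b).natAbs / ((n:ℝ) + 1)) * ∫ x, (h x) ^ 2 ∂(torusMeas d)

namespace Sys

variable {d : ℕ} {I : Type} [Fintype I] [DecidableEq I] (S : Sys d I)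

attribute [fun_prop] Sys.cont

theorem B_pos : 0 < S.B := by
  have := S.B_ge
  have h : (0:ℝ) < 2 ^ S.n * ((S.n:ℝ) + 1) := by positivity
  linarith

/-- The side of the cube: `r = B^(-1/2)`. -/
noncomputable def r : ℝ := (Real.sqrt S.B)⁻¹

theorem r_pos : 0 < S.r := by
  unfold r; have := S.B_pos; positivity

theorem B_r_sq : S.B * S.r ^ 2 = 1 := by
  have := S.B_pos
  unfold r
  rw [inv_pow, Real.sq_sqrt this.le]
  field_simp

/-- Level components of the trigonometric polynomial with real coefficient vector `y`. -/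
noncomputable def P (u : Bool) (a : ℤ) (y : I → ℝ) (x : Fin d → ℝ) : ℝ :=
  ∑ i, (if S.lv i = a then y i * S.E u i x else 0)

/-- The set of indices of level `a`. -/
def T (a : ℤ) : Finset I := Finset.univ.filter (fun i => S.lv i = a)

theorem mem_T (a : ℤ) (i : I) : i ∈ S.T a ↔ S.lv i = a := by simp [T]

theorem P_eq (u : Bool) (a : ℤ) (y : I → ℝ) (x : Fin d → ℝ) :
    S.P u a y x = ∑ i ∈ S.T a, y i * S.E u i x := by
  rw [P, T, Finset.sum_filter]

theorem P_zero_of_empty (u : Bool) (a : ℤ) (ha : a < 0 ∨ (S.n : ℤ) < a) (y : I → ℝ)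
    (x : Fin d → ℝ) : S.P u a y x = 0 := by
  rw [P]
  apply Finset.sum_eq_zero
  intro i _
  rw [if_neg]
  intro h
  have h1 := S.lv_nonneg i
  have h2 := S.lv_le i
  omega

@[fun_prop]
theorem continuous_P (u : Bool) (a : ℤ) :
    Continuous (fun z : (I → ℝ) × (Fin d → ℝ) => S.P u a z.1 z.2) := by
  simp only [P_eq]
  apply continuous_finsetSum
  intro i _
  apply Continuous.mul
  · fun_prop
  · exact (S.cont u i).comp continuous_snd

theorem continuous_P' {Z : Type*} [TopologicalSpace Z] (u : Bool) (a : ℤ) {f : Z → (I → ℝ)}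
    {g : Z → (Fin d → ℝ)} (hf : Continuous f) (hg : Continuous g) :
    Continuous (fun z => S.P u a (f z) (g z)) :=
  (S.continuous_P u a).comp (hf.prodMk hg)

theorem P_bound (u : Bool) (a : ℤ) (y : I → ℝ) (x : Fin d → ℝ) : |S.P u a y x| ≤ ∑ i, |y i| := by
  rw [P]
  refine (Finset.abs_sum_le_sum_abs _ _).trans (Finset.sum_le_sum fun i _ => ?_)
  split_ifs
  · rw [abs_mul]
    exact mul_le_of_le_one_right (abs_nonneg _) (S.bdd u i x)
  · simp

theorem P_add (u : Bool) (a : ℤ) (y z : I → ℝ) (x : Fin d → ℝ) :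
    S.P u a (y + z) x = S.P u a y x + S.P u a z x := by
  simp only [P_eq, ← Finset.sum_add_distrib, Pi.add_apply]
  apply Finset.sum_congr rfl; intro i _; ring

theorem P_sub (u : Bool) (a : ℤ) (y z : I → ℝ) (x : Fin d → ℝ) :
    S.P u a (y - z) x = S.P u a y x - S.P u a z x := by
  simp only [P_eq, ← Finset.sum_sub_distrib, Pi.sub_apply]
  apply Finset.sum_congr rfl; intro i _; ring

theorem P_flp_of_mem (u : Bool) (y : I → ℝ) (x : Fin d → ℝ) (j : I) :
    S.P u (S.lv j) (flp {j} y) x = S.P u (S.lv j) y x - 2 * y j * S.E u j x := by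
  simp only [P]
  rw [← Finset.add_sum_erase Finset.univ _ (Finset.mem_univ j),
    ← Finset.add_sum_erase Finset.univ (fun i => if S.lv i = S.lv j then y i * S.E u i x else 0)
      (Finset.mem_univ j)]
  simp only [if_true]
  have h1 : ∀ i ∈ Finset.univ.erase j, (if S.lv i = S.lv j then flp {j} y i * S.E u i x else 0)
      = (if S.lv i = S.lv j then y i * S.E u i x else 0) := by
    intro i hi
    have : i ≠ j := Finset.ne_of_mem_erase hi
    simp [flp, this]
  rw [Finset.sum_congr rfl h1]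
  simp only [flp, Finset.mem_singleton, if_true]
  ring

theorem P_flp_of_ne (u : Bool) (a : ℤ) (y : I → ℝ) (x : Fin d → ℝ) (U : Finset I)
    (hU : ∀ j ∈ U, S.lv j ≠ a) : S.P u a (flp U y) x = S.P u a y x := by
  simp only [P]
  apply Finset.sum_congr rfl
  intro i _
  by_cases h : S.lv i = a
  · have : i ∉ U := fun h2 => hU i h2 h
    simp [flp, this]
  · simp [h]

theorem P_flp_T (u : Bool) (a : ℤ) (y : I → ℝ) (x : Fin d → ℝ) :
    S.P u a (flp (S.T a) y) x = - S.P u a y x := by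
  simp only [P, ← Finset.sum_neg_distrib]
  apply Finset.sum_congr rfl
  intro i _
  by_cases h : S.lv i = a
  · simp [flp, mem_T, h]
  · simp [h]

theorem int_bdd {f : (Fin d → ℝ) → ℝ} (hf : Continuous f) {C : ℝ} (hC : ∀ x, |f x| ≤ C) :
    Integrable f (torusMeas d) := integrable_of_cont' hf C hC

/-- Norm identity for level components. -/
theorem P_norm (a : ℤ) (y : I → ℝ) :
    (∫ x, (S.P false a y x) ^ 2 ∂(torusMeas d)) + (∫ x, (S.P true a y x) ^ 2 ∂(torusMeas d))
      = ∑ i ∈ S.T a, (y i) ^ 2 := by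
  have h1 : ∀ u, ∫ x, (S.P u a y x) ^ 2 ∂(torusMeas d)
      = ∑ i ∈ S.T a, ∑ j ∈ S.T a, y i * y j * ∫ x, S.E u i x * S.E u j x ∂(torusMeas d) := by
    intro u
    have h2 : ∀ x, (S.P u a y x) ^ 2
        = ∑ i ∈ S.T a, ∑ j ∈ S.T a, y i * y j * (S.E u i x * S.E u j x) := by
      intro x
      rw [P_eq, sq, Finset.sum_mul_sum]
      apply Finset.sum_congr rfl; intro i _
      apply Finset.sum_congr rfl; intro j _
      ring
    have hint : ∀ i j, Integrable (fun x => y i * y j * (S.E u i x * S.E u j x)) (torusMeas d) := by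
      intro i j
      apply Integrable.const_mul
      apply int_bdd (C := 1)
      · exact (S.cont u i).mul (S.cont u j)
      · intro x
        rw [abs_mul]
        exact mul_le_one₀ (S.bdd u i x) (abs_nonneg _) (S.bdd u j x)
    simp_rw [h2]
    rw [integral_finsetSum]
    · apply Finset.sum_congr rfl; intro i _
      rw [integral_finsetSum]
      · apply Finset.sum_congr rfl; intro j _
        rw [integral_const_mul]
      · intro j _; exact hint i j
    · intro i _
      exact integrable_finsetSum _ (fun j _ => hint i j)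
  rw [h1 false, h1 true, ← Finset.sum_add_distrib]
  apply Finset.sum_congr rfl
  intro i hi
  rw [← Finset.sum_add_distrib]
  have h3 : ∀ j ∈ S.T a, y i * y j * (∫ x, S.E false i x * S.E false j x ∂(torusMeas d))
      + y i * y j * (∫ x, S.E true i x * S.E true j x ∂(torusMeas d))
      = if j = i then (y i) ^ 2 else 0 := by
    intro j _
    rw [← mul_add, S.orth i j]
    by_cases hij : i = j
    · subst hij; simp; ring
    · rw [if_neg hij, if_neg (fun h => hij h.symm), mul_zero]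
  rw [Finset.sum_congr rfl h3, Finset.sum_ite_eq' (S.T a) i, if_pos hi]

/-- Sum over all levels. -/
theorem sum_levels (f : I → ℝ) :
    ∑ a ∈ Finset.Icc (0:ℤ) S.n, ∑ i ∈ S.T a, f i = ∑ i, f i := by
  have hmaps : ∀ i ∈ (Finset.univ : Finset I), S.lv i ∈ Finset.Icc (0:ℤ) S.n := by
    intro i _
    rw [Finset.mem_Icc]
    exact ⟨S.lv_nonneg i, S.lv_le i⟩
  rw [← Finset.sum_fiberwise_of_maps_to hmaps]
  rfl

end Sys

end HypLayer
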