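import Mathlib
import Pool.Agent.Work.MP_36752c_an.Sys

/-!
# The gradient map: derivative, determinant and injectivity
-/

open MeasureTheory Finset

namespace HypLayer

theorem eigen_data {I : Type} [Fintype I] [DecidableEq I] (M : Matrix I I ℝ) (hM : M.IsHermitian) :
    ∃ (l : I → ℝ) (b : I → I → ℝ), M.det = ∏ m, l m ∧
      (∀ m, ∑ i, b m i * (M.mulVec (b m)) i = l m) ∧
      (∀ m, ∑ i, (b m i) ^ 2 = 1) ∧
      (∀ e : I → ℝ, ∑ m, (∑ i, b m i * e i) ^ 2 = ∑ i, (e i) ^ 2) := by
  refine ⟨hM.eigenvalues, fun m => (hM.eigenvectorBasis m : EuclideanSpace ℝ I).ofLp, ?_, ?_, ?_, ?_⟩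
  · have := hM.det_eq_prod_eigenvalues
    simpa using this
  · intro m
    rw [hM.eigenvalues_eq]
    simp [dotProduct]
  · intro m
    have h := (hM.eigenvectorBasis).orthonormal.1 m
    have h2 := EuclideanSpace.norm_eq (hM.eigenvectorBasis m)
    rw [h] at h2
    have h3 := congrArg (fun t => t ^ 2) h2
    simp only [one_pow] at h3
    rw [Real.sq_sqrt (Finset.sum_nonneg fun _ _ => by positivity)] at h3
    rw [h3]
    apply Finset.sum_congr rfl
    intro i _
    rw [Real.norm_eq_abs, sq_abs]
  · intro e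
    have h := (hM.eigenvectorBasis).sum_sq_norm_inner_right (WithLp.toLp 2 e)
    rw [EuclideanSpace.norm_eq, Real.sq_sqrt (Finset.sum_nonneg fun _ _ => by positivity)] at h
    simp only [Real.norm_eq_abs, sq_abs] at h
    rw [← h]
    apply Finset.sum_congr rfl
    intro m _
    congr 1
    rw [PiLp.inner_apply]
    apply Finset.sum_congr rfl
    intro i _
    simp [mul_comm]

namespace Sys

variable {d : ℕ} {I : Type} [Fintype I] [DecidableEq I] (S : Sys d I)

/-- `P` as a continuous linear functional of the coefficient vector. -/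
noncomputable def PL (u : Bool) (a : ℤ) (x : Fin d → ℝ) : (I → ℝ) →L[ℝ] ℝ :=
  ∑ i, (if S.lv i = a then S.E u i x else 0) • ContinuousLinearMap.proj i

theorem PL_apply (u : Bool) (a : ℤ) (x : Fin d → ℝ) (y : I → ℝ) : S.PL u a x y = S.P u a y x := by
  rw [PL, P]
  simp only [FunLike.coe_sum, Finset.sum_apply, FunLike.coe_smul,
    Pi.smul_apply, ContinuousLinearMap.proj_apply, smul_eq_mul]
  apply Finset.sum_congr rfl
  intro i _
  split_ifs <;> ring

theorem continuous_PL (u : Bool) (a : ℤ) : Continuous (S.PL u a) := by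
  unfold PL
  apply continuous_finsetSum
  intro i _
  by_cases h : S.lv i = a
  · simp only [h, if_true]
    exact (S.cont u i).smul continuous_const
  · simp only [h, if_false, zero_smul]
    exact continuous_const

theorem norm_PL (u : Bool) (a : ℤ) (x : Fin d → ℝ) : ‖S.PL u a x‖ ≤ Fintype.card I := by
  apply ContinuousLinearMap.opNorm_le_bound _ (by positivity)
  intro y
  rw [PL_apply, Real.norm_eq_abs]
  refine (S.P_bound u a y x).trans ?_
  calc ∑ i, |y i| ≤ ∑ _i : I, ‖y‖ := Finset.sum_le_sum (fun i _ => norm_le_pi_norm y i)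
    _ = _ := by rw [Finset.sum_const, Finset.card_univ, nsmul_eq_mul]

theorem arctan_bdd (t : ℝ) : |Real.arctan t| ≤ 2 := by
  rw [abs_le]
  have h1 := Real.neg_pi_div_two_lt_arctan t
  have h2 := Real.arctan_lt_pi_div_two t
  have h3 := Real.pi_lt_four
  constructor <;> linarith

/-- One real component of the gradient map. -/
noncomputable def Phi (u : Bool) (i : I) (y : I → ℝ) : ℝ :=
  ∫ x, Real.arctan (S.P u (S.lv i) y x) * S.E u i x ∂(torusMeas d)

/-- The gradient map. -/
noncomputable def F (y : I → ℝ) (i : I) : ℝ := S.Phi false i y + S.Phi true i y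

/-- The weight. -/
noncomputable def w (u : Bool) (a : ℤ) (y : I → ℝ) (x : Fin d → ℝ) : ℝ :=
  1 / (1 + (S.P u a y x) ^ 2)

theorem w_pos (u : Bool) (a : ℤ) (y : I → ℝ) (x : Fin d → ℝ) : 0 < S.w u a y x := by
  unfold w; positivity

theorem w_le_one (u : Bool) (a : ℤ) (y : I → ℝ) (x : Fin d → ℝ) : S.w u a y x ≤ 1 := by
  unfold w
  rw [div_le_one (by positivity)]
  nlinarith [sq_nonneg (S.P u a y x)]

theorem continuous_w (u : Bool) (a : ℤ) (y : I → ℝ) : Continuous (S.w u a y) := by
  unfold w
  apply Continuous.div continuous_const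
  · exact continuous_const.add ((S.continuous_P' u a continuous_const continuous_id).pow 2)
  · intro x; positivity

theorem w_bdd (u : Bool) (a : ℤ) (y : I → ℝ) (x : Fin d → ℝ) : |S.w u a y x| ≤ 1 := by
  rw [abs_of_pos (S.w_pos u a y x)]; exact S.w_le_one u a y x

/-- The Jacobian matrix. -/
noncomputable def M (y : I → ℝ) : Matrix I I ℝ := fun i j =>
  if S.lv i = S.lv j then
    (∫ x, S.w false (S.lv i) y x * (S.E false i x * S.E false j x) ∂(torusMeas d))
    + (∫ x, S.w true (S.lv i) y x * (S.E true i x * S.E true j x) ∂(torusMeas d))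
  else 0

theorem cont_mul_E {f : (Fin d → ℝ) → ℝ} (hf : Continuous f) (u : Bool) (i : I) :
    Continuous (fun x => f x * S.E u i x) := hf.mul (S.cont u i)

theorem bdd_mul {f g : (Fin d → ℝ) → ℝ} {C D : ℝ} (hf : ∀ x, |f x| ≤ C) (hg : ∀ x, |g x| ≤ D) (x) :
    |f x * g x| ≤ C * D := by
  rw [abs_mul]
  exact mul_le_mul (hf x) (hg x) (abs_nonneg _) ((abs_nonneg _).trans (hf x))

/-- Derivative of a component. -/
theorem hasFDerivAt_Phi (u : Bool) (i : I) (y : I → ℝ) :
    HasFDerivAt (S.Phi u i)
      (∫ x, (S.w u (S.lv i) y x * S.E u i x) • S.PL u (S.lv i) x ∂(torusMeas d)) y := by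
  unfold Phi
  apply hasFDerivAt_integral_of_dominated_of_fderiv_le (s := Set.univ)
    (F := fun y x => Real.arctan (S.P u (S.lv i) y x) * S.E u i x)
    (F' := fun y x => (S.w u (S.lv i) y x * S.E u i x) • S.PL u (S.lv i) x)
    (bound := fun _ => (Fintype.card I : ℝ)) Filter.univ_mem
  · apply Filter.Eventually.of_forall
    intro y'
    apply Continuous.aestronglyMeasurable
    apply S.cont_mul_E
    exact Real.continuous_arctan.comp (S.continuous_P' u _ continuous_const continuous_id)
  · apply int_bdd (C := 2 * 1)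
    · apply S.cont_mul_E
      exact Real.continuous_arctan.comp (S.continuous_P' u _ continuous_const continuous_id)
    · exact bdd_mul (fun x => arctan_bdd _) (fun x => S.bdd u i x)
  · apply Continuous.aestronglyMeasurable
    exact (S.cont_mul_E (S.continuous_w u _ y) u i).smul (S.continuous_PL u _)
  · apply Filter.Eventually.of_forall
    intro x y' _
    rw [norm_smul, Real.norm_eq_abs, abs_mul]
    have h1 := S.w_bdd u (S.lv i) y' x
    have h2 := S.bdd u i x
    have h3 := S.norm_PL u (S.lv i) x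
    calc |S.w u (S.lv i) y' x| * |S.E u i x| * ‖S.PL u (S.lv i) x‖ ≤ 1 * 1 * Fintype.card I := by
          gcongr
      _ = Fintype.card I := by ring
  · exact integrable_const _
  · apply Filter.Eventually.of_forall
    intro x y' _
    have h1 : HasFDerivAt (fun y => S.P u (S.lv i) y x) (S.PL u (S.lv i) x) y' := by
      have := (S.PL u (S.lv i) x).hasFDerivAt (x := y')
      apply this.congr_of_eventuallyEq
      apply Filter.Eventually.of_forall
      intro z
      exact (S.PL_apply u (S.lv i) x z).symm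
    have h2 := (Real.hasDerivAt_arctan (S.P u (S.lv i) y' x)).comp_hasFDerivAt y' h1
    have h3 := h2.mul_const (S.E u i x)
    have h4 : (S.w u (S.lv i) y' x * S.E u i x) • S.PL u (S.lv i) x =
        S.E u i x • (1 / (1 + S.P u (S.lv i) y' x ^ 2)) • S.PL u (S.lv i) x := by
      rw [smul_smul, w, mul_comm]
    rw [h4]
    exact h3

theorem integrable_clm (u : Bool) (i : I) (y : I → ℝ) :
    Integrable (fun x => (S.w u (S.lv i) y x * S.E u i x) • S.PL u (S.lv i) x) (torusMeas d) := by
  have hc : Continuous (fun x => (S.w u (S.lv i) y x * S.E u i x) • S.PL u (S.lv i) x) :=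
    (S.cont_mul_E (S.continuous_w u _ y) u i).smul (S.continuous_PL u _)
  apply Integrable.of_bound hc.aestronglyMeasurable (Fintype.card I : ℝ)
  apply Filter.Eventually.of_forall
  intro x
  rw [norm_smul, Real.norm_eq_abs, abs_mul]
  have h1 := S.w_bdd u (S.lv i) y x
  have h2 := S.bdd u i x
  have h3 := S.norm_PL u (S.lv i) x
  calc |S.w u (S.lv i) y x| * |S.E u i x| * ‖S.PL u (S.lv i) x‖ ≤ 1 * 1 * Fintype.card I := by
        gcongr
    _ = Fintype.card I := by ring

theorem clm_apply (u : Bool) (i : I) (y v : I → ℝ) :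
    (∫ x, (S.w u (S.lv i) y x * S.E u i x) • S.PL u (S.lv i) x ∂(torusMeas d)) v
      = ∫ x, (S.w u (S.lv i) y x * S.P u (S.lv i) v x) * S.E u i x ∂(torusMeas d) := by
  rw [ContinuousLinearMap.integral_apply (S.integrable_clm u i y)]
  congr 1
  ext x
  rw [FunLike.coe_smul, Pi.smul_apply, PL_apply, smul_eq_mul]
  ring

theorem mulVec_M (y v : I → ℝ) (i : I) :
    (S.M y).mulVec v i =
      (∫ x, (S.w false (S.lv i) y x * S.P false (S.lv i) v x) * S.E false i x ∂(torusMeas d))
      + (∫ x, (S.w true (S.lv i) y x * S.P true (S.lv i) v x) * S.E true i x ∂(torusMeas d)) := by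
  have hint : ∀ u j, Integrable (fun x => S.w u (S.lv i) y x * (S.E u i x * S.E u j x))
      (torusMeas d) := by
    intro u j
    apply int_bdd (C := 1 * (1 * 1))
    · exact (S.continuous_w u _ y).mul ((S.cont u i).mul (S.cont u j))
    · exact bdd_mul (S.w_bdd u _ y) (bdd_mul (S.bdd u i) (S.bdd u j))
  have h1 : ∀ u, (∫ x, (S.w u (S.lv i) y x * S.P u (S.lv i) v x) * S.E u i x ∂(torusMeas d))
      = ∑ j, (if S.lv i = S.lv j then
        v j * ∫ x, S.w u (S.lv i) y x * (S.E u i x * S.E u j x) ∂(torusMeas d) else 0) := by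
    intro u
    have h2 : ∀ x, (S.w u (S.lv i) y x * S.P u (S.lv i) v x) * S.E u i x
        = ∑ j, (if S.lv i = S.lv j then v j * (S.w u (S.lv i) y x * (S.E u i x * S.E u j x))
          else 0) := by
      intro x
      rw [P, Finset.mul_sum, Finset.sum_mul]
      apply Finset.sum_congr rfl
      intro j _
      by_cases h : S.lv j = S.lv i
      · rw [if_pos h, if_pos h.symm]; ring
      · rw [if_neg h, if_neg (fun h' => h h'.symm)]; ring
    simp_rw [h2]
    rw [integral_finsetSum]
    · apply Finset.sum_congr rfl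
      intro j _
      split_ifs
      · rw [integral_const_mul]
      · simp
    · intro j _
      split_ifs
      · exact (hint u j).const_mul _
      · exact integrable_zero _ _ _
  rw [h1, h1, ← Finset.sum_add_distrib, Matrix.mulVec, dotProduct]
  apply Finset.sum_congr rfl
  intro j _
  rw [M]
  split_ifs
  · ring
  · ring

/-- The derivative of `F`. -/
noncomputable def DF (y : I → ℝ) : (I → ℝ) →L[ℝ] (I → ℝ) :=
  LinearMap.toContinuousLinearMap (Matrix.toLin' (S.M y))

theorem det_DF (y : I → ℝ) : (S.DF y).det = (S.M y).det := by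
  rw [DF, ContinuousLinearMap.det, LinearMap.coe_toContinuousLinearMap, LinearMap.det_toLin']

theorem hasFDerivAt_F (y : I → ℝ) : HasFDerivAt S.F (S.DF y) y := by
  rw [hasFDerivAt_pi']
  intro i
  have h := (S.hasFDerivAt_Phi false i y).add (S.hasFDerivAt_Phi true i y)
  have h2 : (ContinuousLinearMap.proj i).comp (S.DF y) =
      (∫ x, (S.w false (S.lv i) y x * S.E false i x) • S.PL false (S.lv i) x ∂(torusMeas d))
      + (∫ x, (S.w true (S.lv i) y x * S.E true i x) • S.PL true (S.lv i) x ∂(torusMeas d)) := by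
    ext v
    rw [add_apply, clm_apply, clm_apply, ← mulVec_M]
    rfl
  rw [h2]
  exact h

/-- Pairing formula. -/
theorem pair_sum (φ : Bool → ℤ → (Fin d → ℝ) → ℝ) (hφ : ∀ u a, Continuous (φ u a)) (C : ℝ)
    (hC : ∀ u a x, |φ u a x| ≤ C) (v : I → ℝ) :
    ∑ i, v i * ((∫ x, φ false (S.lv i) x * S.E false i x ∂(torusMeas d))
      + (∫ x, φ true (S.lv i) x * S.E true i x ∂(torusMeas d)))
    = ∑ a ∈ Finset.Icc (0:ℤ) S.n, ((∫ x, φ false a x * S.P false a v x ∂(torusMeas d))
      + (∫ x, φ true a x * S.P true a v x ∂(torusMeas d))) := by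
  rw [← S.sum_levels]
  apply Finset.sum_congr rfl
  intro a _
  have h1 : ∀ u, (∫ x, φ u a x * S.P u a v x ∂(torusMeas d))
      = ∑ i ∈ S.T a, v i * ∫ x, φ u a x * S.E u i x ∂(torusMeas d) := by
    intro u
    have h2 : ∀ x, φ u a x * S.P u a v x = ∑ i ∈ S.T a, v i * (φ u a x * S.E u i x) := by
      intro x
      rw [P_eq, Finset.mul_sum]
      apply Finset.sum_congr rfl; intro i _; ring
    simp_rw [h2]
    rw [integral_finsetSum]
    · apply Finset.sum_congr rfl; intro i _
      rw [integral_const_mul]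
    · intro i _
      apply Integrable.const_mul
      apply int_bdd (C := C * 1)
      · exact S.cont_mul_E (hφ u a) u i
      · exact bdd_mul (hC u a) (S.bdd u i)
  rw [h1, h1, ← Finset.sum_add_distrib]
  apply Finset.sum_congr rfl
  intro i hi
  rw [mem_T] at hi
  rw [hi]; ring

theorem M_symm (y : I → ℝ) : (S.M y).IsHermitian := by
  apply Matrix.IsHermitian.ext
  intro i j
  simp only [M, star_trivial]
  by_cases h : S.lv i = S.lv j
  · rw [if_pos h.symm, if_pos h, h]
    congr 1
    · congr 1; ext x; ring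
    · congr 1; ext x; ring
  · rw [if_neg h, if_neg (fun h' => h h'.symm)]

theorem quad_M (y v : I → ℝ) :
    ∑ i, v i * (S.M y).mulVec v i = ∑ a ∈ Finset.Icc (0:ℤ) S.n,
      ((∫ x, S.w false a y x * (S.P false a v x) ^ 2 ∂(torusMeas d))
      + (∫ x, S.w true a y x * (S.P true a v x) ^ 2 ∂(torusMeas d))) := by
  have h := S.pair_sum (fun u a x => S.w u a y x * S.P u a v x)
    (fun u a => (S.continuous_w u a y).mul (S.continuous_P' u a continuous_const continuous_id))
    (1 * ∑ i, |v i|) (fun u a x => bdd_mul (S.w_bdd u a y) (S.P_bound u a v) x) v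
  simp_rw [S.mulVec_M]
  rw [h]
  apply Finset.sum_congr rfl
  intro a _
  congr 1
  · congr 1; ext x; ring
  · congr 1; ext x; ring

theorem log_ineq (t l : ℝ) (hl : 0 < l) :
    - t ^ 2 ≤ Real.log l + (1 / (1 + t ^ 2)) / l - 1 := by
  have h1 : Real.log ((1 / (1 + t ^ 2)) / l) ≤ (1 / (1 + t ^ 2)) / l - 1 :=
    Real.log_le_sub_one_of_pos (by positivity)
  rw [Real.log_div (by positivity) hl.ne', one_div, Real.log_inv] at h1
  have h2 : Real.log (1 + t ^ 2) ≤ t ^ 2 := by
    have := Real.log_le_sub_one_of_pos (x := 1 + t ^ 2) (by positivity)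
    linarith
  rw [one_div]
  linarith

theorem norm_total (v : I → ℝ) : ∑ a ∈ Finset.Icc (0:ℤ) S.n,
      ((∫ x, (S.P false a v x) ^ 2 ∂(torusMeas d))
      + (∫ x, (S.P true a v x) ^ 2 ∂(torusMeas d))) = ∑ i, (v i) ^ 2 := by
  simp_rw [S.P_norm]
  exact S.sum_levels (fun i => (v i) ^ 2)

theorem continuous_Px (u : Bool) (a : ℤ) (v : I → ℝ) : Continuous (S.P u a v) :=
  S.continuous_P' u a continuous_const continuous_id

theorem det_lower (y : I → ℝ) :
    0 < (S.M y).det ∧ - (S.B * ∑ i, (y i) ^ 2) ≤ Real.log (S.M y).det := by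
  obtain ⟨l, b, hdet, hq, hn, hpars⟩ := eigen_data (S.M y) (S.M_symm y)
  set Y := ∑ i, |y i| with hY
  have hY0 : 0 ≤ Y := Finset.sum_nonneg fun _ _ => abs_nonneg _
  -- integrability facts
  have hb2 : ∀ u a (v : I → ℝ) x, |(S.P u a v x) ^ 2| ≤ (∑ i, |v i|) ^ 2 := by
    intro u a v x
    rw [abs_pow]
    exact pow_le_pow_left₀ (abs_nonneg _) (S.P_bound u a v x) 2
  have hint2 : ∀ u a (v : I → ℝ), Integrable (fun x => (S.P u a v x) ^ 2) (torusMeas d) := by
    intro u a v
    exact int_bdd ((S.continuous_Px u a v).pow 2) (hb2 u a v)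
  have hintw : ∀ u a (v : I → ℝ), Integrable (fun x => S.w u a y x * (S.P u a v x) ^ 2)
      (torusMeas d) := by
    intro u a v
    exact int_bdd ((S.continuous_w u a y).mul ((S.continuous_Px u a v).pow 2))
      (bdd_mul (S.w_bdd u a y) (hb2 u a v))
  have hint4 : ∀ u a (v : I → ℝ), Integrable (fun x => (S.P u a y x) ^ 2 * (S.P u a v x) ^ 2)
      (torusMeas d) := by
    intro u a v
    exact int_bdd (((S.continuous_Px u a y).pow 2).mul ((S.continuous_Px u a v).pow 2))
      (bdd_mul (hb2 u a y) (hb2 u a v))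
  -- positivity of eigenvalues
  have hl : ∀ m, 0 < l m := by
    intro m
    rw [← hq m, S.quad_M]
    have h1 : (1 / (1 + Y ^ 2)) * ∑ a ∈ Finset.Icc (0:ℤ) S.n,
        ((∫ x, (S.P false a (b m) x) ^ 2 ∂(torusMeas d))
        + (∫ x, (S.P true a (b m) x) ^ 2 ∂(torusMeas d)))
        ≤ ∑ a ∈ Finset.Icc (0:ℤ) S.n,
        ((∫ x, S.w false a y x * (S.P false a (b m) x) ^ 2 ∂(torusMeas d))
        + (∫ x, S.w true a y x * (S.P true a (b m) x) ^ 2 ∂(torusMeas d))) := by
      rw [Finset.mul_sum]
      apply Finset.sum_le_sum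
      intro a _
      have h2 : ∀ u, (1 / (1 + Y ^ 2)) * (∫ x, (S.P u a (b m) x) ^ 2 ∂(torusMeas d))
          ≤ ∫ x, S.w u a y x * (S.P u a (b m) x) ^ 2 ∂(torusMeas d) := by
        intro u
        rw [← integral_const_mul]
        apply integral_mono ((hint2 u a (b m)).const_mul _) (hintw u a (b m))
        intro x
        simp only
        apply mul_le_mul_of_nonneg_right _ (sq_nonneg _)
        unfold w
        apply one_div_le_one_div_of_le (by positivity)
        have := S.P_bound u a y x
        have h3 : (S.P u a y x) ^ 2 ≤ Y ^ 2 := by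
          rw [← sq_abs]
          exact pow_le_pow_left₀ (abs_nonneg _) this 2
        linarith
      rw [mul_add]
      exact add_le_add (h2 false) (h2 true)
    rw [S.norm_total, hn m, mul_one] at h1
    exact lt_of_lt_of_le (by positivity) h1
  -- the key inequality for each eigenvalue
  have hkey : ∀ m, - (∑ a ∈ Finset.Icc (0:ℤ) S.n,
      ((∫ x, (S.P false a y x) ^ 2 * (S.P false a (b m) x) ^ 2 ∂(torusMeas d))
      + (∫ x, (S.P true a y x) ^ 2 * (S.P true a (b m) x) ^ 2 ∂(torusMeas d))))
      ≤ Real.log (l m) := by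
    intro m
    have h1 : ∀ u a, - (∫ x, (S.P u a y x) ^ 2 * (S.P u a (b m) x) ^ 2 ∂(torusMeas d))
        ≤ (Real.log (l m) - 1) * (∫ x, (S.P u a (b m) x) ^ 2 ∂(torusMeas d))
          + (1 / l m) * (∫ x, S.w u a y x * (S.P u a (b m) x) ^ 2 ∂(torusMeas d)) := by
      intro u a
      rw [← integral_neg, ← integral_const_mul, ← integral_const_mul, ← integral_add
        ((hint2 u a (b m)).const_mul _) ((hintw u a (b m)).const_mul _)]
      apply integral_mono (hint4 u a (b m)).neg
        (((hint2 u a (b m)).const_mul _).add ((hintw u a (b m)).const_mul _))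
      intro x
      change -((S.P u a y x) ^ 2 * (S.P u a (b m) x) ^ 2)
        ≤ (Real.log (l m) - 1) * (S.P u a (b m) x) ^ 2
          + (1 / l m) * (S.w u a y x * (S.P u a (b m) x) ^ 2)
      have h2 := log_ineq (S.P u a y x) (l m) (hl m)
      have h3 : (1 / (1 + (S.P u a y x) ^ 2)) = S.w u a y x := rfl
      rw [h3] at h2
      have h4 := mul_le_mul_of_nonneg_right h2 (sq_nonneg (S.P u a (b m) x))
      calc -((S.P u a y x) ^ 2 * (S.P u a (b m) x) ^ 2)
          = -(S.P u a y x) ^ 2 * (S.P u a (b m) x) ^ 2 := by ring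
        _ ≤ (Real.log (l m) + S.w u a y x / l m - 1) * (S.P u a (b m) x) ^ 2 := h4
        _ = _ := by ring
    have h5 : - (∑ a ∈ Finset.Icc (0:ℤ) S.n,
      ((∫ x, (S.P false a y x) ^ 2 * (S.P false a (b m) x) ^ 2 ∂(torusMeas d))
      + (∫ x, (S.P true a y x) ^ 2 * (S.P true a (b m) x) ^ 2 ∂(torusMeas d))))
      ≤ (Real.log (l m) - 1) * ∑ a ∈ Finset.Icc (0:ℤ) S.n,
        ((∫ x, (S.P false a (b m) x) ^ 2 ∂(torusMeas d))
        + (∫ x, (S.P true a (b m) x) ^ 2 ∂(torusMeas d)))
        + (1 / l m) * ∑ a ∈ Finset.Icc (0:ℤ) S.n,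
        ((∫ x, S.w false a y x * (S.P false a (b m) x) ^ 2 ∂(torusMeas d))
        + (∫ x, S.w true a y x * (S.P true a (b m) x) ^ 2 ∂(torusMeas d))) := by
      rw [Finset.mul_sum, Finset.mul_sum, ← Finset.sum_add_distrib, ← Finset.sum_neg_distrib]
      apply Finset.sum_le_sum
      intro a _
      have h6 := h1 false a
      have h7 := h1 true a
      linarith
    rw [S.norm_total, hn m, ← S.quad_M, hq m] at h5
    have h8 : (1 / l m) * l m = 1 := by field_simp [(hl m).ne']
    rw [h8] at h5
    linarith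
  have hdetpos : 0 < (S.M y).det := by
    rw [hdet]; exact Finset.prod_pos (fun m _ => hl m)
  refine ⟨hdetpos, ?_⟩
  rw [hdet, Real.log_prod (fun m _ => (hl m).ne')]
  -- sum over eigenvalues
  have hsum : - (∑ a ∈ Finset.Icc (0:ℤ) S.n,
      ((∫ x, (S.P false a y x) ^ 2 * S.B ∂(torusMeas d))
      + (∫ x, (S.P true a y x) ^ 2 * S.B ∂(torusMeas d)))) ≤ ∑ m, Real.log (l m) := by
    refine le_trans ?_ (Finset.sum_le_sum (fun m _ => hkey m))
    rw [Finset.sum_neg_distrib]
    apply neg_le_neg
    rw [Finset.sum_comm]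
    apply Finset.sum_le_sum
    intro a _
    have h1 : ∀ u, ∑ m, (∫ x, (S.P u a y x) ^ 2 * (S.P u a (b m) x) ^ 2 ∂(torusMeas d))
        ≤ ∫ x, (S.P u a y x) ^ 2 * S.B ∂(torusMeas d) := by
      intro u
      rw [← integral_finsetSum _ (fun m _ => hint4 u a (b m))]
      apply integral_mono (integrable_finsetSum _ (fun m _ => hint4 u a (b m)))
        ((hint2 u a y).mul_const _)
      intro x
      simp only
      rw [← Finset.mul_sum]
      apply mul_le_mul_of_nonneg_left _ (sq_nonneg _)
      have h2 := hpars (fun i => if S.lv i = a then S.E u i x else 0)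
      have h3 : ∀ m, ∑ i, b m i * (if S.lv i = a then S.E u i x else 0) = S.P u a (b m) x := by
        intro m
        rw [P]
        apply Finset.sum_congr rfl
        intro i _
        split_ifs <;> ring
      simp_rw [h3] at h2
      rw [h2]
      refine le_trans (le_of_eq ?_) (S.sumsq u a x)
      apply Finset.sum_congr rfl
      intro i _
      split_ifs <;> ring
    rw [Finset.sum_add_distrib]
    exact add_le_add (h1 false) (h1 true)
  refine le_trans (le_of_eq ?_) hsum
  congr 1
  simp_rw [integral_mul_const]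
  rw [← S.norm_total, Finset.mul_sum]
  apply Finset.sum_congr rfl
  intro a _
  ring

theorem arctan_mono_quant {Y s t : ℝ} (hs : |s| ≤ Y) (ht : |t| ≤ Y) :
    (s - t) ^ 2 / (1 + Y ^ 2) ≤ (Real.arctan s - Real.arctan t) * (s - t) := by
  -- it suffices to treat t ≤ s
  have main : ∀ {s t : ℝ}, |s| ≤ Y → |t| ≤ Y → t ≤ s →
      (s - t) / (1 + Y ^ 2) ≤ Real.arctan s - Real.arctan t := by
    intro s t hs ht hst
    have hmono : MonotoneOn (fun z => Real.arctan z - z / (1 + Y ^ 2)) (Set.Icc (-Y) Y) := by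
      apply monotoneOn_of_deriv_nonneg (convex_Icc _ _)
      · exact (Real.continuous_arctan.sub (continuous_id.div_const _)).continuousOn
      · intro z _
        exact ((Real.differentiable_arctan z).sub
          (differentiableAt_id.div_const _)).differentiableWithinAt
      · intro z hz
        rw [interior_Icc] at hz
        have h1 : HasDerivAt (fun z => Real.arctan z - z / (1 + Y ^ 2))
            (1 / (1 + z ^ 2) - 1 / (1 + Y ^ 2)) z :=
          (Real.hasDerivAt_arctan z).sub ((hasDerivAt_id z).div_const _)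
        rw [h1.deriv, sub_nonneg]
        apply one_div_le_one_div_of_le (by positivity)
        have : z ^ 2 ≤ Y ^ 2 := by
          apply sq_le_sq'
          · exact hz.1.le
          · exact hz.2.le
        linarith
    have h2 := hmono (Set.mem_Icc.mpr (abs_le.mp ht)) (Set.mem_Icc.mpr (abs_le.mp hs)) hst
    simp only at h2
    have h3 : (s - t) / (1 + Y ^ 2) = s / (1 + Y ^ 2) - t / (1 + Y ^ 2) := by ring
    rw [h3]; linarith
  rcases le_total t s with h | h
  · have h1 := main hs ht h
    have h2 := mul_le_mul_of_nonneg_right h1 (sub_nonneg.mpr h)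
    calc (s - t) ^ 2 / (1 + Y ^ 2) = (s - t) / (1 + Y ^ 2) * (s - t) := by ring
      _ ≤ _ := h2
  · have h1 := main ht hs h
    have h2 := mul_le_mul_of_nonneg_right h1 (sub_nonneg.mpr h)
    calc (s - t) ^ 2 / (1 + Y ^ 2) = (t - s) / (1 + Y ^ 2) * (t - s) := by ring
      _ ≤ (Real.arctan t - Real.arctan s) * (t - s) := h2
      _ = _ := by ring

theorem injective_F : Function.Injective S.F := by
  intro y z hyz
  set Y := max (∑ i, |y i|) (∑ i, |z i|) with hY
  set v := y - z with hv
  have h := S.pair_sum (fun u a x => Real.arctan (S.P u a y x) - Real.arctan (S.P u a z x))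
    (fun u a => (Real.continuous_arctan.comp (S.continuous_Px u a y)).sub
      (Real.continuous_arctan.comp (S.continuous_Px u a z))) 4
    (fun u a x => by
      refine (abs_sub _ _).trans ?_
      have h1 := arctan_bdd (S.P u a y x)
      have h2 := arctan_bdd (S.P u a z x)
      linarith) v
  have hL : ∑ i, v i * ((∫ x, (Real.arctan (S.P false (S.lv i) y x)
        - Real.arctan (S.P false (S.lv i) z x)) * S.E false i x ∂(torusMeas d))
      + (∫ x, (Real.arctan (S.P true (S.lv i) y x)
        - Real.arctan (S.P true (S.lv i) z x)) * S.E true i x ∂(torusMeas d))) = 0 := by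
    apply Finset.sum_eq_zero
    intro i _
    have h1 : ∀ u, (∫ x, (Real.arctan (S.P u (S.lv i) y x)
        - Real.arctan (S.P u (S.lv i) z x)) * S.E u i x ∂(torusMeas d))
        = S.Phi u i y - S.Phi u i z := by
      intro u
      rw [Phi, Phi, ← integral_sub]
      · congr 1; ext x; ring
      · apply int_bdd (C := 2 * 1)
        · exact S.cont_mul_E (Real.continuous_arctan.comp (S.continuous_Px u _ y)) u i
        · exact bdd_mul (fun x => arctan_bdd _) (fun x => S.bdd u i x)
      · apply int_bdd (C := 2 * 1)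
        · exact S.cont_mul_E (Real.continuous_arctan.comp (S.continuous_Px u _ z)) u i
        · exact bdd_mul (fun x => arctan_bdd _) (fun x => S.bdd u i x)
    rw [h1, h1]
    have h2 : S.F y i = S.F z i := congrFun hyz i
    rw [F, F] at h2
    have h3 : S.Phi false i y - S.Phi false i z + (S.Phi true i y - S.Phi true i z) = 0 := by
      linarith
    rw [h3, mul_zero]
  rw [hL] at h
  -- lower bound
  have hlow : (1 / (1 + Y ^ 2)) * ∑ i, (v i) ^ 2 ≤ 0 := by
    rw [h, ← S.norm_total, Finset.mul_sum]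
    apply Finset.sum_le_sum
    intro a _
    have h2 : ∀ u, (1 / (1 + Y ^ 2)) * (∫ x, (S.P u a v x) ^ 2 ∂(torusMeas d))
        ≤ ∫ x, (Real.arctan (S.P u a y x) - Real.arctan (S.P u a z x)) * S.P u a v x
          ∂(torusMeas d) := by
      intro u
      rw [← integral_const_mul]
      apply integral_mono
      · apply Integrable.const_mul
        refine int_bdd ((S.continuous_Px u a v).pow 2) (C := (∑ i, |v i|) ^ 2) ?_
        intro x
        rw [abs_pow]
        exact pow_le_pow_left₀ (abs_nonneg _) (S.P_bound u a v x) 2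
      · apply int_bdd (C := 4 * ∑ i, |v i|)
        · exact ((Real.continuous_arctan.comp (S.continuous_Px u a y)).sub
            (Real.continuous_arctan.comp (S.continuous_Px u a z))).mul (S.continuous_Px u a v)
        · apply bdd_mul _ (S.P_bound u a v)
          intro x
          refine (abs_sub _ _).trans ?_
          have h1 := arctan_bdd (S.P u a y x)
          have h2 := arctan_bdd (S.P u a z x)
          linarith
      · intro x
        simp only
        have h3 := arctan_mono_quant (Y := Y) (s := S.P u a y x) (t := S.P u a z x)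
          ((S.P_bound u a y x).trans (le_max_left _ _))
          ((S.P_bound u a z x).trans (le_max_right _ _))
        have h4 : S.P u a v x = S.P u a y x - S.P u a z x := by rw [hv, S.P_sub]
        rw [h4]
        calc 1 / (1 + Y ^ 2) * (S.P u a y x - S.P u a z x) ^ 2
            = (S.P u a y x - S.P u a z x) ^ 2 / (1 + Y ^ 2) := by ring
          _ ≤ _ := h3
    rw [mul_add]
    exact add_le_add (h2 false) (h2 true)
  have hpos : 0 < 1 / (1 + Y ^ 2) := by positivity
  have hz : ∑ i, (v i) ^ 2 = 0 := by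
    have h1 : 0 ≤ ∑ i, (v i) ^ 2 := Finset.sum_nonneg fun _ _ => sq_nonneg _
    by_contra hne
    have h2 : 0 < ∑ i, (v i) ^ 2 := lt_of_le_of_ne h1 (Ne.symm hne)
    have := mul_pos hpos h2
    linarith
  rw [Finset.sum_eq_zero_iff_of_nonneg (fun _ _ => sq_nonneg _)] at hz
  ext i
  have h1 := hz i (Finset.mem_univ i)
  have h2 : v i = 0 := by simpa using h1
  rw [hv, Pi.sub_apply] at h2
  linarith

/-- Volume of the image of a measurable subset of the cube. -/
theorem volume_image (s : Set (I → ℝ)) (hs : MeasurableSet s) (hsub : s ⊆ cube I S.r) :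
    ENNReal.ofReal (Real.exp (-(Fintype.card I : ℝ))) * volume s ≤ volume (S.F '' s) := by
  rw [← lintegral_abs_det_fderiv_eq_addHaar_image volume hs
    (fun y _ => (S.hasFDerivAt_F y).hasFDerivWithinAt) (S.injective_F.injOn)]
  rw [← setLIntegral_const]
  apply setLIntegral_mono' hs
  intro y hy
  apply ENNReal.ofReal_le_ofReal
  rw [S.det_DF]
  obtain ⟨hpos, hlog⟩ := S.det_lower y
  rw [abs_of_pos hpos]
  rw [← Real.exp_log hpos]
  apply Real.exp_le_exp.mpr
  refine le_trans ?_ hlog
  apply neg_le_neg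
  have h1 : ∑ i, (y i) ^ 2 ≤ Fintype.card I * S.r ^ 2 := by
    have h2 : ∀ i ∈ Finset.univ, (y i) ^ 2 ≤ S.r ^ 2 := by
      intro i _
      have h3 := hsub hy
      rw [cube, Set.mem_univ_pi] at h3
      have h4 := h3 i
      exact sq_le_sq' h4.1 h4.2
    refine (Finset.sum_le_sum h2).trans (le_of_eq ?_)
    rw [Finset.sum_const, Finset.card_univ, nsmul_eq_mul]
  calc S.B * ∑ i, (y i) ^ 2 ≤ S.B * (Fintype.card I * S.r ^ 2) :=
        mul_le_mul_of_nonneg_left h1 S.B_pos.le
    _ = Fintype.card I * (S.B * S.r ^ 2) := by ring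
    _ = Fintype.card I := by rw [S.B_r_sq, mul_one]

end Sys

end HypLayer
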