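import Mathlib
import Pool.Agent.Work.MP_36752c_an.Jac

/-!
# Riesz products and the cross term estimate
-/

open MeasureTheory Finset

namespace HypLayer

theorem inv_lip (z a : ℝ) : |1 / (1 + z ^ 2) - 1 / (1 + a ^ 2)| ≤ |z - a| := by
  have h1 : 1 / (1 + z ^ 2) - 1 / (1 + a ^ 2) = (a - z) * (a + z) / ((1 + z ^ 2) * (1 + a ^ 2)) := by
    field_simp
    ring
  rw [h1, abs_div, abs_mul, abs_of_pos (a := (1 + z ^ 2) * (1 + a ^ 2)) (by positivity),
    div_le_iff₀ (by positivity), abs_sub_comm a z]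
  apply mul_le_mul_of_nonneg_left _ (abs_nonneg _)
  rw [abs_le]
  constructor <;> nlinarith [sq_nonneg (z - 1), sq_nonneg (a - 1), sq_nonneg (z + 1),
    sq_nonneg (a + 1), sq_nonneg (z * a)]

theorem arctan_taylor (a b : ℝ) :
    |Real.arctan b - Real.arctan a - (b - a) / (1 + a ^ 2)| ≤ (b - a) ^ 2 := by
  have hconv : Convex ℝ (Set.uIcc a b) := convex_uIcc a b
  have hder : ∀ z ∈ Set.uIcc a b, HasDerivWithinAt (fun z => Real.arctan z - z / (1 + a ^ 2))
      (1 / (1 + z ^ 2) - 1 / (1 + a ^ 2)) (Set.uIcc a b) z := by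
    intro z _
    exact ((Real.hasDerivAt_arctan z).sub ((hasDerivAt_id z).div_const _)).hasDerivWithinAt
  have hbound : ∀ z ∈ Set.uIcc a b, ‖1 / (1 + z ^ 2) - 1 / (1 + a ^ 2)‖ ≤ |b - a| := by
    intro z hz
    rw [Real.norm_eq_abs]
    refine (inv_lip z a).trans ?_
    exact Set.abs_sub_left_of_mem_uIcc hz
  have h := hconv.norm_image_sub_le_of_norm_hasDerivWithin_le hder hbound Set.left_mem_uIcc
    Set.right_mem_uIcc
  rw [Real.norm_eq_abs, Real.norm_eq_abs, ← sq, sq_abs] at h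
  convert h using 2
  ring

namespace Sys

variable {d : ℕ} {I : Type} [Fintype I] [DecidableEq I] (S : Sys d I)

/-- The bounded level components. -/
noncomputable def psi (u : Bool) (a : ℤ) (y : I → ℝ) (x : Fin d → ℝ) : ℝ :=
  (1 / 64) * Real.arctan (S.P u a y x)

theorem psi_bdd (u : Bool) (a : ℤ) (y : I → ℝ) (x : Fin d → ℝ) : |S.psi u a y x| ≤ 1 / 32 := by
  rw [psi, abs_mul]
  have := arctan_bdd (S.P u a y x)
  rw [abs_of_pos (by norm_num : (0:ℝ) < 1 / 64)]
  linarith

theorem psi_zero_of_empty (u : Bool) (a : ℤ) (ha : a < 0 ∨ (S.n : ℤ) < a) (y : I → ℝ)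
    (x : Fin d → ℝ) : S.psi u a y x = 0 := by
  rw [psi, S.P_zero_of_empty u a ha, Real.arctan_zero, mul_zero]

@[fun_prop]
theorem continuous_psi (u : Bool) (a : ℤ) :
    Continuous (fun z : (I → ℝ) × (Fin d → ℝ) => S.psi u a z.1 z.2) := by
  unfold psi
  exact continuous_const.mul (Real.continuous_arctan.comp (S.continuous_P u a))

theorem psi_flp_of_ne (u : Bool) (a : ℤ) (y : I → ℝ) (x : Fin d → ℝ) (U : Finset I)
    (hU : ∀ j ∈ U, S.lv j ≠ a) : S.psi u a (flp U y) x = S.psi u a y x := by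
  rw [psi, psi, S.P_flp_of_ne u a y x U hU]

theorem psi_flp_T (u : Bool) (a : ℤ) (y : I → ℝ) (x : Fin d → ℝ) :
    S.psi u a (flp (S.T a) y) x = - S.psi u a y x := by
  rw [psi, psi, S.P_flp_T u a y x, Real.arctan_neg]; ring

/-- Volume of the cube. -/
noncomputable def vol : ℝ := volume.real (cube I S.r)

theorem vol_nonneg : 0 ≤ S.vol := measureReal_nonneg

theorem setIntegral_const_cube (c : ℝ) : ∫ _y in cube I S.r, c = c * S.vol := by
  rw [setIntegral_const, smul_eq_mul, mul_comm]; rfl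

omit [DecidableEq I] in
/-- Continuity of parametric integrals. -/
theorem cont_int {f : (I → ℝ) → (Fin d → ℝ) → ℝ}
    (hf : Continuous (fun z : (I → ℝ) × (Fin d → ℝ) => f z.1 z.2)) {C : ℝ}
    (hC : ∀ y x, |f y x| ≤ C) : Continuous (fun y => ∫ x, f y x ∂(torusMeas d)) := by
  apply continuous_of_dominated (bound := fun _ => C)
  · intro y
    exact (hf.comp (continuous_const.prodMk continuous_id)).aestronglyMeasurable
  · intro y
    exact Filter.Eventually.of_forall (fun x => hC y x)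
  · exact integrable_const _
  · exact Filter.Eventually.of_forall (fun x => hf.comp (continuous_id.prodMk continuous_const))

theorem cont_E (u : Bool) (i : I) :
    Continuous (fun z : (I → ℝ) × (Fin d → ℝ) => S.E u i z.2) :=
  (S.cont u i).comp continuous_snd

/-- Constant in the cross term estimate. -/
noncomputable def K0 : ℝ := (1 / 64) ^ 2 * (2 * S.CI + 16)

theorem K0_nonneg : 0 ≤ S.K0 := by
  unfold K0; have := S.CI_nonneg; positivity

theorem r_sq_le (D : ℕ) (hD : D ≤ S.n) : S.r ^ 2 ≤ rho ^ D / ((S.n:ℝ) + 1) := by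
  have h1 := S.B_r_sq
  have h2 := S.B_ge
  have h3 : 0 < S.r ^ 2 := pow_pos S.r_pos 2
  have h4 : 2 ^ S.n * ((S.n:ℝ) + 1) * S.r ^ 2 ≤ 1 := by
    have := mul_le_mul_of_nonneg_right h2 h3.le
    linarith
  have h5 : (0:ℝ) < (S.n:ℝ) + 1 := by positivity
  rw [le_div_iff₀ h5]
  have h6 : (1/2 : ℝ) ^ S.n ≤ rho ^ D := by
    calc (1/2 : ℝ) ^ S.n ≤ rho ^ S.n := by
          apply pow_le_pow_left₀ (by norm_num)
          rw [rho_eq]; linarith [qq_gt_one]
      _ ≤ rho ^ D := pow_le_pow_of_le_one rho_pos.le rho_lt_one.le hD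
  refine le_trans ?_ h6
  have h7 : (0:ℝ) < 2 ^ S.n := by positivity
  rw [one_div, inv_pow, ← one_div, le_div_iff₀ h7]
  calc S.r ^ 2 * ((S.n:ℝ) + 1) * 2 ^ S.n = 2 ^ S.n * ((S.n:ℝ) + 1) * S.r ^ 2 := by ring
    _ ≤ 1 := h4

theorem cross_pointwise (u : Bool) (a b : ℤ) (hab : a ≠ b) (hdist : (a - b).natAbs ≤ S.n)
    (g : (I → ℝ) → (Fin d → ℝ) → ℝ)
    (hg : Continuous (fun z : (I → ℝ) × (Fin d → ℝ) => g z.1 z.2)) (G0 : ℝ)
    (hG0 : ∀ y x, |g y x| ≤ G0)
    (hinv : ∀ U : Finset I, U ⊆ S.T a → ∀ y x, g (flp U y) x = g y x)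
    (y : I → ℝ) (hy : y ∈ cube I S.r) :
    ∑ j ∈ S.T a, ∑ i ∈ S.T b,
      (((∫ x, g y x * S.psi u a y x * S.E u i x ∂(torusMeas d))
        - (∫ x, g (flp {j} y) x * S.psi u a (flp {j} y) x * S.E u i x ∂(torusMeas d))) / 2) ^ 2
      ≤ S.K0 * G0 ^ 2 * rho ^ (a - b).natAbs / ((S.n:ℝ) + 1) := by
  have hG00 : 0 ≤ G0 := (abs_nonneg _).trans (hG0 0 0)
  have hgy : Continuous (g y) := hg.comp (continuous_const.prodMk continuous_id)
  have hPy : Continuous (S.P u a y) := S.continuous_Px u a y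
  have hwy : Continuous (S.w u a y) := S.continuous_w u a y
  have hyr : ∀ j, |y j| ≤ S.r := by
    intro j
    rw [cube, Set.mem_univ_pi] at hy
    exact abs_le.mpr (hy j)
  -- the remainder
  set R : I → (Fin d → ℝ) → ℝ := fun j x =>
    (Real.arctan (S.P u a y x) - Real.arctan (S.P u a y x - 2 * y j * S.E u j x)) / 2
      - y j * S.E u j x * S.w u a y x with hR
  have hRc : ∀ j, Continuous (R j) := by
    intro j
    have h1 := Real.continuous_arctan.comp hPy
    have h2 := Real.continuous_arctan.comp (hPy.sub ((continuous_const (y := 2 * y j)).mul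
      (S.cont u j)))
    exact ((h1.sub h2).div_const 2).sub (((continuous_const (y := y j)).mul (S.cont u j)).mul hwy)
  have hRb : ∀ j x, |R j x| ≤ 2 * (y j) ^ 2 := by
    intro j x
    have h1 := arctan_taylor (S.P u a y x) (S.P u a y x - 2 * y j * S.E u j x)
    have h2 : R j x = -(Real.arctan (S.P u a y x - 2 * y j * S.E u j x) - Real.arctan (S.P u a y x)
        - (S.P u a y x - 2 * y j * S.E u j x - S.P u a y x) / (1 + (S.P u a y x) ^ 2)) / 2 := by
      simp only [hR, w]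
      ring
    rw [h2, abs_div, abs_neg]
    have h3 : (S.P u a y x - 2 * y j * S.E u j x - S.P u a y x) ^ 2 ≤ 4 * (y j) ^ 2 := by
      have h4 : (S.E u j x) ^ 2 ≤ 1 := by
        rw [← sq_abs]
        exact pow_le_one₀ (abs_nonneg _) (S.bdd u j x)
      have h5 : (S.P u a y x - 2 * y j * S.E u j x - S.P u a y x) ^ 2
          = 4 * (y j) ^ 2 * (S.E u j x) ^ 2 := by ring
      rw [h5]
      exact mul_le_of_le_one_right (by positivity) h4
    rw [abs_of_pos (by norm_num : (0:ℝ) < 2), div_le_iff₀ (by norm_num)]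
    linarith
  have hrsq : ∀ j, (y j) ^ 2 ≤ S.r ^ 2 := by
    intro j
    rw [← sq_abs]
    exact pow_le_pow_left₀ (abs_nonneg _) (hyr j) 2
  -- identity for the differences
  have hid : ∀ j ∈ S.T a, ∀ i,
      (((∫ x, g y x * S.psi u a y x * S.E u i x ∂(torusMeas d))
        - (∫ x, g (flp {j} y) x * S.psi u a (flp {j} y) x * S.E u i x ∂(torusMeas d))) / 2)
      = (1 / 64) * (y j * (∫ x, (g y x * S.w u a y x) * (S.E u j x * S.E u i x) ∂(torusMeas d))
        + (∫ x, (g y x * R j x) * S.E u i x ∂(torusMeas d))) := by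
    intro j hj i
    have hja : S.lv j = a := (S.mem_T a j).mp hj
    have hsub : ({j} : Finset I) ⊆ S.T a := by
      intro k hk; rw [Finset.mem_singleton] at hk; rw [hk]; exact hj
    have h1 : ∀ x, g (flp {j} y) x * S.psi u a (flp {j} y) x * S.E u i x
        = g y x * ((1 / 64) * Real.arctan (S.P u a y x - 2 * y j * S.E u j x)) * S.E u i x := by
      intro x
      rw [hinv {j} hsub, psi]
      have := S.P_flp_of_mem u y x j
      rw [hja] at this
      rw [this]
    simp_rw [h1]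
    have hc2 : Continuous (fun x => Real.arctan (S.P u a y x - 2 * y j * S.E u j x)) :=
      Real.continuous_arctan.comp (hPy.sub ((continuous_const (y := 2 * y j)).mul (S.cont u j)))
    rw [← integral_sub, ← integral_div, ← integral_const_mul, ← integral_add, ← integral_const_mul]
    · congr 1
      ext x
      simp only [psi, hR]
      ring
    · apply Integrable.const_mul
      exact int_bdd ((hgy.mul hwy).mul ((S.cont u j).mul (S.cont u i))) (C := (G0 * 1) * (1 * 1))
        (bdd_mul (bdd_mul (hG0 y) (S.w_bdd u a y)) (bdd_mul (S.bdd u j) (S.bdd u i)))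
    · exact int_bdd ((hgy.mul (hRc j)).mul (S.cont u i)) (C := (G0 * (2 * (y j) ^ 2)) * 1)
        (bdd_mul (bdd_mul (hG0 y) (hRb j)) (S.bdd u i))
    · exact int_bdd ((hgy.mul ((S.continuous_psi u a).comp
        (continuous_const.prodMk continuous_id))).mul (S.cont u i)) (C := (G0 * (1/32)) * 1)
        (bdd_mul (bdd_mul (hG0 y) (S.psi_bdd u a y)) (S.bdd u i))
    · exact int_bdd ((hgy.mul (continuous_const.mul hc2)).mul (S.cont u i))
        (C := (G0 * (1/64 * 2)) * 1)
        (bdd_mul (bdd_mul (hG0 y) (bdd_mul (C := 1/64) (fun x => by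
          rw [abs_of_pos (by norm_num : (0:ℝ) < 1/64)]) (fun x => arctan_bdd _))) (S.bdd u i))
  have hsq : ∀ j ∈ S.T a, ∀ i,
      (((∫ x, g y x * S.psi u a y x * S.E u i x ∂(torusMeas d))
        - (∫ x, g (flp {j} y) x * S.psi u a (flp {j} y) x * S.E u i x ∂(torusMeas d))) / 2) ^ 2
      ≤ (1 / 64) ^ 2 * (2 * (S.r ^ 2 *
          (∫ x, (g y x * S.w u a y x) * (S.E u j x * S.E u i x) ∂(torusMeas d)) ^ 2)
        + 2 * (∫ x, (g y x * R j x) * S.E u i x ∂(torusMeas d)) ^ 2) := by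
    intro j hj i
    rw [hid j hj i, mul_pow]
    apply mul_le_mul_of_nonneg_left _ (by positivity)
    set X1 := ∫ x, (g y x * S.w u a y x) * (S.E u j x * S.E u i x) ∂(torusMeas d)
    set X2 := ∫ x, (g y x * R j x) * S.E u i x ∂(torusMeas d)
    have h1 := hrsq j
    have h2 : (y j * X1) ^ 2 ≤ S.r ^ 2 * X1 ^ 2 := by
      rw [mul_pow]; exact mul_le_mul_of_nonneg_right h1 (sq_nonneg _)
    nlinarith [sq_nonneg (y j * X1 - X2)]
  -- sum over i for the remainder
  have hrem : ∀ j ∈ S.T a, ∑ i ∈ S.T b, (∫ x, (g y x * R j x) * S.E u i x ∂(torusMeas d)) ^ 2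
      ≤ G0 ^ 2 * (4 * S.r ^ 4) := by
    intro j _
    have h1 := S.bessel u (fun x => g y x * R j x) (G0 * (2 * (y j) ^ 2)) (hgy.mul (hRc j))
      (bdd_mul (hG0 y) (hRb j))
    have h2 : ∑ i ∈ S.T b, (∫ x, (g y x * R j x) * S.E u i x ∂(torusMeas d)) ^ 2
        ≤ ∑ i, (∫ x, (g y x * R j x) * S.E u i x ∂(torusMeas d)) ^ 2 :=
      Finset.sum_le_sum_of_subset_of_nonneg (Finset.subset_univ _) (fun _ _ _ => sq_nonneg _)
    refine h2.trans (h1.trans ?_)
    have h3 : ∫ x, (g y x * R j x) ^ 2 ∂(torusMeas d) ≤ ∫ _x, G0 ^ 2 * (4 * S.r ^ 4)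
        ∂(torusMeas d) := by
      apply integral_mono
      · apply int_bdd (C := (G0 * (2 * (y j) ^ 2)) ^ 2) ((hgy.mul (hRc j)).pow 2)
        intro x
        change |(g y x * R j x) ^ 2| ≤ _
        rw [abs_pow]
        exact pow_le_pow_left₀ (abs_nonneg _) (bdd_mul (hG0 y) (hRb j) x) 2
      · exact integrable_const _
      · intro x
        simp only
        have h4 : |g y x * R j x| ≤ G0 * (2 * S.r ^ 2) := by
          refine (bdd_mul (hG0 y) (hRb j) x).trans ?_
          apply mul_le_mul_of_nonneg_left _ hG00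
          linarith [hrsq j]
        calc (g y x * R j x) ^ 2 = |g y x * R j x| ^ 2 := (sq_abs _).symm
          _ ≤ (G0 * (2 * S.r ^ 2)) ^ 2 := pow_le_pow_left₀ (abs_nonneg _) h4 2
          _ = _ := by ring
    refine h3.trans (le_of_eq ?_)
    simp
  have hcross := S.cross u a b (fun x => g y x * S.w u a y x) (G0 * 1) hab (hgy.mul hwy)
    (bdd_mul (hG0 y) (S.w_bdd u a y))
  have hh : ∫ x, (g y x * S.w u a y x) ^ 2 ∂(torusMeas d) ≤ G0 ^ 2 := by
    have h3 : ∫ x, (g y x * S.w u a y x) ^ 2 ∂(torusMeas d) ≤ ∫ _x, G0 ^ 2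
        ∂(torusMeas d) := by
      apply integral_mono
      · apply int_bdd (C := (G0 * 1) ^ 2) ((hgy.mul hwy).pow 2)
        intro x
        change |(g y x * S.w u a y x) ^ 2| ≤ _
        rw [abs_pow]
        exact pow_le_pow_left₀ (abs_nonneg _) (bdd_mul (hG0 y) (S.w_bdd u a y) x) 2
      · exact integrable_const _
      · intro x
        simp only
        have h4 := bdd_mul (hG0 y) (S.w_bdd u a y) x
        calc (g y x * S.w u a y x) ^ 2 = |g y x * S.w u a y x| ^ 2 := (sq_abs _).symm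
          _ ≤ (G0 * 1) ^ 2 := pow_le_pow_left₀ (abs_nonneg _) h4 2
          _ = _ := by ring
    refine h3.trans (le_of_eq ?_)
    simp
  -- assemble
  have hrho : 0 ≤ rho ^ (a - b).natAbs := pow_nonneg rho_pos.le _
  have hn1 : (0:ℝ) < (S.n:ℝ) + 1 := by positivity
  have hB := S.B_pos
  have hcoef : 0 ≤ S.CI * S.B * rho ^ (a - b).natAbs / ((S.n:ℝ) + 1) := by
    have := S.CI_nonneg; positivity
  calc ∑ j ∈ S.T a, ∑ i ∈ S.T b,
      (((∫ x, g y x * S.psi u a y x * S.E u i x ∂(torusMeas d))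
        - (∫ x, g (flp {j} y) x * S.psi u a (flp {j} y) x * S.E u i x ∂(torusMeas d))) / 2) ^ 2
      ≤ ∑ j ∈ S.T a, ∑ i ∈ S.T b, (1 / 64) ^ 2 * (2 * (S.r ^ 2 *
          (∫ x, (g y x * S.w u a y x) * (S.E u j x * S.E u i x) ∂(torusMeas d)) ^ 2)
        + 2 * (∫ x, (g y x * R j x) * S.E u i x ∂(torusMeas d)) ^ 2) :=
        Finset.sum_le_sum (fun j hj => Finset.sum_le_sum (fun i _ => hsq j hj i))
    _ = (1 / 64) ^ 2 * (2 * (S.r ^ 2 * ∑ j ∈ S.T a, ∑ i ∈ S.T b,
          (∫ x, (g y x * S.w u a y x) * (S.E u j x * S.E u i x) ∂(torusMeas d)) ^ 2)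
        + 2 * ∑ j ∈ S.T a, ∑ i ∈ S.T b,
          (∫ x, (g y x * R j x) * S.E u i x ∂(torusMeas d)) ^ 2) := by
        simp only [Finset.mul_sum, Finset.sum_add_distrib, mul_add]
    _ ≤ (1 / 64) ^ 2 * (2 * (S.r ^ 2 * ((S.CI * S.B * rho ^ (a - b).natAbs / ((S.n:ℝ) + 1)) * G0 ^ 2))
        + 2 * ((2 * S.B) * (G0 ^ 2 * (4 * S.r ^ 4)))) := by
        apply mul_le_mul_of_nonneg_left _ (by positivity)
        apply add_le_add
        · apply mul_le_mul_of_nonneg_left _ (by norm_num)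
          apply mul_le_mul_of_nonneg_left _ (by positivity)
          exact hcross.trans (mul_le_mul_of_nonneg_left hh hcoef)
        · apply mul_le_mul_of_nonneg_left _ (by norm_num)
          refine (Finset.sum_le_sum hrem).trans ?_
          rw [Finset.sum_const, nsmul_eq_mul]
          apply mul_le_mul_of_nonneg_right (S.card_lv a)
          have := pow_nonneg S.r_pos.le 4
          positivity
    _ = (1 / 64) ^ 2 * (2 * ((S.B * S.r ^ 2) * (S.CI * rho ^ (a - b).natAbs / ((S.n:ℝ) + 1)) * G0 ^ 2)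
        + 16 * ((S.B * S.r ^ 2) * S.r ^ 2 * G0 ^ 2)) := by ring
    _ ≤ (1 / 64) ^ 2 * (2 * (1 * (S.CI * rho ^ (a - b).natAbs / ((S.n:ℝ) + 1)) * G0 ^ 2)
        + 16 * (1 * (rho ^ (a - b).natAbs / ((S.n:ℝ) + 1)) * G0 ^ 2)) := by
        rw [S.B_r_sq]
        apply mul_le_mul_of_nonneg_left _ (by positivity)
        have := S.r_sq_le _ hdist
        gcongr
    _ = _ := by rw [K0]; ring

theorem cross_term (u : Bool) (a b : ℤ) (hab : a ≠ b) (hdist : (a - b).natAbs ≤ S.n)
    (g : (I → ℝ) → (Fin d → ℝ) → ℝ)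
    (hg : Continuous (fun z : (I → ℝ) × (Fin d → ℝ) => g z.1 z.2)) (G0 : ℝ)
    (hG0 : ∀ y x, |g y x| ≤ G0)
    (hinv : ∀ U : Finset I, U ⊆ S.T a → ∀ y x, g (flp U y) x = g y x) :
    ∫ y in cube I S.r, ∑ i ∈ S.T b,
      (∫ x, g y x * S.psi u a y x * S.E u i x ∂(torusMeas d)) ^ 2
      ≤ S.K0 * G0 ^ 2 * rho ^ (a - b).natAbs / ((S.n:ℝ) + 1) * S.vol := by
  set Y : I → (I → ℝ) → ℝ := fun i y =>
    ∫ x, g y x * S.psi u a y x * S.E u i x ∂(torusMeas d) with hY
  have hYc : ∀ i, Continuous (Y i) := by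
    intro i
    apply cont_int (C := (G0 * (1/32)) * 1)
    · exact (hg.mul (S.continuous_psi u a)).mul (S.cont_E u i)
    · intro y
      exact bdd_mul (bdd_mul (hG0 y) (S.psi_bdd u a y)) (S.bdd u i)
  have hodd : ∀ i y, Y i (flp (S.T a) y) = - Y i y := by
    intro i y
    simp only [hY]
    rw [← integral_neg]
    congr 1
    ext x
    rw [hinv (S.T a) (Finset.Subset.refl _), S.psi_flp_T]
    ring
  calc ∫ y in cube I S.r, ∑ i ∈ S.T b, (Y i y) ^ 2
      = ∑ i ∈ S.T b, ∫ y in cube I S.r, (Y i y) ^ 2 := by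
        rw [integral_finsetSum]
        intro i _
        exact integrableOn_cube ((hYc i).pow 2) S.r
    _ ≤ ∑ i ∈ S.T b, ∑ j ∈ S.T a, ∫ y in cube I S.r, ((Y i y - Y i (flp {j} y)) / 2) ^ 2 :=
        Finset.sum_le_sum (fun i _ => efron_stein (S.T a) (hYc i) (hodd i) S.r)
    _ = ∫ y in cube I S.r, ∑ j ∈ S.T a, ∑ i ∈ S.T b, ((Y i y - Y i (flp {j} y)) / 2) ^ 2 := by
        have hc : ∀ i j, Continuous (fun y => ((Y i y - Y i (flp {j} y)) / 2) ^ 2) := by
          intro i j
          exact (((hYc i).sub ((hYc i).comp (continuous_flp {j}))).div_const 2).pow 2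
        rw [Finset.sum_comm, integral_finsetSum]
        · apply Finset.sum_congr rfl
          intro j _
          rw [integral_finsetSum]
          intro i _
          exact integrableOn_cube (hc i j) S.r
        · intro j _
          exact integrableOn_cube (continuous_finsetSum _ (fun i _ => hc i j)) S.r
    _ ≤ ∫ _y in cube I S.r, S.K0 * G0 ^ 2 * rho ^ (a - b).natAbs / ((S.n:ℝ) + 1) := by
        apply setIntegral_mono_on
        · apply integrableOn_cube
          apply continuous_finsetSum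
          intro j _
          apply continuous_finsetSum
          intro i _
          exact (((hYc i).sub ((hYc i).comp (continuous_flp {j}))).div_const 2).pow 2
        · exact integrableOn_cube continuous_const S.r
        · exact measurableSet_cube S.r
        · intro y hy
          exact S.cross_pointwise u a b hab hdist g hg G0 hG0 hinv y hy
    _ = _ := S.setIntegral_const_cube _

end Sys

end HypLayer
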