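import Mathlib
import Pool.Agent.Work.MP_36752c_an.Riesz

/-!
# Total error of the Riesz products
-/

open MeasureTheory Finset

namespace HypLayer

namespace Sys

variable {d : ℕ} {I : Type} [Fintype I] [DecidableEq I] (S : Sys d I)

/-- Windowed Riesz products, centred at level `b`. -/
noncomputable def GR (u : Bool) (b : ℤ) : ℕ → (I → ℝ) → (Fin d → ℝ) → ℝ
  | 0 => fun y x => 1 + S.psi u b y x
  | R + 1 => fun y x => GR u b R y x * (1 + S.psi u (b - (R + 1)) y x)
      * (1 + S.psi u (b + (R + 1)) y x)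

theorem GR_zero (u : Bool) (b : ℤ) (y : I → ℝ) (x : Fin d → ℝ) :
    S.GR u b 0 y x = 1 + S.psi u b y x := rfl

theorem GR_succ (u : Bool) (b : ℤ) (R : ℕ) (y : I → ℝ) (x : Fin d → ℝ) :
    S.GR u b (R + 1) y x = S.GR u b R y x * (1 + S.psi u (b - (R + 1)) y x)
      * (1 + S.psi u (b + (R + 1)) y x) := rfl

omit [Fintype I] [DecidableEq I] in
theorem cont_fix {f : (I → ℝ) → (Fin d → ℝ) → ℝ}
    (hf : Continuous (fun z : (I → ℝ) × (Fin d → ℝ) => f z.1 z.2)) (y : I → ℝ) :
    Continuous (f y) := hf.comp (continuous_const.prodMk continuous_id)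

omit [Fintype I] [DecidableEq I] in
theorem int_fix {f : (I → ℝ) → (Fin d → ℝ) → ℝ}
    (hf : Continuous (fun z : (I → ℝ) × (Fin d → ℝ) => f z.1 z.2)) (y : I → ℝ) {C : ℝ}
    (hC : ∀ x, |f y x| ≤ C) : Integrable (f y) (torusMeas d) :=
  integrable_of_cont' (cont_fix hf y) C hC

theorem continuous_one_psi (u : Bool) (a : ℤ) :
    Continuous (fun z : (I → ℝ) × (Fin d → ℝ) => 1 + S.psi u a z.1 z.2) :=
  continuous_const.add (S.continuous_psi u a)

theorem one_psi_bdd (u : Bool) (a : ℤ) (y : I → ℝ) (x : Fin d → ℝ) :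
    |1 + S.psi u a y x| ≤ 33 / 32 := by
  have h := abs_le.mp (S.psi_bdd u a y x)
  rw [abs_le]
  constructor <;> linarith

theorem one_psi_pos (u : Bool) (a : ℤ) (y : I → ℝ) (x : Fin d → ℝ) :
    0 < 1 + S.psi u a y x := by
  have h := abs_le.mp (S.psi_bdd u a y x)
  linarith

theorem continuous_GR (u : Bool) (b : ℤ) (R : ℕ) :
    Continuous (fun z : (I → ℝ) × (Fin d → ℝ) => S.GR u b R z.1 z.2) := by
  induction R with
  | zero => exact S.continuous_one_psi u b
  | succ R ih =>
    exact (ih.mul (S.continuous_one_psi u _)).mul (S.continuous_one_psi u _)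

theorem GR_bdd (u : Bool) (b : ℤ) (R : ℕ) (y : I → ℝ) (x : Fin d → ℝ) :
    |S.GR u b R y x| ≤ (33 / 32) ^ (2 * R + 1) := by
  induction R with
  | zero => simpa [GR_zero] using S.one_psi_bdd u b y x
  | succ R ih =>
    rw [GR_succ, abs_mul, abs_mul]
    have h1 := S.one_psi_bdd u (b - (R + 1)) y x
    have h2 := S.one_psi_bdd u (b + (R + 1)) y x
    calc |S.GR u b R y x| * |1 + S.psi u (b - (↑R + 1)) y x| * |1 + S.psi u (b + (↑R + 1)) y x|
        ≤ (33 / 32) ^ (2 * R + 1) * (33/32) * (33/32) := by gcongr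
      _ = (33 / 32) ^ (2 * (R + 1) + 1) := by ring

theorem GR_flp (u : Bool) (b : ℤ) (R : ℕ) (y : I → ℝ) (x : Fin d → ℝ) (a : ℤ) (U : Finset I)
    (hU : U ⊆ S.T a) (ha : a < b - R ∨ b + R < a) : S.GR u b R (flp U y) x = S.GR u b R y x := by
  have hne : ∀ a' : ℤ, a' ≠ a → S.psi u a' (flp U y) x = S.psi u a' y x := by
    intro a' ha'
    apply S.psi_flp_of_ne
    intro j hj h
    have := (S.mem_T a j).mp (hU hj)
    exact ha' (h.symm.trans this)
  induction R with
  | zero =>
    rw [GR_zero, GR_zero, hne b]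
    intro h; subst h
    simp at ha
  | succ R ih =>
    have h0 : a < b - (R:ℤ) ∨ b + (R:ℤ) < a := by
      push_cast at ha; omega
    rw [GR_succ, GR_succ, ih h0, hne (b - (R + 1)), hne (b + (R + 1))]
    · push_cast at ha; omega
    · push_cast at ha; omega

theorem GR_eq (u : Bool) (b : ℤ) (R : ℕ) (y : I → ℝ) (x : Fin d → ℝ) :
    S.GR u b R y x = ∏ a ∈ Finset.Icc (b - R) (b + R), (1 + S.psi u a y x) := by
  induction R with
  | zero => simp [GR_zero]
  | succ R ih =>
    have h1 : Finset.Icc (b - ((R + 1 : ℕ) : ℤ)) (b + ((R + 1 : ℕ) : ℤ))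
        = insert (b - (R + 1)) (insert (b + (R + 1)) (Finset.Icc (b - (R:ℤ)) (b + R))) := by
      ext z
      simp only [Finset.mem_Icc, Finset.mem_insert]
      push_cast
      omega
    rw [h1, Finset.prod_insert, Finset.prod_insert, ← ih, GR_succ]
    · ring
    · simp
    · simp only [Finset.mem_Icc, Finset.mem_insert]
      omega

/-- The full Riesz product. -/
noncomputable def G (u : Bool) (y : I → ℝ) (x : Fin d → ℝ) : ℝ :=
  ∏ a ∈ Finset.Icc (0:ℤ) S.n, (1 + S.psi u a y x)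

theorem G_pos (u : Bool) (y : I → ℝ) (x : Fin d → ℝ) : 0 < S.G u y x :=
  Finset.prod_pos (fun a _ => S.one_psi_pos u a y x)

theorem G_eq_GR (u : Bool) (b : ℤ) (hb0 : 0 ≤ b) (hbn : b ≤ S.n) (y : I → ℝ) (x : Fin d → ℝ) :
    S.G u y x = S.GR u b S.n y x := by
  rw [GR_eq, G]
  apply Finset.prod_subset
  · intro z
    simp only [Finset.mem_Icc]
    omega
  · intro z _ hz
    rw [Finset.mem_Icc] at hz
    rw [S.psi_zero_of_empty u z (by omega), add_zero]

theorem continuous_prod_psi (u : Bool) (A : Finset ℤ) :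
    Continuous (fun z : (I → ℝ) × (Fin d → ℝ) => ∏ a ∈ A, (1 + S.psi u a z.1 z.2)) := by
  apply continuous_finsetProd
  intro a _
  exact S.continuous_one_psi u a

theorem prod_psi_bdd (u : Bool) (A : Finset ℤ) (y : I → ℝ) (x : Fin d → ℝ) :
    |∏ a ∈ A, (1 + S.psi u a y x)| ≤ (33 / 32) ^ A.card := by
  rw [Finset.abs_prod]
  calc ∏ a ∈ A, |1 + S.psi u a y x| ≤ ∏ _a ∈ A, (33 / 32 : ℝ) :=
        Finset.prod_le_prod (fun _ _ => abs_nonneg _) (fun a _ => S.one_psi_bdd u a y x)
    _ = _ := by rw [Finset.prod_const]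

theorem continuous_G (u : Bool) :
    Continuous (fun z : (I → ℝ) × (Fin d → ℝ) => S.G u z.1 z.2) :=
  S.continuous_prod_psi u _

/-- The mean over the cube of the integral of the Riesz product is one. -/
theorem mean_G (u : Bool) : ∫ y in cube I S.r, (∫ x, S.G u y x ∂(torusMeas d)) = S.vol := by
  have key : ∀ A : Finset ℤ, ∫ y in cube I S.r,
      (∫ x, ∏ a ∈ A, (1 + S.psi u a y x) ∂(torusMeas d)) = S.vol := by
    intro A
    induction A using Finset.induction_on with
    | empty =>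
      simp only [Finset.prod_empty, integral_const, probReal_univ, smul_eq_mul, mul_one]
      have := S.setIntegral_const_cube 1
      rw [one_mul] at this
      simpa using this
    | insert a A ha ih =>
      have hcA := S.continuous_prod_psi u A
      have hcont1 : Continuous (fun y => ∫ x, ∏ a ∈ A, (1 + S.psi u a y x) ∂(torusMeas d)) :=
        cont_int hcA (S.prod_psi_bdd u A)
      have hb2 : ∀ y x, |S.psi u a y x * ∏ a ∈ A, (1 + S.psi u a y x)|
          ≤ (1/32) * (33/32)^A.card := by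
        intro y
        exact bdd_mul (S.psi_bdd u a y) (S.prod_psi_bdd u A y)
      have hc2 : Continuous (fun z : (I → ℝ) × (Fin d → ℝ) =>
          S.psi u a z.1 z.2 * ∏ a ∈ A, (1 + S.psi u a z.1 z.2)) :=
        (S.continuous_psi u a).mul hcA
      have hcont2 : Continuous (fun y => ∫ x, S.psi u a y x * ∏ a ∈ A, (1 + S.psi u a y x)
          ∂(torusMeas d)) := cont_int hc2 hb2
      have h1 : ∀ y, (∫ x, ∏ a' ∈ insert a A, (1 + S.psi u a' y x) ∂(torusMeas d))
          = (∫ x, ∏ a ∈ A, (1 + S.psi u a y x) ∂(torusMeas d))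
          + (∫ x, S.psi u a y x * ∏ a ∈ A, (1 + S.psi u a y x) ∂(torusMeas d)) := by
        intro y
        rw [← integral_add]
        · congr 1; ext x
          rw [Finset.prod_insert ha]; ring
        · exact int_fix (f := fun y x => ∏ a ∈ A, (1 + S.psi u a y x)) hcA y
            (S.prod_psi_bdd u A y)
        · exact int_fix (f := fun y x => S.psi u a y x * ∏ a ∈ A, (1 + S.psi u a y x)) hc2 y
            (hb2 y)
      simp_rw [h1]
      rw [integral_add, ih]
      · have hodd : ∀ y, (∫ x, S.psi u a (flp (S.T a) y) x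
            * ∏ a' ∈ A, (1 + S.psi u a' (flp (S.T a) y) x) ∂(torusMeas d))
            = - (∫ x, S.psi u a y x * ∏ a' ∈ A, (1 + S.psi u a' y x) ∂(torusMeas d)) := by
          intro y
          rw [← integral_neg]
          congr 1; ext x
          rw [S.psi_flp_T]
          have : ∏ a' ∈ A, (1 + S.psi u a' (flp (S.T a) y) x)
              = ∏ a' ∈ A, (1 + S.psi u a' y x) := by
            apply Finset.prod_congr rfl
            intro a' ha'
            rw [S.psi_flp_of_ne u a']
            intro j hj h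
            have h2 := (S.mem_T a j).mp hj
            rw [← h2, h] at ha
            exact ha ha'
          rw [this]; ring
        have := integral_odd (S.T a) (Y := fun y => ∫ x, S.psi u a y x
          * ∏ a' ∈ A, (1 + S.psi u a' y x) ∂(torusMeas d)) hodd S.r
        rw [this, add_zero]
      · exact integrableOn_cube hcont1 S.r
      · exact integrableOn_cube hcont2 S.r
  exact key _

/-- The error functionals. -/
noncomputable def Err (u : Bool) (i : I) (y : I → ℝ) : ℝ :=
  (∫ x, S.G u y x * S.E u i x ∂(torusMeas d))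
    - (∫ x, S.psi u (S.lv i) y x * S.E u i x ∂(torusMeas d))

/-- lower step term. -/
noncomputable def Xm (u : Bool) (b : ℤ) (R : ℕ) (i : I) (y : I → ℝ) : ℝ :=
  ∫ x, S.GR u b R y x * S.psi u (b - (R + 1)) y x * S.E u i x ∂(torusMeas d)

/-- upper step term. -/
noncomputable def Xp (u : Bool) (b : ℤ) (R : ℕ) (i : I) (y : I → ℝ) : ℝ :=
  ∫ x, (S.GR u b R y x * (1 + S.psi u (b - (R + 1)) y x)) * S.psi u (b + (R + 1)) y x
    * S.E u i x ∂(torusMeas d)

theorem continuous_Xm (u : Bool) (b : ℤ) (R : ℕ) (i : I) : Continuous (S.Xm u b R i) := by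
  apply cont_int (C := ((33 / 32) ^ (2 * R + 1) * (1/32)) * 1)
  · exact ((S.continuous_GR u b R).mul (S.continuous_psi u _)).mul (S.cont_E u i)
  · intro y
    exact bdd_mul (bdd_mul (S.GR_bdd u b R y) (S.psi_bdd u _ y)) (S.bdd u i)

theorem continuous_Xp (u : Bool) (b : ℤ) (R : ℕ) (i : I) : Continuous (S.Xp u b R i) := by
  apply cont_int (C := (((33 / 32) ^ (2 * R + 1) * (33/32)) * (1/32)) * 1)
  · exact (((S.continuous_GR u b R).mul (S.continuous_one_psi u _)).mul
      (S.continuous_psi u _)).mul (S.cont_E u i)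
  · intro y
    exact bdd_mul (bdd_mul (bdd_mul (S.GR_bdd u b R y) (S.one_psi_bdd u _ y))
      (S.psi_bdd u _ y)) (S.bdd u i)

theorem telescope (u : Bool) (b : ℤ) (i : I) (y : I → ℝ) (N : ℕ) :
    (∫ x, S.GR u b N y x * S.E u i x ∂(torusMeas d))
      = (∫ x, S.GR u b 0 y x * S.E u i x ∂(torusMeas d))
        + ∑ R ∈ range N, (S.Xm u b R i y + S.Xp u b R i y) := by
  induction N with
  | zero => simp
  | succ N ih =>
    have i1 : Integrable (fun x => S.GR u b N y x * S.E u i x) (torusMeas d) :=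
      int_fix (f := fun y x => S.GR u b N y x * S.E u i x)
        ((S.continuous_GR u b N).mul (S.cont_E u i)) y
        (bdd_mul (S.GR_bdd u b N y) (S.bdd u i))
    have i2 : Integrable (fun x => S.GR u b N y x * S.psi u (b - (N + 1)) y x * S.E u i x)
        (torusMeas d) :=
      int_fix (f := fun y x => S.GR u b N y x * S.psi u (b - (N + 1)) y x * S.E u i x)
        (((S.continuous_GR u b N).mul (S.continuous_psi u _)).mul (S.cont_E u i)) y
        (bdd_mul (bdd_mul (S.GR_bdd u b N y) (S.psi_bdd u _ y)) (S.bdd u i))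
    have i3 : Integrable (fun x => (S.GR u b N y x * (1 + S.psi u (b - (N + 1)) y x))
        * S.psi u (b + (N + 1)) y x * S.E u i x) (torusMeas d) :=
      int_fix (f := fun y x => (S.GR u b N y x * (1 + S.psi u (b - (N + 1)) y x))
        * S.psi u (b + (N + 1)) y x * S.E u i x)
        ((((S.continuous_GR u b N).mul (S.continuous_one_psi u _)).mul
          (S.continuous_psi u _)).mul (S.cont_E u i)) y
        (bdd_mul (bdd_mul (bdd_mul (S.GR_bdd u b N y) (S.one_psi_bdd u _ y))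
          (S.psi_bdd u _ y)) (S.bdd u i))
    have i4 : Integrable (fun x => S.GR u b N y x * S.psi u (b - (N + 1)) y x * S.E u i x
        + (S.GR u b N y x * (1 + S.psi u (b - (N + 1)) y x))
        * S.psi u (b + (N + 1)) y x * S.E u i x) (torusMeas d) := i2.add i3
    rw [Finset.sum_range_succ, ← add_assoc, ← ih, Xm, Xp, ← integral_add i2 i3,
      ← integral_add i1 i4]
    congr 1; ext x
    rw [GR_succ]; ring

theorem Err_eq (u : Bool) (i : I) (y : I → ℝ) :
    S.Err u i y = ∑ R ∈ range S.n, (S.Xm u (S.lv i) R i y + S.Xp u (S.lv i) R i y) := by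
  have h1 : (∫ x, S.G u y x * S.E u i x ∂(torusMeas d))
      = ∫ x, S.GR u (S.lv i) S.n y x * S.E u i x ∂(torusMeas d) := by
    congr 1; ext x
    rw [S.G_eq_GR u (S.lv i) (S.lv_nonneg i) (S.lv_le i)]
  have h2 : (∫ x, S.GR u (S.lv i) 0 y x * S.E u i x ∂(torusMeas d))
      = (∫ x, S.psi u (S.lv i) y x * S.E u i x ∂(torusMeas d)) := by
    have h3 : ∀ x, S.GR u (S.lv i) 0 y x * S.E u i x
        = S.E u i x + S.psi u (S.lv i) y x * S.E u i x := by
      intro x; rw [GR_zero]; ring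
    simp_rw [h3]
    rw [integral_add, S.mean, zero_add]
    · exact int_bdd (S.cont u i) (S.bdd u i)
    · exact int_fix (f := fun y x => S.psi u (S.lv i) y x * S.E u i x)
        ((S.continuous_psi u _).mul (S.cont_E u i)) y
        (bdd_mul (S.psi_bdd u _ y) (S.bdd u i))
  rw [Err, h1, S.telescope, h2]
  ring

theorem rho_pow_bound (R : ℕ) : (33 / 32 : ℝ) ^ (4 * (R + 1)) * rho ^ (R + 1) ≤ 0.81 ^ (R + 1) := by
  rw [pow_mul, ← mul_pow]
  apply pow_le_pow_left₀
  · have := rho_pos; positivity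
  · have h := rho_lt
    have h2 : (33/32:ℝ)^4 ≤ 1.1310 := by norm_num
    have h3 := rho_pos
    nlinarith

theorem Xm_bound (u : Bool) (b : ℤ) (R : ℕ) (hR : R < S.n) :
    ∫ y in cube I S.r, ∑ i ∈ S.T b, (S.Xm u b R i y) ^ 2
      ≤ S.K0 * 0.81 ^ (R + 1) / ((S.n:ℝ) + 1) * S.vol := by
  have hdist : ((b - (R + 1)) - b).natAbs = R + 1 := by omega
  have h := S.cross_term u (b - (R + 1)) b (by omega) (by rw [hdist]; omega)
    (S.GR u b R) (S.continuous_GR u b R) ((33 / 32) ^ (2 * R + 1)) (S.GR_bdd u b R)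
    (by
      intro U hU y x
      exact S.GR_flp u b R y x _ U hU (by omega))
  rw [hdist] at h
  refine h.trans ?_
  apply mul_le_mul_of_nonneg_right _ S.vol_nonneg
  apply div_le_div_of_nonneg_right _ (by positivity)
  rw [mul_assoc]
  apply mul_le_mul_of_nonneg_left _ S.K0_nonneg
  refine le_trans ?_ (rho_pow_bound R)
  apply mul_le_mul_of_nonneg_right _ (pow_nonneg rho_pos.le _)
  rw [← pow_mul]
  apply pow_le_pow_right₀ (by norm_num)
  omega

theorem Xp_bound (u : Bool) (b : ℤ) (R : ℕ) (hR : R < S.n) :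
    ∫ y in cube I S.r, ∑ i ∈ S.T b, (S.Xp u b R i y) ^ 2
      ≤ S.K0 * 0.81 ^ (R + 1) / ((S.n:ℝ) + 1) * S.vol := by
  have hdist : ((b + (R + 1)) - b).natAbs = R + 1 := by omega
  have h := S.cross_term u (b + (R + 1)) b (by omega) (by rw [hdist]; omega)
    (fun y x => S.GR u b R y x * (1 + S.psi u (b - (R + 1)) y x))
    ((S.continuous_GR u b R).mul (S.continuous_one_psi u _)) ((33 / 32) ^ (2 * R + 1) * (33/32))
    (fun y => bdd_mul (S.GR_bdd u b R y) (S.one_psi_bdd u _ y))
    (by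
      intro U hU y x
      rw [S.GR_flp u b R y x _ U hU (by omega), S.psi_flp_of_ne]
      intro j hj h
      have := (S.mem_T _ j).mp (hU hj)
      omega)
  rw [hdist] at h
  refine h.trans ?_
  apply mul_le_mul_of_nonneg_right _ S.vol_nonneg
  apply div_le_div_of_nonneg_right _ (by positivity)
  rw [mul_assoc]
  apply mul_le_mul_of_nonneg_left _ S.K0_nonneg
  refine le_trans ?_ (rho_pow_bound R)
  apply mul_le_mul_of_nonneg_right _ (pow_nonneg rho_pos.le _)
  rw [← pow_succ, ← pow_mul]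
  apply pow_le_pow_right₀ (by norm_num)
  omega

theorem sum_09 (N : ℕ) : ∑ R ∈ range N, (0.9 : ℝ) ^ (R + 1) ≤ 9 := by
  have h := geom_sum_le (0.9 : ℝ) (by norm_num) (by norm_num) N
  have h2 : ∑ R ∈ range N, (0.9 : ℝ) ^ (R + 1) = 0.9 * ∑ R ∈ range N, (0.9 : ℝ) ^ R := by
    rw [Finset.mul_sum]
    apply Finset.sum_congr rfl; intro R _; ring
  rw [h2]
  have h3 : (1:ℝ) / (1 - 0.9) = 10 := by norm_num
  rw [h3] at h
  linarith

/-- Weighted Cauchy-Schwarz. -/
theorem weighted_cs (N : ℕ) (X Y : ℕ → ℝ) :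
    (∑ R ∈ range N, (X R + Y R)) ^ 2
      ≤ 18 * ∑ R ∈ range N, ((X R) ^ 2 + (Y R) ^ 2) / 0.9 ^ (R + 1) := by
  have h1 : (∑ R ∈ range N, (X R + Y R)) ^ 2 ≤
      (∑ R ∈ range N, (0.9 : ℝ) ^ (R + 1)) * ∑ R ∈ range N, (X R + Y R) ^ 2 / 0.9 ^ (R + 1) := by
    apply Finset.sum_sq_le_sum_mul_sum_of_sq_le_mul
    · intro R _; positivity
    · intro R _; positivity
    · intro R _
      apply le_of_eq
      have : (0:ℝ) < 0.9 ^ (R + 1) := by positivity
      field_simp
  have h2 : ∑ R ∈ range N, (X R + Y R) ^ 2 / (0.9:ℝ) ^ (R + 1)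
      ≤ 2 * ∑ R ∈ range N, ((X R) ^ 2 + (Y R) ^ 2) / 0.9 ^ (R + 1) := by
    rw [Finset.mul_sum]
    apply Finset.sum_le_sum
    intro R _
    have h3 : (0:ℝ) < 0.9 ^ (R + 1) := by positivity
    rw [mul_div_assoc']
    apply div_le_div_of_nonneg_right _ h3.le
    nlinarith [sq_nonneg (X R - Y R)]
  have h4 : 0 ≤ ∑ R ∈ range N, ((X R) ^ 2 + (Y R) ^ 2) / (0.9:ℝ) ^ (R + 1) :=
    Finset.sum_nonneg (fun R _ => by positivity)
  calc (∑ R ∈ range N, (X R + Y R)) ^ 2
      ≤ (∑ R ∈ range N, (0.9 : ℝ) ^ (R + 1)) * ∑ R ∈ range N, (X R + Y R) ^ 2 / 0.9 ^ (R + 1) := h1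
    _ ≤ 9 * (2 * ∑ R ∈ range N, ((X R) ^ 2 + (Y R) ^ 2) / 0.9 ^ (R + 1)) := by
        apply mul_le_mul (sum_09 N) h2
        · apply Finset.sum_nonneg; intro R _; positivity
        · norm_num
    _ = _ := by ring

theorem continuous_Err (u : Bool) (i : I) : Continuous (S.Err u i) := by
  have : S.Err u i = fun y => ∑ R ∈ range S.n, (S.Xm u (S.lv i) R i y + S.Xp u (S.lv i) R i y) := by
    ext y; exact S.Err_eq u i y
  rw [this]
  apply continuous_finsetSum
  intro R _
  exact (S.continuous_Xm u _ R i).add (S.continuous_Xp u _ R i)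

theorem level_error (u : Bool) (b : ℤ) :
    ∫ y in cube I S.r, ∑ i ∈ S.T b, (S.Err u i y) ^ 2
      ≤ 324 * S.K0 / ((S.n:ℝ) + 1) * S.vol := by
  have hpt : ∀ y, ∑ i ∈ S.T b, (S.Err u i y) ^ 2 ≤ 18 * ∑ R ∈ range S.n,
      ((∑ i ∈ S.T b, (S.Xm u b R i y) ^ 2) + (∑ i ∈ S.T b, (S.Xp u b R i y) ^ 2))
        / 0.9 ^ (R + 1) := by
    intro y
    have h1 : ∀ i ∈ S.T b, (S.Err u i y) ^ 2 ≤ 18 * ∑ R ∈ range S.n,
        ((S.Xm u b R i y) ^ 2 + (S.Xp u b R i y) ^ 2) / 0.9 ^ (R + 1) := by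
      intro i hi
      rw [S.Err_eq, (S.mem_T b i).mp hi]
      exact weighted_cs S.n (fun R => S.Xm u b R i y) (fun R => S.Xp u b R i y)
    refine (Finset.sum_le_sum h1).trans (le_of_eq ?_)
    rw [← Finset.mul_sum, Finset.sum_comm]
    congr 1
    apply Finset.sum_congr rfl
    intro R _
    rw [← Finset.sum_add_distrib, Finset.sum_div]
  have hcm : ∀ R, Continuous (fun y => ∑ i ∈ S.T b, (S.Xm u b R i y) ^ 2) := fun R =>
    continuous_finsetSum _ (fun i _ => (S.continuous_Xm u b R i).pow 2)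
  have hcp : ∀ R, Continuous (fun y => ∑ i ∈ S.T b, (S.Xp u b R i y) ^ 2) := fun R =>
    continuous_finsetSum _ (fun i _ => (S.continuous_Xp u b R i).pow 2)
  have hcR : ∀ R : ℕ, Continuous (fun y => ((∑ i ∈ S.T b, (S.Xm u b R i y) ^ 2)
      + (∑ i ∈ S.T b, (S.Xp u b R i y) ^ 2)) / (0.9:ℝ) ^ (R + 1)) := fun R =>
    ((hcm R).add (hcp R)).div_const _
  have hn1 : (0:ℝ) < (S.n:ℝ) + 1 := by positivity
  calc ∫ y in cube I S.r, ∑ i ∈ S.T b, (S.Err u i y) ^ 2
      ≤ ∫ y in cube I S.r, 18 * ∑ R ∈ range S.n,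
        ((∑ i ∈ S.T b, (S.Xm u b R i y) ^ 2) + (∑ i ∈ S.T b, (S.Xp u b R i y) ^ 2))
          / 0.9 ^ (R + 1) := by
        apply integral_mono
        · exact integrableOn_cube (continuous_finsetSum _
            (fun i _ => (S.continuous_Err u i).pow 2)) S.r
        · exact integrableOn_cube (continuous_const.mul (continuous_finsetSum _
            (fun R _ => hcR R))) S.r
        · intro y; exact hpt y
    _ = 18 * ∑ R ∈ range S.n, ((∫ y in cube I S.r, ∑ i ∈ S.T b, (S.Xm u b R i y) ^ 2)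
          + (∫ y in cube I S.r, ∑ i ∈ S.T b, (S.Xp u b R i y) ^ 2)) / 0.9 ^ (R + 1) := by
        rw [integral_const_mul, integral_finsetSum]
        · congr 1
          apply Finset.sum_congr rfl
          intro R _
          rw [integral_div, integral_add]
          · exact integrableOn_cube (hcm R) S.r
          · exact integrableOn_cube (hcp R) S.r
        · intro R _
          exact integrableOn_cube (hcR R) S.r
    _ ≤ 18 * ∑ R ∈ range S.n, (2 * (S.K0 * 0.81 ^ (R + 1) / ((S.n:ℝ) + 1) * S.vol))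
          / 0.9 ^ (R + 1) := by
        apply mul_le_mul_of_nonneg_left _ (by norm_num)
        apply Finset.sum_le_sum
        intro R hR
        rw [Finset.mem_range] at hR
        apply div_le_div_of_nonneg_right _ (by positivity)
        have h1 := S.Xm_bound u b R hR
        have h2 := S.Xp_bound u b R hR
        linarith
    _ = (36 * S.K0 / ((S.n:ℝ) + 1) * S.vol) * ∑ R ∈ range S.n, (0.9:ℝ) ^ (R + 1) := by
        rw [Finset.mul_sum, Finset.mul_sum]
        apply Finset.sum_congr rfl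
        intro R _
        have h1 : (0.81:ℝ) ^ (R + 1) = 0.9 ^ (R + 1) * 0.9 ^ (R + 1) := by
          rw [← mul_pow]; norm_num
        rw [h1]
        have h2 : (0:ℝ) < 0.9 ^ (R + 1) := by positivity
        field_simp
        ring
    _ ≤ (36 * S.K0 / ((S.n:ℝ) + 1) * S.vol) * 9 := by
        apply mul_le_mul_of_nonneg_left (sum_09 _)
        have := S.K0_nonneg
        have := S.vol_nonneg
        positivity
    _ = _ := by ring

theorem total_error (u : Bool) :
    ∫ y in cube I S.r, ∑ i, (S.Err u i y) ^ 2 ≤ 324 * S.K0 * S.vol := by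
  have h1 : ∀ y, ∑ i, (S.Err u i y) ^ 2
      = ∑ a ∈ Finset.Icc (0:ℤ) S.n, ∑ i ∈ S.T a, (S.Err u i y) ^ 2 := fun y =>
    (S.sum_levels (fun i => (S.Err u i y) ^ 2)).symm
  simp_rw [h1]
  rw [integral_finsetSum]
  · refine (Finset.sum_le_sum (fun a _ => S.level_error u a)).trans (le_of_eq ?_)
    rw [Finset.sum_const, Int.card_Icc, nsmul_eq_mul]
    have h2 : (((S.n:ℤ) + 1 - 0).toNat : ℝ) = (S.n:ℝ) + 1 := by
      have : ((S.n:ℤ) + 1 - 0).toNat = S.n + 1 := by omega
      rw [this]; push_cast; ring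
    rw [h2]
    have hn1 : (0:ℝ) < (S.n:ℝ) + 1 := by positivity
    field_simp
  · intro a _
    exact integrableOn_cube (continuous_finsetSum _ (fun i _ => (S.continuous_Err u i).pow 2)) S.r

end Sys

end HypLayer
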