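import Mathlib
import Pool.Agent.Work.MP_36752c_an.Error

/-!
# Lower bound for the volume of the body of coefficient vectors of `L_1`-bounded functions
-/

open MeasureTheory Finset

namespace HypLayer

namespace Sys

variable {d : ℕ} {I : Type} [Fintype I] [DecidableEq I] (S : Sys d I)

/-- Coefficient vectors of pairs `(h0, h1)` with `∫ |h0| + |h1| ≤ t`. -/
def body (t : ℝ) : Set (I → ℝ) :=
  {c | ∃ h0 h1 : (Fin d → ℝ) → ℝ, Continuous h0 ∧ Continuous h1 ∧
    (∃ C : ℝ, ∀ x, |h0 x| ≤ C ∧ |h1 x| ≤ C) ∧
    (∫ x, (|h0 x| + |h1 x|) ∂(torusMeas d)) ≤ t ∧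
    ∀ i, c i = (∫ x, h0 x * S.E false i x ∂(torusMeas d))
      + (∫ x, h1 x * S.E true i x ∂(torusMeas d))}

theorem body_smul {t : ℝ} (ht : 0 < t) {c : I → ℝ} (hc : c ∈ S.body t) :
    (1 / t) • c ∈ S.body 1 := by
  obtain ⟨h0, h1, hc0, hc1, ⟨C, hC⟩, hint, hci⟩ := hc
  refine ⟨fun x => (1/t) * h0 x, fun x => (1/t) * h1 x, by fun_prop, by fun_prop,
    ⟨(1/t) * C, ?_⟩, ?_, ?_⟩
  · intro x
    have ht' : 0 < 1 / t := by positivity
    rw [abs_mul, abs_mul, abs_of_pos ht']
    exact ⟨mul_le_mul_of_nonneg_left (hC x).1 ht'.le, mul_le_mul_of_nonneg_left (hC x).2 ht'.le⟩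
  · have ht' : 0 < 1 / t := by positivity
    have h2 : ∀ x, |1 / t * h0 x| + |1 / t * h1 x| = (1 / t) * (|h0 x| + |h1 x|) := by
      intro x
      rw [abs_mul, abs_mul, abs_of_pos ht']; ring
    simp_rw [h2]
    rw [integral_const_mul]
    calc 1 / t * ∫ x, (|h0 x| + |h1 x|) ∂(torusMeas d) ≤ 1 / t * t :=
          mul_le_mul_of_nonneg_left hint ht'.le
      _ = 1 := by field_simp
  · intro i
    rw [Pi.smul_apply, hci i, smul_eq_mul, mul_add, ← integral_const_mul, ← integral_const_mul]
    congr 1
    · congr 1; ext x; ring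
    · congr 1; ext x; ring

/-- The full polynomial with coefficient vector `e`. -/
noncomputable def Q (u : Bool) (e : I → ℝ) (x : Fin d → ℝ) : ℝ := ∑ j, e j * S.E u j x

theorem continuous_Q (u : Bool) (e : I → ℝ) : Continuous (S.Q u e) := by
  unfold Q
  exact continuous_finsetSum _ (fun j _ => continuous_const.mul (S.cont u j))

theorem Q_bdd (u : Bool) (e : I → ℝ) (x : Fin d → ℝ) : |S.Q u e x| ≤ ∑ j, |e j| := by
  refine (Finset.abs_sum_le_sum_abs _ _).trans (Finset.sum_le_sum fun j _ => ?_)
  rw [abs_mul]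
  exact mul_le_of_le_one_right (abs_nonneg _) (S.bdd u j x)

theorem integrable_EE (u : Bool) (i j : I) :
    Integrable (fun x => S.E u i x * S.E u j x) (torusMeas d) :=
  int_bdd ((S.cont u i).mul (S.cont u j)) (bdd_mul (S.bdd u i) (S.bdd u j))

theorem Q_coef (e : I → ℝ) (i : I) :
    (∫ x, S.Q false e x * S.E false i x ∂(torusMeas d))
      + (∫ x, S.Q true e x * S.E true i x ∂(torusMeas d)) = e i := by
  have h1 : ∀ u, (∫ x, S.Q u e x * S.E u i x ∂(torusMeas d))
      = ∑ j, e j * ∫ x, S.E u j x * S.E u i x ∂(torusMeas d) := by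
    intro u
    have h2 : ∀ x, S.Q u e x * S.E u i x = ∑ j, e j * (S.E u j x * S.E u i x) := by
      intro x
      rw [Q, Finset.sum_mul]
      apply Finset.sum_congr rfl; intro j _; ring
    simp_rw [h2]
    rw [integral_finsetSum]
    · apply Finset.sum_congr rfl; intro j _
      rw [integral_const_mul]
    · intro j _
      exact (S.integrable_EE u j i).const_mul _
  rw [h1, h1, ← Finset.sum_add_distrib]
  have h3 : ∀ j ∈ (Finset.univ : Finset I), e j * (∫ x, S.E false j x * S.E false i x ∂(torusMeas d))
      + e j * (∫ x, S.E true j x * S.E true i x ∂(torusMeas d)) = if j = i then e j else 0 := by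
    intro j _
    rw [← mul_add, S.orth j i]
    split_ifs <;> ring
  rw [Finset.sum_congr rfl h3, Finset.sum_ite_eq' Finset.univ i, if_pos (Finset.mem_univ i)]

theorem Q_norm (e : I → ℝ) :
    (∫ x, (S.Q false e x) ^ 2 ∂(torusMeas d)) + (∫ x, (S.Q true e x) ^ 2 ∂(torusMeas d))
      = ∑ i, (e i) ^ 2 := by
  have h1 : ∀ u, (∫ x, (S.Q u e x) ^ 2 ∂(torusMeas d))
      = ∑ i, e i * ∫ x, S.Q u e x * S.E u i x ∂(torusMeas d) := by
    intro u
    have h2 : ∀ x, (S.Q u e x) ^ 2 = ∑ i, e i * (S.Q u e x * S.E u i x) := by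
      intro x
      have h3 : ∑ i, e i * (S.Q u e x * S.E u i x) = S.Q u e x * ∑ i, e i * S.E u i x := by
        rw [Finset.mul_sum]
        apply Finset.sum_congr rfl; intro i _; ring
      rw [h3, sq]; rfl
    simp_rw [h2]
    rw [integral_finsetSum]
    · apply Finset.sum_congr rfl; intro i _
      rw [integral_const_mul]
    · intro i _
      exact (int_bdd ((S.continuous_Q u e).mul (S.cont u i))
        (bdd_mul (S.Q_bdd u e) (S.bdd u i))).const_mul _
  rw [h1, h1, ← Finset.sum_add_distrib]
  apply Finset.sum_congr rfl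
  intro i _
  rw [← mul_add, S.Q_coef, sq]

/-- The control functional. -/
noncomputable def Th (y : I → ℝ) : ℝ :=
  ((∫ x, S.G false y x ∂(torusMeas d)) + ∑ i, (S.Err false i y) ^ 2)
    + ((∫ x, S.G true y x ∂(torusMeas d)) + ∑ i, (S.Err true i y) ^ 2)

theorem continuous_intG (u : Bool) : Continuous (fun y => ∫ x, S.G u y x ∂(torusMeas d)) :=
  cont_int (S.continuous_G u) (S.prod_psi_bdd u _)

theorem continuous_sumErr (u : Bool) : Continuous (fun y => ∑ i, (S.Err u i y) ^ 2) :=
  continuous_finsetSum _ (fun i _ => (S.continuous_Err u i).pow 2)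

theorem continuous_Th : Continuous S.Th := by
  unfold Th
  exact ((S.continuous_intG false).add (S.continuous_sumErr false)).add
    ((S.continuous_intG true).add (S.continuous_sumErr true))

theorem Th_nonneg (y : I → ℝ) : 0 ≤ S.Th y := by
  have h1 : ∀ u, 0 ≤ ∫ x, S.G u y x ∂(torusMeas d) := fun u =>
    integral_nonneg (fun x => (S.G_pos u y x).le)
  have h2 : ∀ u, 0 ≤ ∑ i, (S.Err u i y) ^ 2 := fun u => Finset.sum_nonneg fun _ _ => sq_nonneg _
  unfold Th
  have := h1 false; have := h1 true; have := h2 false; have := h2 true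
  linarith

theorem integral_Th : ∫ y in cube I S.r, S.Th y ≤ (2 + 648 * S.K0) * S.vol := by
  unfold Th
  rw [integral_add, integral_add, integral_add, S.mean_G, S.mean_G]
  · have h1 := S.total_error false
    have h2 := S.total_error true
    linarith
  · exact integrableOn_cube (S.continuous_intG true) S.r
  · exact integrableOn_cube (S.continuous_sumErr true) S.r
  · exact integrableOn_cube (S.continuous_intG false) S.r
  · exact integrableOn_cube (S.continuous_sumErr false) S.r
  · exact integrableOn_cube ((S.continuous_intG false).add (S.continuous_sumErr false)) S.r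
  · exact integrableOn_cube ((S.continuous_intG true).add (S.continuous_sumErr true)) S.r

theorem mem_body (y : I → ℝ) : (fun i => (1 / 64) * S.F y i) ∈ S.body (1 + S.Th y) := by
  set e : I → ℝ := fun i => S.Err false i y + S.Err true i y with he
  have hGc : ∀ u, Continuous (S.G u y) := fun u => cont_fix (S.continuous_G u) y
  have hGb : ∀ u x, |S.G u y x| ≤ (33/32) ^ (Finset.Icc (0:ℤ) S.n).card := fun u x =>
    S.prod_psi_bdd u _ y x
  refine ⟨fun x => S.G false y x - S.Q false e x, fun x => S.G true y x - S.Q true e x,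
    (hGc false).sub (S.continuous_Q false e), (hGc true).sub (S.continuous_Q true e),
    ⟨(33/32) ^ (Finset.Icc (0:ℤ) S.n).card + ∑ j, |e j|, ?_⟩, ?_, ?_⟩
  · intro x
    exact ⟨(abs_sub _ _).trans (add_le_add (hGb false x) (S.Q_bdd false e x)),
      (abs_sub _ _).trans (add_le_add (hGb true x) (S.Q_bdd true e x))⟩
  · -- L1 bound
    have hintG : ∀ u, Integrable (S.G u y) (torusMeas d) := fun u => int_bdd (hGc u) (hGb u)
    have hintQ : ∀ u, Integrable (S.Q u e) (torusMeas d) := fun u =>
      int_bdd (S.continuous_Q u e) (S.Q_bdd u e)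
    have hintQ2 : ∀ u, Integrable (fun x => (S.Q u e x) ^ 2) (torusMeas d) := by
      intro u
      apply int_bdd (C := (∑ j, |e j|) ^ 2) ((S.continuous_Q u e).pow 2)
      intro x
      change |(S.Q u e x) ^ 2| ≤ _
      rw [abs_pow]
      exact pow_le_pow_left₀ (abs_nonneg _) (S.Q_bdd u e x) 2
    have hpt : ∀ x, |S.G false y x - S.Q false e x| + |S.G true y x - S.Q true e x|
        ≤ (S.G false y x + S.G true y x) + (1 + (1/2) * ((S.Q false e x) ^ 2
          + (S.Q true e x) ^ 2)) := by
      intro x
      have h1 : ∀ u, |S.G u y x - S.Q u e x| ≤ S.G u y x + (1/2 + (1/2) * (S.Q u e x) ^ 2) := by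
        intro u
        refine (abs_sub _ _).trans ?_
        rw [abs_of_pos (S.G_pos u y x)]
        have : |S.Q u e x| ≤ 1/2 + (1/2) * (S.Q u e x) ^ 2 := by
          rw [← sq_abs (S.Q u e x)]
          nlinarith [sq_nonneg (|S.Q u e x| - 1)]
        linarith
      have h2 := h1 false
      have h3 := h1 true
      linarith
    have hI2 : Integrable (fun x => (1/2 : ℝ) * ((S.Q false e x) ^ 2 + (S.Q true e x) ^ 2))
        (torusMeas d) := ((hintQ2 false).add (hintQ2 true)).const_mul _
    have hI3 : Integrable (fun x => (1:ℝ) + (1/2 : ℝ) * ((S.Q false e x) ^ 2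
        + (S.Q true e x) ^ 2)) (torusMeas d) := (integrable_const _).add hI2
    have hI4 : Integrable (fun x => S.G false y x + S.G true y x) (torusMeas d) :=
      (hintG false).add (hintG true)
    calc ∫ x, (|S.G false y x - S.Q false e x| + |S.G true y x - S.Q true e x|) ∂(torusMeas d)
        ≤ ∫ x, ((S.G false y x + S.G true y x) + (1 + (1/2) * ((S.Q false e x) ^ 2
          + (S.Q true e x) ^ 2))) ∂(torusMeas d) := by
          apply integral_mono
          · exact (((hintG false).sub (hintQ false)).abs).add (((hintG true).sub (hintQ true)).abs)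
          · exact hI4.add hI3
          · exact hpt
      _ = ((∫ x, S.G false y x ∂(torusMeas d)) + (∫ x, S.G true y x ∂(torusMeas d)))
          + (1 + (1/2) * ((∫ x, (S.Q false e x) ^ 2 ∂(torusMeas d))
            + (∫ x, (S.Q true e x) ^ 2 ∂(torusMeas d)))) := by
          rw [integral_add hI4 hI3, integral_add (hintG false) (hintG true),
            integral_add (integrable_const _) hI2, integral_const_mul,
            integral_add (hintQ2 false) (hintQ2 true)]
          simp
      _ = ((∫ x, S.G false y x ∂(torusMeas d)) + (∫ x, S.G true y x ∂(torusMeas d)))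
          + (1 + (1/2) * ∑ i, (e i) ^ 2) := by rw [S.Q_norm]
      _ ≤ 1 + S.Th y := by
          unfold Th
          have h5 : ∑ i, (e i) ^ 2 ≤ 2 * (∑ i, (S.Err false i y) ^ 2 + ∑ i, (S.Err true i y) ^ 2) := by
            rw [← Finset.sum_add_distrib, Finset.mul_sum]
            apply Finset.sum_le_sum
            intro i _
            simp only [he]
            nlinarith [sq_nonneg (S.Err false i y - S.Err true i y)]
          linarith
  · intro i
    have h1 : ∀ u, (∫ x, (S.G u y x - S.Q u e x) * S.E u i x ∂(torusMeas d))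
        = (∫ x, S.G u y x * S.E u i x ∂(torusMeas d))
          - (∫ x, S.Q u e x * S.E u i x ∂(torusMeas d)) := by
      intro u
      rw [← integral_sub]
      · congr 1; ext x; ring
      · exact int_bdd ((hGc u).mul (S.cont u i)) (bdd_mul (hGb u) (S.bdd u i))
      · exact int_bdd ((S.continuous_Q u e).mul (S.cont u i)) (bdd_mul (S.Q_bdd u e) (S.bdd u i))
    have h2 : ∀ u, (∫ x, S.G u y x * S.E u i x ∂(torusMeas d))
        = S.Err u i y + (1/64) * S.Phi u i y := by
      intro u
      rw [Err, Phi, ← integral_const_mul]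
      have : (∫ x, S.psi u (S.lv i) y x * S.E u i x ∂(torusMeas d))
          = ∫ x, 1 / 64 * (Real.arctan (S.P u (S.lv i) y x) * S.E u i x) ∂(torusMeas d) := by
        congr 1; ext x; rw [psi]; ring
      rw [this]; ring
    have h3 := S.Q_coef e i
    simp only []
    rw [h1, h1, h2, h2, F]
    have h4 : e i = S.Err false i y + S.Err true i y := rfl
    linarith

/-- Lower bound for the volume of the body. -/
theorem volume_body (hI : 0 < Fintype.card I) :
    ENNReal.ofReal (((1 / 64) / (5 + 1296 * S.K0) * Real.exp (-1) * S.r) ^ (Fintype.card I))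
      ≤ volume (S.body 1) := by
  set C1 : ℝ := 2 + 648 * S.K0 with hC1
  have hK0 := S.K0_nonneg
  have hC1pos : 0 < C1 := by rw [hC1]; positivity
  have hrpos := S.r_pos
  set D : Set (I → ℝ) := cube I S.r with hD
  have hDmeas : MeasurableSet D := measurableSet_cube S.r
  have hDfin : volume D ≠ ⊤ := (isCompact_cube S.r).measure_lt_top.ne
  -- volume of the cube
  have hvol : volume D = ENNReal.ofReal ((2 * S.r) ^ Fintype.card I) := by
    rw [hD, cube, volume_pi_pi]
    simp only [Real.volume_Icc, Finset.prod_const, Finset.card_univ]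
    rw [← ENNReal.ofReal_pow (by linarith)]
    congr 2; ring
  set G0 : Set (I → ℝ) := {y | S.Th y ≤ 2 * C1} ∩ D with hG0
  have hG0meas : MeasurableSet G0 :=
    (isClosed_le S.continuous_Th continuous_const).measurableSet.inter hDmeas
  -- Markov
  have hmarkov : (2 * C1) * (volume.restrict D).real {y | 2 * C1 ≤ S.Th y} ≤ C1 * S.vol := by
    have h1 := mul_meas_ge_le_integral_of_nonneg (μ := volume.restrict D)
      (Filter.Eventually.of_forall (fun y => S.Th_nonneg y))
      (integrableOn_cube S.continuous_Th S.r) (2 * C1)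
    exact h1.trans S.integral_Th
  have hhalf : (1/2) * S.vol ≤ volume.real G0 := by
    have h1 : volume.real (D \ G0) ≤ (volume.restrict D).real {y | 2 * C1 ≤ S.Th y} := by
      have hms : MeasurableSet {y | 2 * C1 ≤ S.Th y} :=
        (isClosed_le continuous_const S.continuous_Th).measurableSet
      rw [measureReal_restrict_apply hms]
      apply measureReal_mono
      · rintro y ⟨hy1, hy2⟩
        refine ⟨?_, hy1⟩
        by_contra h
        have h' : S.Th y < 2 * C1 := lt_of_not_ge h
        exact hy2 ⟨h'.le, hy1⟩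
      · exact ne_top_of_le_ne_top hDfin (measure_mono Set.inter_subset_right)
    have h2 : volume.real (D \ G0) = S.vol - volume.real G0 := by
      have h4 := measureReal_sdiff_add_inter (s := D) hG0meas hDfin
      have h5 : D ∩ G0 = G0 := Set.inter_eq_right.mpr Set.inter_subset_right
      rw [h5] at h4
      have h6 : volume.real D = S.vol := rfl
      linarith
    have h3 : (volume.restrict D).real {y | 2 * C1 ≤ S.Th y} ≤ (1/2) * S.vol := by
      have : (2 * C1) * (volume.restrict D).real {y | 2 * C1 ≤ S.Th y}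
          ≤ (2 * C1) * ((1/2) * S.vol) := by
        refine hmarkov.trans (le_of_eq (by ring))
      exact le_of_mul_le_mul_left this (by positivity)
    linarith
  have hvolpos : S.vol = (2 * S.r) ^ Fintype.card I := by
    rw [vol, measureReal_def, ← hD, hvol, ENNReal.toReal_ofReal (by positivity)]
  -- image
  set t : ℝ := 5 + 1296 * S.K0 with ht
  have htpos : 0 < t := by rw [ht]; positivity
  have himg : (fun c : I → ℝ => ((1/64) / t) • c) '' (S.F '' G0) ⊆ S.body 1 := by
    rintro _ ⟨_, ⟨y, hy, rfl⟩, rfl⟩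
    have h1 := S.mem_body y
    have h2 : (fun i => (1 / 64) * S.F y i) ∈ S.body t := by
      obtain ⟨h0, h1', hc0, hc1, hC, hint, hci⟩ := h1
      refine ⟨h0, h1', hc0, hc1, hC, hint.trans ?_, hci⟩
      have : S.Th y ≤ 2 * C1 := hy.1
      rw [hC1] at this
      rw [ht]; linarith
    have h3 := S.body_smul htpos h2
    convert h3 using 1
    ext i
    simp only [Pi.smul_apply, smul_eq_mul]
    ring
  refine le_trans ?_ (measure_mono himg)
  have hscale : volume ((fun c : I → ℝ => ((1/64) / t) • c) '' (S.F '' G0))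
      = ENNReal.ofReal (((1/64) / t) ^ Fintype.card I) * volume (S.F '' G0) := by
    have := Measure.addHaar_smul (volume : Measure (I → ℝ)) ((1/64) / t) (S.F '' G0)
    rw [Module.finrank_fintype_fun_eq_card, abs_of_pos (by positivity)] at this
    exact this
  rw [hscale]
  have hF := S.volume_image G0 hG0meas Set.inter_subset_right
  have hG0vol : ENNReal.ofReal ((1/2) * (2 * S.r) ^ Fintype.card I) ≤ volume G0 := by
    rw [← hvolpos]
    rw [← ENNReal.ofReal_toReal (ne_top_of_le_ne_top hDfin
      (measure_mono Set.inter_subset_right) : volume G0 ≠ ⊤)]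
    exact ENNReal.ofReal_le_ofReal hhalf
  calc ENNReal.ofReal (((1 / 64) / t * Real.exp (-1) * S.r) ^ (Fintype.card I))
      ≤ ENNReal.ofReal (((1/64) / t) ^ Fintype.card I * (Real.exp (-(Fintype.card I : ℝ))
        * ((1/2) * (2 * S.r) ^ Fintype.card I))) := by
        apply ENNReal.ofReal_le_ofReal
        have h1 : Real.exp (-(Fintype.card I : ℝ)) = (Real.exp (-1)) ^ Fintype.card I := by
          rw [← Real.exp_nat_mul]; congr 1; ring
        have h2 : S.r ^ Fintype.card I ≤ (1/2) * (2 * S.r) ^ Fintype.card I := by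
          rw [mul_pow]
          have h3 : (2:ℝ) ≤ 2 ^ Fintype.card I := by
            calc (2:ℝ) = 2 ^ 1 := by norm_num
              _ ≤ 2 ^ Fintype.card I := pow_le_pow_right₀ (by norm_num) hI
          have h4 : 0 ≤ S.r ^ Fintype.card I := pow_nonneg hrpos.le _
          nlinarith
        rw [h1, mul_pow, mul_pow]
        have h5 : 0 ≤ ((1/64) / t) ^ Fintype.card I * (Real.exp (-1)) ^ Fintype.card I := by
          positivity
        calc ((1/64) / t) ^ Fintype.card I * (Real.exp (-1)) ^ Fintype.card I * S.r ^ Fintype.card I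
            ≤ ((1/64) / t) ^ Fintype.card I * (Real.exp (-1)) ^ Fintype.card I
              * ((1/2) * (2 * S.r) ^ Fintype.card I) := mul_le_mul_of_nonneg_left h2 h5
          _ = _ := by ring
    _ = ENNReal.ofReal (((1/64) / t) ^ Fintype.card I) *
        (ENNReal.ofReal (Real.exp (-(Fintype.card I : ℝ)))
          * ENNReal.ofReal ((1/2) * (2 * S.r) ^ Fintype.card I)) := by
        rw [ENNReal.ofReal_mul (by positivity), ENNReal.ofReal_mul (by positivity)]
    _ ≤ ENNReal.ofReal (((1/64) / t) ^ Fintype.card I) * volume (S.F '' G0) := by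
        gcongr
        refine le_trans ?_ hF
        gcongr

end Sys

end HypLayer
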