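import Mathlib
import Pool.Agent.Work.MP_36752c_an.Lower

/-!
# The concrete system attached to the hyperbolic layer
-/

open MeasureTheory Finset

namespace HypLayer

/-- Real characters. -/
noncomputable def EE {d : ℕ} (u q : Bool) (k : Fin d → ℤ) (x : Fin d → ℝ) : ℝ :=
  if u = q then Real.cos (ang k x) else if u then Real.sin (ang k x) else - Real.sin (ang k x)

theorem EE_ff {d : ℕ} (k : Fin d → ℤ) (x : Fin d → ℝ) : EE false false k x = Real.cos (ang k x) := by
  simp [EE]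
theorem EE_ft {d : ℕ} (k : Fin d → ℤ) (x : Fin d → ℝ) : EE false true k x = - Real.sin (ang k x) := by
  simp [EE]
theorem EE_tf {d : ℕ} (k : Fin d → ℤ) (x : Fin d → ℝ) : EE true false k x = Real.sin (ang k x) := by
  simp [EE]
theorem EE_tt {d : ℕ} (k : Fin d → ℤ) (x : Fin d → ℝ) : EE true true k x = Real.cos (ang k x) := by
  simp [EE]

theorem continuous_EE {d : ℕ} (u q : Bool) (k : Fin d → ℤ) : Continuous (EE u q k) := by
  cases u <;> cases q
  · simp only [funext (EE_ff k)]; fun_prop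
  · simp only [funext (EE_ft k)]; fun_prop
  · simp only [funext (EE_tf k)]; fun_prop
  · simp only [funext (EE_tt k)]; fun_prop

theorem EE_bdd {d : ℕ} (u q : Bool) (k : Fin d → ℤ) (x : Fin d → ℝ) : |EE u q k x| ≤ 1 := by
  cases u <;> cases q
  · rw [EE_ff]; exact Real.abs_cos_le_one _
  · rw [EE_ft, abs_neg]; exact Real.abs_sin_le_one _
  · rw [EE_tf]; exact Real.abs_sin_le_one _
  · rw [EE_tt]; exact Real.abs_cos_le_one _

/-- squared Fourier coefficient of a real function. -/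
noncomputable def fc {d : ℕ} (h : (Fin d → ℝ) → ℝ) (k : Fin d → ℤ) : ℝ :=
  (∫ x, h x * Real.cos (ang k x) ∂(torusMeas d)) ^ 2
    + (∫ x, h x * Real.sin (ang k x) ∂(torusMeas d)) ^ 2

theorem fc_nonneg {d : ℕ} (h : (Fin d → ℝ) → ℝ) (k : Fin d → ℤ) : 0 ≤ fc h k := by
  unfold fc; positivity

theorem sum_q_sq {d : ℕ} (h : (Fin d → ℝ) → ℝ) (u : Bool) (k : Fin d → ℤ) :
    ∑ q : Bool, (∫ x, h x * EE u q k x ∂(torusMeas d)) ^ 2 = fc h k := by
  rw [Fintype.sum_bool]
  cases u
  · simp_rw [EE_ff, EE_ft]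
    have : (∫ x, h x * -Real.sin (ang k x) ∂(torusMeas d))
        = - ∫ x, h x * Real.sin (ang k x) ∂(torusMeas d) := by
      rw [← integral_neg]; congr 1; ext x; ring
    rw [this, fc]; ring
  · simp_rw [EE_tf, EE_tt]
    rw [fc]

/-- Product to sum. -/
theorem sum_qq {d : ℕ} (h : (Fin d → ℝ) → ℝ) (hc : Continuous h) {C : ℝ} (hC : ∀ x, |h x| ≤ C)
    (u : Bool) (k l : Fin d → ℤ) :
    ∑ q : Bool, ∑ q' : Bool, (∫ x, h x * (EE u q k x * EE u q' l x) ∂(torusMeas d)) ^ 2
      = (1/2) * (fc h (k - l) + fc h (k + l)) := by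
  have hicos : ∀ m : Fin d → ℤ, Integrable (fun x => h x * Real.cos (ang m x)) (torusMeas d) := by
    intro m
    apply integrable_of_cont' (by fun_prop) (C * 1)
    exact Sys.bdd_mul hC (fun x => Real.abs_cos_le_one _)
  have hisin : ∀ m : Fin d → ℤ, Integrable (fun x => h x * Real.sin (ang m x)) (torusMeas d) := by
    intro m
    apply integrable_of_cont' (by fun_prop) (C * 1)
    exact Sys.bdd_mul hC (fun x => Real.abs_sin_le_one _)
  set a1 := ∫ x, h x * Real.cos (ang (k - l) x) ∂(torusMeas d) with ha1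
  set b1 := ∫ x, h x * Real.sin (ang (k - l) x) ∂(torusMeas d) with hb1
  set a2 := ∫ x, h x * Real.cos (ang (k + l) x) ∂(torusMeas d) with ha2
  set b2 := ∫ x, h x * Real.sin (ang (k + l) x) ∂(torusMeas d) with hb2
  have hcc : (∫ x, h x * (Real.cos (ang k x) * Real.cos (ang l x)) ∂(torusMeas d))
      = (1/2) * (a1 + a2) := by
    rw [ha1, ha2, ← integral_add (hicos _) (hicos _), ← integral_const_mul]
    congr 1; ext x
    rw [ang_sub, ang_add, Real.cos_sub, Real.cos_add]; ring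
  have hss : (∫ x, h x * (Real.sin (ang k x) * Real.sin (ang l x)) ∂(torusMeas d))
      = (1/2) * (a1 - a2) := by
    rw [ha1, ha2, ← integral_sub (hicos _) (hicos _), ← integral_const_mul]
    congr 1; ext x
    rw [ang_sub, ang_add, Real.cos_sub, Real.cos_add]; ring
  have hcs : (∫ x, h x * (Real.cos (ang k x) * Real.sin (ang l x)) ∂(torusMeas d))
      = (1/2) * (b2 - b1) := by
    rw [hb1, hb2, ← integral_sub (hisin _) (hisin _), ← integral_const_mul]
    congr 1; ext x
    rw [ang_sub, ang_add, Real.sin_sub, Real.sin_add]; ring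
  have hsc : (∫ x, h x * (Real.sin (ang k x) * Real.cos (ang l x)) ∂(torusMeas d))
      = (1/2) * (b2 + b1) := by
    rw [hb1, hb2, ← integral_add (hisin _) (hisin _), ← integral_const_mul]
    congr 1; ext x
    rw [ang_sub, ang_add, Real.sin_sub, Real.sin_add]; ring
  have hfc1 : fc h (k - l) = a1 ^ 2 + b1 ^ 2 := rfl
  have hfc2 : fc h (k + l) = a2 ^ 2 + b2 ^ 2 := rfl
  rw [hfc1, hfc2]
  simp only [Fintype.sum_bool]
  cases u
  · simp_rw [EE_ff, EE_ft]
    have h1 : (∫ x, h x * (-Real.sin (ang k x) * -Real.sin (ang l x)) ∂(torusMeas d))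
        = (1/2) * (a1 - a2) := by
      rw [← hss]; congr 1; ext x; ring
    have h2 : (∫ x, h x * (-Real.sin (ang k x) * Real.cos (ang l x)) ∂(torusMeas d))
        = - ((1/2) * (b2 + b1)) := by
      rw [← hsc, ← integral_neg]; congr 1; ext x; ring
    have h3 : (∫ x, h x * (Real.cos (ang k x) * -Real.sin (ang l x)) ∂(torusMeas d))
        = - ((1/2) * (b2 - b1)) := by
      rw [← hcs, ← integral_neg]; congr 1; ext x; ring
    rw [h1, h2, h3, hcc]; ring
  · simp_rw [EE_tf, EE_tt]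
    rw [hcc, hss, hcs, hsc]; ring

/-- Sums over pairs through a map with small fibres. -/
theorem sum_fc_le {d : ℕ} (h : (Fin d → ℝ) → ℝ) (hc : Continuous h) {C : ℝ} (hC : ∀ x, |h x| ≤ C)
    (A B : Finset (Fin d → ℤ)) (φ : (Fin d → ℤ) → (Fin d → ℤ) → (Fin d → ℤ)) (J : ℝ)
    (hJ : ∀ m, (((A ×ˢ B).filter (fun z => φ z.1 z.2 = m)).card : ℝ) ≤ J) :
    ∑ k ∈ A, ∑ l ∈ B, fc h (φ k l) ≤ J * ∫ x, (h x) ^ 2 ∂(torusMeas d) := by
  classical
  have hJ0 : 0 ≤ J := (Nat.cast_nonneg _).trans (hJ 0)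
  rw [← Finset.sum_product' A B (fun k l => fc h (φ k l))]
  set W := (A ×ˢ B).image (fun z => φ z.1 z.2) with hW
  have hmaps : ∀ z ∈ A ×ˢ B, φ z.1 z.2 ∈ W := fun z hz => Finset.mem_image_of_mem _ hz
  rw [← Finset.sum_fiberwise_of_maps_to hmaps]
  calc ∑ m ∈ W, ∑ z ∈ (A ×ˢ B).filter (fun z => φ z.1 z.2 = m), fc h (φ z.1 z.2)
      ≤ ∑ m ∈ W, J * fc h m := by
        apply Finset.sum_le_sum
        intro m _
        have h1 : ∑ z ∈ (A ×ˢ B).filter (fun z => φ z.1 z.2 = m), fc h (φ z.1 z.2)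
            = ∑ z ∈ (A ×ˢ B).filter (fun z => φ z.1 z.2 = m), fc h m := by
          apply Finset.sum_congr rfl
          intro z hz
          rw [(Finset.mem_filter.mp hz).2]
        rw [h1, Finset.sum_const, nsmul_eq_mul]
        exact mul_le_mul_of_nonneg_right (hJ m) (fc_nonneg h m)
    _ = J * ∑ m ∈ W, fc h m := by rw [Finset.mul_sum]
    _ ≤ J * ∫ x, (h x) ^ 2 ∂(torusMeas d) := by
        apply mul_le_mul_of_nonneg_left _ hJ0
        exact bessel h hc C hC W

/-- The level `a` part of the layer. -/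
noncomputable def lev (p n a : ℕ) : Finset (Fin (p+3) → ℤ) :=
  (layer (p+3) n).filter (fun k => bt (k 0) = a)

theorem neg_mem_layer {d n : ℕ} (k : Fin d → ℤ) : -k ∈ layer d n ↔ k ∈ layer d n := by
  rw [mem_layer_iff, mem_layer_iff]
  simp only [Pi.neg_apply, bt_neg]

theorem fiber_sub (p n a b : ℕ) (hab : a ≠ b) (m : Fin (p+3) → ℤ) :
    (((lev p n a ×ˢ lev p n b).filter (fun z => z.1 - z.2 = m)).card : ℝ)
      ≤ CI p * (2 ^ n * rho ^ (Nat.dist a b) * ((n:ℝ)+1) ^ p) := by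
  rw [Nat.dist_comm]
  refine le_trans ?_ (inter_count p n b a hab.symm m)
  norm_cast
  apply Finset.card_le_card_of_injOn (fun z => z.1)
  · rintro ⟨k, l⟩ hz
    simp only [Finset.coe_filter, Finset.mem_product, lev, Finset.mem_filter, Set.mem_ofPred_eq] at hz
    obtain ⟨⟨⟨h1, h2⟩, h3, h4⟩, h5⟩ := hz
    have h6 : k - m = l := by rw [← h5]; ring
    simp only [Finset.mem_coe, interSet, Finset.mem_filter]
    rw [h6]
    exact ⟨h1, h2, h3, h4⟩
  · rintro ⟨k, l⟩ hz ⟨k', l'⟩ hz' hk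
    simp only [Finset.coe_filter, Set.mem_ofPred_eq] at hz hz' hk
    subst hk
    have h1 := hz.2
    have h2 := hz'.2
    have : l = l' := by
      have h3 : l = k - m := by rw [← h1]; ring
      have h4 : l' = k - m := by rw [← h2]; ring
      rw [h3, h4]
    rw [this]

theorem fiber_add (p n a b : ℕ) (hab : a ≠ b) (m : Fin (p+3) → ℤ) :
    (((lev p n a ×ˢ lev p n b).filter (fun z => z.1 + z.2 = m)).card : ℝ)
      ≤ CI p * (2 ^ n * rho ^ (Nat.dist a b) * ((n:ℝ)+1) ^ p) := by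
  rw [Nat.dist_comm]
  refine le_trans ?_ (inter_count p n b a hab.symm m)
  norm_cast
  apply Finset.card_le_card_of_injOn (fun z => z.1)
  · rintro ⟨k, l⟩ hz
    simp only [Finset.coe_filter, Finset.mem_product, lev, Finset.mem_filter, Set.mem_ofPred_eq] at hz
    obtain ⟨⟨⟨h1, h2⟩, h3, h4⟩, h5⟩ := hz
    have h6 : k - m = -l := by rw [← h5]; ring
    simp only [Finset.mem_coe, interSet, Finset.mem_filter]
    rw [h6]
    refine ⟨h1, h2, (neg_mem_layer l).mpr h3, ?_⟩
    rw [Pi.neg_apply, bt_neg]; exact h4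
  · rintro ⟨k, l⟩ hz ⟨k', l'⟩ hz' hk
    simp only [Finset.coe_filter, Set.mem_ofPred_eq] at hz hz' hk
    subst hk
    have h1 := hz.2
    have h2 := hz'.2
    have : l = l' := by
      have h3 : l = m - k := by rw [← h1]; ring
      have h4 : l' = m - k := by rw [← h2]; ring
      rw [h3, h4]
    rw [this]

/-- Sums over the index type by level. -/
theorem sum_level (p n : ℕ) (a : ℕ) (f : (Fin (p+3) → ℤ) → Bool → ℝ) :
    ∑ i ∈ (Finset.univ : Finset (↥(layer (p+3) n) × Bool)).filter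
      (fun i => ((bt (i.1.1 0) : ℕ) : ℤ) = (a:ℤ)), f i.1.1 i.2
      = ∑ k ∈ lev p n a, ∑ q : Bool, f k q := by
  rw [Finset.sum_filter, Fintype.sum_prod_type, lev, Finset.sum_filter,
    ← Finset.sum_coe_sort (layer (p+3) n)]
  apply Finset.sum_congr rfl
  intro k _
  simp only [Nat.cast_inj]
  split_ifs with h
  · rfl
  · simp

theorem empty_level (p n : ℕ) (a : ℤ) (ha : a < 0) :
    (Finset.univ : Finset (↥(layer (p+3) n) × Bool)).filter
      (fun i => ((bt (i.1.1 0) : ℕ) : ℤ) = a) = ∅ := by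
  apply Finset.filter_eq_empty_iff.mpr
  intro i _ h
  omega

theorem cross_conc (p n : ℕ) (u : Bool) (a b : ℤ) (h : (Fin (p+3) → ℝ) → ℝ) (C : ℝ) (hab : a ≠ b)
    (hc : Continuous h) (hC : ∀ x, |h x| ≤ C) :
    ∑ j ∈ (Finset.univ : Finset (↥(layer (p+3) n) × Bool)).filter
        (fun i => ((bt (i.1.1 0) : ℕ) : ℤ) = a),
      ∑ i ∈ (Finset.univ : Finset (↥(layer (p+3) n) × Bool)).filter
        (fun i => ((bt (i.1.1 0) : ℕ) : ℤ) = b),
      (∫ x, h x * (EE u j.2 j.1.1 x * EE u i.2 i.1.1 x) ∂(torusMeas (p+3))) ^ 2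
      ≤ (CI p * (2 ^ n * ((n:ℝ)+1)^(p+1)) * rho ^ (a - b).natAbs / ((n:ℝ) + 1))
        * ∫ x, (h x) ^ 2 ∂(torusMeas (p+3)) := by
  have hrhs : 0 ≤ (CI p * (2 ^ n * ((n:ℝ)+1)^(p+1)) * rho ^ (a - b).natAbs / ((n:ℝ) + 1))
        * ∫ x, (h x) ^ 2 ∂(torusMeas (p+3)) := by
    have h1 := CI_pos p
    have h2 := pow_nonneg rho_pos.le (a - b).natAbs
    have h3 : 0 ≤ ∫ x, (h x) ^ 2 ∂(torusMeas (p+3)) := integral_nonneg (fun x => sq_nonneg _)
    positivity
  rcases lt_or_ge a 0 with ha | ha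
  · rw [empty_level p n a ha, Finset.sum_empty]; exact hrhs
  rcases lt_or_ge b 0 with hb | hb
  · rw [empty_level p n b hb]; simpa using hrhs
  obtain ⟨a', rfl⟩ := Int.eq_ofNat_of_zero_le ha
  obtain ⟨b', rfl⟩ := Int.eq_ofNat_of_zero_le hb
  have hab' : a' ≠ b' := fun h => hab (by rw [h])
  have hdist : ((a':ℤ) - b').natAbs = Nat.dist a' b' := by
    unfold Nat.dist; omega
  rw [hdist]
  rw [sum_level p n a' (fun k q => ∑ i ∈ (Finset.univ : Finset (↥(layer (p+3) n) × Bool)).filter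
        (fun i => ((bt (i.1.1 0) : ℕ) : ℤ) = (b':ℤ)),
      (∫ x, h x * (EE u q k x * EE u i.2 i.1.1 x) ∂(torusMeas (p+3))) ^ 2)]
  have h1 : ∀ k q, ∑ i ∈ (Finset.univ : Finset (↥(layer (p+3) n) × Bool)).filter
        (fun i => ((bt (i.1.1 0) : ℕ) : ℤ) = (b':ℤ)),
      (∫ x, h x * (EE u q k x * EE u i.2 i.1.1 x) ∂(torusMeas (p+3))) ^ 2
      = ∑ l ∈ lev p n b', ∑ q' : Bool,
        (∫ x, h x * (EE u q k x * EE u q' l x) ∂(torusMeas (p+3))) ^ 2 := by
    intro k q
    exact sum_level p n b' (fun l q' =>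
      (∫ x, h x * (EE u q k x * EE u q' l x) ∂(torusMeas (p+3))) ^ 2)
  simp_rw [h1]
  have h2 : ∑ k ∈ lev p n a', ∑ q : Bool, ∑ l ∈ lev p n b', ∑ q' : Bool,
        (∫ x, h x * (EE u q k x * EE u q' l x) ∂(torusMeas (p+3))) ^ 2
      = (1/2) * ((∑ k ∈ lev p n a', ∑ l ∈ lev p n b', fc h (k - l))
        + ∑ k ∈ lev p n a', ∑ l ∈ lev p n b', fc h (k + l)) := by
    rw [← Finset.sum_add_distrib, Finset.mul_sum]
    apply Finset.sum_congr rfl
    intro k _
    rw [Finset.sum_comm, ← Finset.sum_add_distrib, Finset.mul_sum]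
    apply Finset.sum_congr rfl
    intro l _
    exact sum_qq h hc hC u k l
  rw [h2]
  have h3 := sum_fc_le h hc hC (lev p n a') (lev p n b') (fun k l => k - l) _
    (fun m => fiber_sub p n a' b' hab' m)
  have h4 := sum_fc_le h hc hC (lev p n a') (lev p n b') (fun k l => k + l) _
    (fun m => fiber_add p n a' b' hab' m)
  have h5 : CI p * (2 ^ n * ((n:ℝ)+1)^(p+1)) * rho ^ (Nat.dist a' b') / ((n:ℝ) + 1)
      = CI p * (2 ^ n * rho ^ (Nat.dist a' b') * ((n:ℝ)+1) ^ p) := by
    have : (0:ℝ) < (n:ℝ) + 1 := by positivity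
    field_simp
    ring
  rw [h5]
  linarith

/-- The concrete system. -/
noncomputable def concSys (p n : ℕ) (hn : 1 ≤ n) : Sys (p+3) (↥(layer (p+3) n) × Bool) where
  n := n
  B := 2 ^ n * ((n:ℝ)+1)^(p+1)
  CI := CI p
  E := fun u i x => EE u i.2 i.1.1 x
  lv := fun i => ((bt (i.1.1 0) : ℕ) : ℤ)
  cont := fun u i => continuous_EE u i.2 i.1.1
  bdd := fun u i x => EE_bdd u i.2 i.1.1 x
  lv_nonneg := fun i => by positivity
  lv_le := fun i => by
    have h := (mem_layer_iff i.1.1).mp i.1.2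
    have : bt (i.1.1 0) ≤ ∑ j, bt (i.1.1 j) :=
      Finset.single_le_sum (f := fun j => bt (i.1.1 j)) (fun _ _ => Nat.zero_le _)
        (Finset.mem_univ 0)
    rw [h] at this
    exact_mod_cast this
  CI_nonneg := (CI_pos p).le
  B_ge := by
    apply mul_le_mul_of_nonneg_left _ (by positivity)
    have h1 : (1:ℝ) ≤ (n:ℝ) + 1 := by
      have : (0:ℝ) ≤ n := by positivity
      linarith
    calc (n:ℝ) + 1 = ((n:ℝ)+1)^1 := by ring
      _ ≤ ((n:ℝ)+1)^(p+1) := pow_le_pow_right₀ h1 (by omega)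
  mean := fun u i => by
    have hk : i.1.1 ≠ 0 := by
      intro h0
      have h := (mem_layer_iff i.1.1).mp i.1.2
      rw [h0] at h
      simp [bt] at h
      omega
    obtain ⟨k, q⟩ := i
    simp only at hk ⊢
    cases u <;> cases q
    · simp_rw [EE_ff]; rw [integral_cos, if_neg hk]
    · simp_rw [EE_ft]; rw [integral_neg, integral_sin, neg_zero]
    · simp_rw [EE_tf]; rw [integral_sin]
    · simp_rw [EE_tt]; rw [integral_cos, if_neg hk]
  orth := fun i j => by
    obtain ⟨k, q⟩ := i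
    obtain ⟨l, q'⟩ := j
    simp only
    have hint : ∀ u, Integrable (fun x => EE u q k.1 x * EE u q' l.1 x) (torusMeas (p+3)) := by
      intro u
      exact integrable_of_cont' ((continuous_EE u q k.1).mul (continuous_EE u q' l.1)) (1 * 1)
        (Sys.bdd_mul (EE_bdd u q k.1) (EE_bdd u q' l.1))
    rw [← integral_add (hint false) (hint true)]
    cases q <;> cases q'
    · simp_rw [EE_ff, EE_tf]
      have : ∀ x, Real.cos (ang k.1 x) * Real.cos (ang l.1 x)
          + Real.sin (ang k.1 x) * Real.sin (ang l.1 x) = Real.cos (ang (k.1 - l.1) x) := by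
        intro x; rw [ang_sub, Real.cos_sub]
      simp_rw [this]
      rw [integral_cos]
      by_cases h : k = l
      · rw [if_pos (by rw [h, sub_self]), if_pos (by rw [h])]
      · rw [if_neg, if_neg]
        · intro h'; exact h (Prod.ext_iff.mp h').1
        · intro h'; exact h (Subtype.ext (sub_eq_zero.mp h'))
    · simp_rw [EE_ff, EE_ft, EE_tf, EE_tt]
      have : ∀ x, Real.cos (ang k.1 x) * -Real.sin (ang l.1 x)
          + Real.sin (ang k.1 x) * Real.cos (ang l.1 x) = Real.sin (ang (k.1 - l.1) x) := by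
        intro x; rw [ang_sub, Real.sin_sub]; ring
      simp_rw [this]
      rw [integral_sin, if_neg]
      intro h'; exact absurd (Prod.ext_iff.mp h').2 (by simp)
    · simp_rw [EE_ff, EE_ft, EE_tf, EE_tt]
      have : ∀ x, -Real.sin (ang k.1 x) * Real.cos (ang l.1 x)
          + Real.cos (ang k.1 x) * Real.sin (ang l.1 x) = - Real.sin (ang (k.1 - l.1) x) := by
        intro x; rw [ang_sub, Real.sin_sub]; ring
      simp_rw [this]
      rw [integral_neg, integral_sin, neg_zero, if_neg]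
      intro h'; exact absurd (Prod.ext_iff.mp h').2 (by simp)
    · simp_rw [EE_ft, EE_tt]
      have : ∀ x, -Real.sin (ang k.1 x) * -Real.sin (ang l.1 x)
          + Real.cos (ang k.1 x) * Real.cos (ang l.1 x) = Real.cos (ang (k.1 - l.1) x) := by
        intro x; rw [ang_sub, Real.cos_sub]; ring
      simp_rw [this]
      rw [integral_cos]
      by_cases h : k = l
      · rw [if_pos (by rw [h, sub_self]), if_pos (by rw [h])]
      · rw [if_neg, if_neg]
        · intro h'; exact h (Prod.ext_iff.mp h').1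
        · intro h'; exact h (Subtype.ext (sub_eq_zero.mp h'))
  sumsq := fun u a x => by
    rw [← Finset.sum_filter]
    rcases lt_or_ge a 0 with ha | ha
    · rw [empty_level p n a ha, Finset.sum_empty]; positivity
    obtain ⟨a', rfl⟩ := Int.eq_ofNat_of_zero_le ha
    rw [sum_level p n a' (fun k q => (EE u q k x) ^ 2)]
    have h1 : ∀ k : Fin (p+3) → ℤ, ∑ q : Bool, (EE u q k x) ^ 2 = 1 := by
      intro k
      rw [Fintype.sum_bool]
      cases u
      · rw [EE_ft, EE_ff]; linarith [Real.sin_sq_add_cos_sq (ang k x)]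
      · rw [EE_tt, EE_tf]; linarith [Real.sin_sq_add_cos_sq (ang k x)]
    simp_rw [h1]
    rw [Finset.sum_const, nsmul_eq_mul, mul_one]
    exact card_level p n a'
  card_lv := fun a => by
    rcases lt_or_ge a 0 with ha | ha
    · rw [empty_level p n a ha]; simp; positivity
    obtain ⟨a', rfl⟩ := Int.eq_ofNat_of_zero_le ha
    have h := sum_level p n a' (fun _ _ => (1:ℝ))
    rw [Finset.sum_const, nsmul_eq_mul, mul_one] at h
    rw [h]
    simp only [Finset.sum_const, nsmul_eq_mul, Finset.card_univ, Fintype.card_bool]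
    have := card_level p n a'
    unfold lev
    push_cast
    linarith
  bessel := fun u h C hc hC => by
    rw [Fintype.sum_prod_type]
    have h1 : ∀ k : ↥(layer (p+3) n), ∑ q : Bool,
        (∫ x, h x * EE u q k.1 x ∂(torusMeas (p+3))) ^ 2 = fc h k.1 := fun k => sum_q_sq h u k.1
    simp_rw [h1]
    rw [Finset.sum_coe_sort (layer (p+3) n) (fun k => fc h k)]
    exact HypLayer.bessel h hc C hC _
  cross := fun u a b h C hab hc hC => cross_conc p n u a b h C hab hc hC

end HypLayer
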