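import Mathlib
import Pool.Agent.Work.MP_36752c_an.Conc

/-!
# Relation between the body and `B^⊥`
-/

open MeasureTheory Finset

namespace HypLayer

variable {d : ℕ}

theorem integrable_mul_chr {h : (Fin d → ℝ) → ℂ} (hh : Integrable h (torusMeas d))
    (k : Fin d → ℤ) : Integrable (fun x => h x * chr k x) (torusMeas d) := by
  have := hh.bdd_mul (c := 1) (f := fun x => chr k x) (continuous_chr k).aestronglyMeasurable
    (Filter.Eventually.of_forall (fun x => (norm_chr k x).le))
  simpa [mul_comm] using this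

theorem fourierCoef_sub {f g : (Fin d → ℝ) → ℂ} (hf : Integrable f (torusMeas d))
    (hg : Integrable g (torusMeas d)) (k : Fin d → ℤ) :
    fourierCoef (fun x => f x - g x) k = fourierCoef f k - fourierCoef g k := by
  rw [fourierCoef_eq, fourierCoef_eq, fourierCoef_eq,
    ← integral_sub (integrable_mul_chr hf (-k)) (integrable_mul_chr hg (-k))]
  congr 1; ext x; ring

/-- The polynomial with prescribed coefficients. -/
noncomputable def poly (Λ : Finset (Fin d → ℤ)) (a : (Fin d → ℤ) → ℂ) (x : Fin d → ℝ) : ℂ :=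
  ∑ k ∈ Λ, a k * chr k x

theorem continuous_poly (Λ : Finset (Fin d → ℤ)) (a : (Fin d → ℤ) → ℂ) :
    Continuous (poly Λ a) := by
  unfold poly; fun_prop

theorem integrable_poly (Λ : Finset (Fin d → ℤ)) (a : (Fin d → ℤ) → ℂ) :
    Integrable (poly Λ a) (torusMeas d) := by
  apply integrable_of_cont (continuous_poly Λ a) (∑ k ∈ Λ, ‖a k‖)
  intro x
  refine (norm_sum_le _ _).trans (Finset.sum_le_sum fun k _ => ?_)
  rw [norm_mul, norm_chr, mul_one]

theorem fourierCoef_poly (Λ : Finset (Fin d → ℤ)) (a : (Fin d → ℤ) → ℂ) (l : Fin d → ℤ) :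
    fourierCoef (poly Λ a) l = if l ∈ Λ then a l else 0 := by
  rw [fourierCoef_eq]
  have h1 : ∀ x, poly Λ a x * chr (-l) x = ∑ k ∈ Λ, a k * chr (k - l) x := by
    intro x
    rw [poly, Finset.sum_mul]
    apply Finset.sum_congr rfl
    intro k _
    rw [sub_eq_add_neg, chr_add]; ring
  simp_rw [h1]
  rw [integral_finsetSum]
  · simp_rw [integral_const_mul, chr_integral]
    have h2 : ∀ k ∈ Λ, a k * (if k - l = 0 then (1:ℂ) else 0) = if k = l then a k else 0 := by
      intro k _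
      by_cases h : k = l
      · rw [if_pos (by rw [h, sub_self]), if_pos h, mul_one]
      · rw [if_neg (fun h' => h (sub_eq_zero.mp h')), if_neg h, mul_zero]
    rw [Finset.sum_congr rfl h2, Finset.sum_ite_eq' Λ l]
  · intro k _
    exact (integrable_chr _).const_mul _

/-- Coefficient vectors of functions in the unit ball of `L_1` are in `B^⊥`. -/
theorem mem_Bperp (Λ : Finset (Fin d → ℤ)) {h : (Fin d → ℝ) → ℂ} (hh : Integrable h (torusMeas d))
    (h1 : ∫ x, ‖h x‖ ∂(torusMeas d) ≤ 1) : coefVec Λ h ∈ Bperp Λ := by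
  set f := poly Λ (fourierCoef h) with hf
  have hcoef : ∀ l ∈ Λ, fourierCoef f l = fourierCoef h l := by
    intro l hl
    rw [hf, fourierCoef_poly, if_pos hl]
  have hint : Integrable f (torusMeas d) := integrable_poly Λ _
  refine ⟨f, ⟨⟨hint, ?_⟩, ?_⟩, ?_⟩
  · intro k hk
    rw [hf, fourierCoef_poly, if_neg hk]
  · have hmem : (∫ x, ‖h x‖ ∂(torusMeas d)) ∈ {t : ℝ | ∃ g : (Fin d → ℝ) → ℂ,
        Integrable g (torusMeas d) ∧ (∀ k ∈ Λ, fourierCoef g k = 0) ∧
        t = ∫ x, ‖f x - g x‖ ∂(torusMeas d)} := by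
      refine ⟨fun x => f x - h x, hint.sub hh, ?_, ?_⟩
      · intro k hk
        rw [fourierCoef_sub hint hh, hcoef k hk, sub_self]
      · congr 1; ext x; congr 1; ring
    have hbdd : BddBelow {t : ℝ | ∃ g : (Fin d → ℝ) → ℂ,
        Integrable g (torusMeas d) ∧ (∀ k ∈ Λ, fourierCoef g k = 0) ∧
        t = ∫ x, ‖f x - g x‖ ∂(torusMeas d)} := by
      refine ⟨0, ?_⟩
      rintro t ⟨g, _, _, rfl⟩
      exact integral_nonneg (fun x => norm_nonneg _)
    exact (csInf_le hbdd hmem).trans h1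
  · ext i
    simp only [coefVec]
    rw [hcoef i.1.1 i.1.2]

/-- Conversely elements of `B^⊥` are coefficient vectors of functions of `L_1`-norm at most `2`. -/
theorem of_mem_Bperp (Λ : Finset (Fin d → ℤ)) {c : (Λ × Bool) → ℝ} (hc : c ∈ Bperp Λ) :
    ∃ h : (Fin d → ℝ) → ℂ, Integrable h (torusMeas d) ∧ (∫ x, ‖h x‖ ∂(torusMeas d) ≤ 2) ∧
      coefVec Λ h = c := by
  obtain ⟨f, ⟨⟨hf, hf0⟩, hE⟩, rfl⟩ := hc
  have hne : {t : ℝ | ∃ g : (Fin d → ℝ) → ℂ,
        Integrable g (torusMeas d) ∧ (∀ k ∈ Λ, fourierCoef g k = 0) ∧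
        t = ∫ x, ‖f x - g x‖ ∂(torusMeas d)}.Nonempty := by
    refine ⟨_, fun _ => 0, integrable_zero _ _ _, ?_, rfl⟩
    intro k _
    simp [fourierCoef]
  have hlt : Eperp Λ f < 2 := by linarith
  obtain ⟨t, ⟨g, hg, hg0, rfl⟩, ht⟩ := exists_lt_of_csInf_lt hne hlt
  refine ⟨fun x => f x - g x, hf.sub hg, ht.le, ?_⟩
  ext i
  simp only [coefVec]
  rw [fourierCoef_sub hf hg, hg0 i.1.1 i.1.2, sub_zero]

/-- Real formula for the coefficient vector. -/
theorem coefVec_real (Λ : Finset (Fin d → ℤ)) {h0 h1 : (Fin d → ℝ) → ℝ}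
    (hh0 : Integrable h0 (torusMeas d)) (hh1 : Integrable h1 (torusMeas d)) (i : Λ × Bool) :
    coefVec Λ (fun x => (h0 x : ℂ) + Complex.I * (h1 x : ℂ)) i
      = (∫ x, h0 x * EE false i.2 i.1.1 x ∂(torusMeas d))
        + (∫ x, h1 x * EE true i.2 i.1.1 x ∂(torusMeas d)) := by
  obtain ⟨k, q⟩ := i
  have hintc : Integrable (fun x => (h0 x : ℂ) + Complex.I * (h1 x : ℂ)) (torusMeas d) :=
    hh0.ofReal.add (hh1.ofReal.const_mul _)
  have hint := integrable_mul_chr hintc (-k.1)
  have hiE : ∀ (f : (Fin d → ℝ) → ℝ), Integrable f (torusMeas d) → ∀ u q,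
      Integrable (fun x => f x * EE u q k.1 x) (torusMeas d) := by
    intro f hf u q
    have := hf.bdd_mul (c := 1) (f := fun x => EE u q k.1 x)
      (continuous_EE u q k.1).aestronglyMeasurable
      (Filter.Eventually.of_forall (fun x => EE_bdd u q k.1 x))
    simpa [mul_comm] using this
  have hre : (fourierCoef (fun x => (h0 x : ℂ) + Complex.I * (h1 x : ℂ)) k.1).re
      = (∫ x, h0 x * EE false false k.1 x ∂(torusMeas d))
        + (∫ x, h1 x * EE true false k.1 x ∂(torusMeas d)) := by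
    rw [fourierCoef_eq]
    have h3 := integral_re hint
    simp only [RCLike.re_to_complex] at h3
    rw [← h3, ← integral_add (hiE h0 hh0 _ _) (hiE h1 hh1 _ _)]
    congr 1; ext x
    rw [Complex.mul_re, chr_re, chr_im, ang_neg, Real.cos_neg, Real.sin_neg, EE_ff, EE_tf]
    simp
  have him : (fourierCoef (fun x => (h0 x : ℂ) + Complex.I * (h1 x : ℂ)) k.1).im
      = (∫ x, h0 x * EE false true k.1 x ∂(torusMeas d))
        + (∫ x, h1 x * EE true true k.1 x ∂(torusMeas d)) := by
    rw [fourierCoef_eq]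
    have h3 := integral_im hint
    simp only [RCLike.im_to_complex] at h3
    rw [← h3, ← integral_add (hiE h0 hh0 _ _) (hiE h1 hh1 _ _)]
    congr 1; ext x
    rw [Complex.mul_im, chr_re, chr_im, ang_neg, Real.cos_neg, Real.sin_neg, EE_ft, EE_tt]
    simp
  cases q
  · simp only [coefVec]
    rw [← hre]; rfl
  · simp only [coefVec]
    rw [← him]; rfl

theorem body_sub_Bperp (p n : ℕ) (hn : 1 ≤ n) :
    (concSys p n hn).body 1 ⊆ Bperp (layer (p+3) n) := by
  rintro c ⟨h0, h1, hc0, hc1, ⟨C, hC⟩, hint, hci⟩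
  have hi0 : Integrable h0 (torusMeas (p+3)) := integrable_of_cont' hc0 C (fun x => (hC x).1)
  have hi1 : Integrable h1 (torusMeas (p+3)) := integrable_of_cont' hc1 C (fun x => (hC x).2)
  have hcv : coefVec (layer (p+3) n) (fun x => (h0 x : ℂ) + Complex.I * (h1 x : ℂ)) = c := by
    ext i
    rw [coefVec_real _ hi0 hi1, hci i]
    rfl
  rw [← hcv]
  apply mem_Bperp
  · exact hi0.ofReal.add (hi1.ofReal.const_mul _)
  · refine le_trans ?_ hint
    apply integral_mono
    · exact (hi0.ofReal.add (hi1.ofReal.const_mul _)).norm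
    · exact hi0.abs.add hi1.abs
    · intro x
      simp only
      refine (norm_add_le _ _).trans ?_
      rw [norm_mul, Complex.norm_I, one_mul, Complex.norm_real, Complex.norm_real]
      exact le_rfl

end HypLayer
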