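import Mathlib
import Pool.Agent.Work.MP_36752c_an.Link

/-!
# Upper bound for the volume of `B^⊥`
-/

open MeasureTheory Finset

namespace HypLayer

/-- Volume bound for Euclidean balls in even dimension. -/
theorem volume_eball {ι : Type} [Fintype ι] (k : ℕ) (hk : 1 ≤ k) (hcard : Fintype.card ι = 2 * k)
    (c : ι → ℝ) (R : ℝ) (hR : 0 ≤ R) :
    volume {y : ι → ℝ | ∑ i, (c i - y i) ^ 2 ≤ R ^ 2}
      ≤ ENNReal.ofReal ((Real.pi * Real.exp 1 * R ^ 2 / k) ^ k) := by
  have : Nonempty ι := Fintype.card_pos_iff.mp (by omega)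
  have hset : {y : ι → ℝ | ∑ i, (c i - y i) ^ 2 ≤ R ^ 2}
      = (WithLp.toLp 2 : (ι → ℝ) → EuclideanSpace ℝ ι) ⁻¹' (Metric.closedBall (WithLp.toLp 2 c) R) := by
    ext y
    rw [Set.mem_preimage, Metric.mem_closedBall, EuclideanSpace.dist_eq]
    simp only [Set.mem_ofPred_eq, Real.dist_eq, sq_abs]
    rw [Real.sqrt_le_left hR]
    have : ∀ i, (c i - y i) ^ 2 = (y i - c i) ^ 2 := fun i => by ring
    simp_rw [this]
  rw [hset, (PiLp.volume_preserving_toLp ι).measure_preimage
    Metric.isClosed_closedBall.measurableSet.nullMeasurableSet]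
  have : Nontrivial (EuclideanSpace ℝ ι) := by
    apply Module.nontrivial_of_finrank_pos (R := ℝ)
    rw [finrank_euclideanSpace]; omega
  rw [InnerProductSpace.volume_closedBall_of_dim_even (k := k)
    (by rw [finrank_euclideanSpace, hcard])]
  rw [finrank_euclideanSpace, hcard, ← ENNReal.ofReal_pow hR, ← ENNReal.ofReal_mul (by positivity)]
  apply ENNReal.ofReal_le_ofReal
  have hk0 : (0:ℝ) < k := by exact_mod_cast hk
  have h1 := Real.pow_div_factorial_le_exp (x := (k:ℝ)) hk0.le k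
  have hfac : (0:ℝ) < (k.factorial : ℝ) := by exact_mod_cast Nat.factorial_pos k
  have h2 : 1 / (k.factorial : ℝ) ≤ (Real.exp 1 / k) ^ k := by
    rw [div_pow, ← Real.exp_nat_mul, mul_one]
    rw [div_le_div_iff₀ hfac (pow_pos hk0 k), one_mul]
    rw [div_le_iff₀ hfac] at h1
    exact h1
  calc R ^ (2 * k) * (Real.pi ^ k / (k.factorial : ℝ))
      = (R ^ 2 * Real.pi) ^ k * (1 / (k.factorial : ℝ)) := by rw [mul_pow, ← pow_mul]; ring
    _ ≤ (R ^ 2 * Real.pi) ^ k * (Real.exp 1 / k) ^ k :=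
        mul_le_mul_of_nonneg_left h2 (by positivity)
    _ = _ := by rw [← mul_pow]; congr 1; ring

variable {d : ℕ}

theorem sum_EE_sq (Λ : Finset (Fin d → ℤ)) (u : Bool) (x : Fin d → ℝ) :
    ∀ i : Λ × Bool, (EE u i.2 i.1.1 x) ^ 2 ≤ 1 := by
  intro i
  rw [← sq_abs]
  exact pow_le_one₀ (abs_nonneg _) (EE_bdd _ _ _ _)

/-- Sign of a boolean. -/
def sg (s : Bool) : ℝ := if s then 1 else -1

/-- Data of a function of `L_1`-norm at most two. -/
theorem real_data (Λ : Finset (Fin d → ℤ)) {c : (Λ × Bool) → ℝ} (hc : c ∈ Bperp Λ) :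
    ∃ h0 h1 : (Fin d → ℝ) → ℝ, Integrable h0 (torusMeas d) ∧ Integrable h1 (torusMeas d) ∧
      (∫ x, (|h0 x| + |h1 x|) ∂(torusMeas d)) ≤ 4 ∧
      ∀ i, c i = (∫ x, h0 x * EE false i.2 i.1.1 x ∂(torusMeas d))
        + (∫ x, h1 x * EE true i.2 i.1.1 x ∂(torusMeas d)) := by
  obtain ⟨h, hh, hn, rfl⟩ := of_mem_Bperp Λ hc
  refine ⟨fun x => (h x).re, fun x => (h x).im, hh.re, hh.im, ?_, ?_⟩
  · calc ∫ x, (|(h x).re| + |(h x).im|) ∂(torusMeas d) ≤ ∫ x, 2 * ‖h x‖ ∂(torusMeas d) := by
          apply integral_mono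
          · exact hh.re.abs.add hh.im.abs
          · exact hh.norm.const_mul 2
          · intro x
            have h1 := Complex.abs_re_le_norm (h x)
            have h2 := Complex.abs_im_le_norm (h x)
            simp only
            linarith
      _ = 2 * ∫ x, ‖h x‖ ∂(torusMeas d) := integral_const_mul _ _
      _ ≤ 4 := by linarith
  · intro i
    have h3 : h = fun x => (((h x).re : ℝ) : ℂ) + Complex.I * (((h x).im : ℝ) : ℂ) := by
      ext x
      rw [mul_comm]
      exact (Complex.re_add_im (h x)).symm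
    have h4 := coefVec_real Λ (h0 := fun x => (h x).re) (h1 := fun x => (h x).im)
      hh.re hh.im i
    rw [← h4]
    congr 1

theorem int_mul_EE {f : (Fin d → ℝ) → ℝ} (hf : Integrable f (torusMeas d)) (u q : Bool)
    (k : Fin d → ℤ) : Integrable (fun x => f x * EE u q k x) (torusMeas d) := by
  have := hf.bdd_mul (c := 1) (f := fun x => EE u q k x)
    (continuous_EE u q k).aestronglyMeasurable
    (Filter.Eventually.of_forall (fun x => EE_bdd u q k x))
  simpa [mul_comm] using this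

theorem c_bdd (Λ : Finset (Fin d → ℤ)) {c : (Λ × Bool) → ℝ} (hc : c ∈ Bperp Λ) (i : Λ × Bool) :
    |c i| ≤ 4 := by
  obtain ⟨h0, h1, hi0, hi1, hn, hci⟩ := real_data Λ hc
  rw [hci i, ← integral_add (int_mul_EE hi0 _ _ _) (int_mul_EE hi1 _ _ _)]
  refine (abs_integral_le_integral_abs).trans (le_trans ?_ hn)
  apply integral_mono
  · exact ((int_mul_EE hi0 _ _ _).add (int_mul_EE hi1 _ _ _)).abs
  · exact hi0.abs.add hi1.abs
  · intro x
    simp only
    refine (abs_add_le _ _).trans (add_le_add ?_ ?_)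
    · rw [abs_mul]; exact mul_le_of_le_one_right (abs_nonneg _) (EE_bdd _ _ _ _)
    · rw [abs_mul]; exact mul_le_of_le_one_right (abs_nonneg _) (EE_bdd _ _ _ _)

/-- One greedy step. -/
theorem greedy_step (Λ : Finset (Fin d → ℤ)) {c : (Λ × Bool) → ℝ} (hc : c ∈ Bperp Λ)
    (R : (Λ × Bool) → ℝ) :
    ∃ (x : Fin d → ℝ) (u s : Bool), ∑ i, R i * (sg s * 5 * EE u i.2 i.1.1 x - c i) ≤ 0 := by
  obtain ⟨h0, h1, hi0, hi1, hn, hci⟩ := real_data Λ hc
  by_contra hcon
  push Not at hcon
  set M : ℝ := - ∑ i, R i * c i with hM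
  set V : Bool → (Fin d → ℝ) → ℝ := fun u x => ∑ i, R i * EE u i.2 i.1.1 x with hV
  have hexp : ∀ x u s, ∑ i, R i * (sg s * 5 * EE u i.2 i.1.1 x - c i) = sg s * 5 * V u x + M := by
    intro x u s
    simp only [hM, hV, mul_sub, Finset.sum_sub_distrib, Finset.mul_sum]
    have : ∑ i : Λ × Bool, R i * (sg s * 5 * EE u i.2 i.1.1 x)
        = ∑ i : Λ × Bool, sg s * 5 * (R i * EE u i.2 i.1.1 x) := by
      apply Finset.sum_congr rfl; intro i _; ring
    rw [this]; ring
  have hVlt : ∀ u x, |V u x| ≤ M / 5 := by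
    intro u x
    have h2 := hcon x u true
    have h3 := hcon x u false
    rw [hexp] at h2 h3
    simp only [sg] at h2 h3
    norm_num at h2 h3
    rw [abs_le]
    constructor <;> linarith
  have hMpos : 0 < M := by
    have h2 := hcon 0 true true
    have h3 := hcon 0 true false
    rw [hexp] at h2 h3
    simp only [sg] at h2 h3
    norm_num at h2 h3
    linarith
  have hVc : ∀ u, Continuous (V u) := by
    intro u
    simp only [hV]
    exact continuous_finsetSum _ (fun i _ => continuous_const.mul (continuous_EE _ _ _))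
  have hiV : ∀ (f : (Fin d → ℝ) → ℝ), Integrable f (torusMeas d) → ∀ u,
      Integrable (fun x => f x * V u x) (torusMeas d) := by
    intro f hf u
    have := hf.bdd_mul (c := M / 5) (f := fun x => V u x)
      (hVc u).aestronglyMeasurable
      (Filter.Eventually.of_forall (fun x => hVlt u x))
    simpa [mul_comm] using this
  have hsum : ∑ i, R i * c i = (∫ x, h0 x * V false x ∂(torusMeas d))
      + (∫ x, h1 x * V true x ∂(torusMeas d)) := by
    have h2 : ∀ (f : (Fin d → ℝ) → ℝ), Integrable f (torusMeas d) → ∀ u,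
        (∫ x, f x * V u x ∂(torusMeas d))
        = ∑ i : Λ × Bool, R i * ∫ x, f x * EE u i.2 i.1.1 x ∂(torusMeas d) := by
      intro f hf u
      have h3 : ∀ x, f x * V u x = ∑ i : Λ × Bool, R i * (f x * EE u i.2 i.1.1 x) := by
        intro x
        simp only [hV]
        rw [Finset.mul_sum]
        apply Finset.sum_congr rfl; intro i _; ring
      simp_rw [h3]
      rw [integral_finsetSum]
      · apply Finset.sum_congr rfl; intro i _
        rw [integral_const_mul]
      · intro i _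
        exact (int_mul_EE hf _ _ _).const_mul _
    rw [h2 h0 hi0, h2 h1 hi1, ← Finset.sum_add_distrib]
    apply Finset.sum_congr rfl
    intro i _
    rw [hci i]; ring
  have habs : |∑ i, R i * c i| ≤ 4 * (M / 5) := by
    rw [hsum, ← integral_add (hiV h0 hi0 false) (hiV h1 hi1 true)]
    refine (abs_integral_le_integral_abs).trans ?_
    calc ∫ x, |h0 x * V false x + h1 x * V true x| ∂(torusMeas d)
        ≤ ∫ x, (|h0 x| + |h1 x|) * (M / 5) ∂(torusMeas d) := by
          apply integral_mono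
          · exact ((hiV h0 hi0 false).add (hiV h1 hi1 true)).abs
          · exact (hi0.abs.add hi1.abs).mul_const _
          · intro x
            simp only
            refine (abs_add_le _ _).trans ?_
            rw [abs_mul, abs_mul, add_mul]
            exact add_le_add (mul_le_mul_of_nonneg_left (hVlt _ _) (abs_nonneg _))
              (mul_le_mul_of_nonneg_left (hVlt _ _) (abs_nonneg _))
      _ = (∫ x, (|h0 x| + |h1 x|) ∂(torusMeas d)) * (M / 5) := integral_mul_const _ _
      _ ≤ 4 * (M / 5) := mul_le_mul_of_nonneg_right hn (by positivity)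
  have h5 : ∑ i, R i * c i = - M := by rw [hM]; ring
  rw [h5, abs_neg, abs_of_pos hMpos] at habs
  linarith

/-- Greedy approximation. -/
theorem greedy (Λ : Finset (Fin d → ℤ)) {c : (Λ × Bool) → ℝ} (hc : c ∈ Bperp Λ) (K : ℕ) :
    ∃ (x : Fin K → (Fin d → ℝ)) (u s : Fin K → Bool),
      ∑ i, (∑ j, (sg (s j) * 5 * EE (u j) i.2 i.1.1 (x j) - c i)) ^ 2
        ≤ K * (162 * (Λ.card : ℝ)) := by
  induction K with
  | zero => exact ⟨fun _ => 0, fun _ => true, fun _ => true, by simp⟩
  | succ K ih =>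
    obtain ⟨x, u, s, h⟩ := ih
    set R : (Λ × Bool) → ℝ := fun i => ∑ j, (sg (s j) * 5 * EE (u j) i.2 i.1.1 (x j) - c i) with hR
    obtain ⟨x', u', s', h'⟩ := greedy_step Λ hc R
    refine ⟨Fin.snoc x x', Fin.snoc u u', Fin.snoc s s', ?_⟩
    have h1 : ∀ i : Λ × Bool, ∑ j : Fin (K+1), (sg ((Fin.snoc s s' : Fin (K+1) → Bool) j) * 5
        * EE ((Fin.snoc u u' : Fin (K+1) → Bool) j) i.2 i.1.1
          ((Fin.snoc x x' : Fin (K+1) → (Fin d → ℝ)) j) - c i)
        = R i + (sg s' * 5 * EE u' i.2 i.1.1 x' - c i) := by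
      intro i
      rw [Fin.sum_univ_castSucc]
      simp only [Fin.snoc_castSucc, Fin.snoc_last, hR]
    simp_rw [h1]
    have h2 : ∀ i : Λ × Bool, (sg s' * 5 * EE u' i.2 i.1.1 x' - c i) ^ 2 ≤ 81 := by
      intro i
      have h3 : |sg s' * 5 * EE u' i.2 i.1.1 x' - c i| ≤ 9 := by
        refine (abs_sub _ _).trans ?_
        have h4 : |sg s' * 5 * EE u' i.2 i.1.1 x'| ≤ 5 := by
          rw [abs_mul]
          have h5 : |sg s' * 5| = 5 := by
            unfold sg; split_ifs <;> norm_num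
          rw [h5]
          have := EE_bdd u' i.2 i.1.1 x'
          linarith
        have := c_bdd Λ hc i
        linarith
      rw [← sq_abs]
      calc |sg s' * 5 * EE u' i.2 i.1.1 x' - c i| ^ 2 ≤ 9 ^ 2 :=
            pow_le_pow_left₀ (abs_nonneg _) h3 2
        _ = 81 := by norm_num
    calc ∑ i, (R i + (sg s' * 5 * EE u' i.2 i.1.1 x' - c i)) ^ 2
        = ∑ i, (R i) ^ 2 + 2 * ∑ i, R i * (sg s' * 5 * EE u' i.2 i.1.1 x' - c i)
          + ∑ i, (sg s' * 5 * EE u' i.2 i.1.1 x' - c i) ^ 2 := by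
          rw [Finset.mul_sum, ← Finset.sum_add_distrib, ← Finset.sum_add_distrib]
          apply Finset.sum_congr rfl; intro i _; ring
      _ ≤ K * (162 * (Λ.card : ℝ)) + 2 * 0 + ∑ _i : Λ × Bool, (81:ℝ) := by
          apply add_le_add (add_le_add h _) (Finset.sum_le_sum (fun i _ => h2 i))
          linarith
      _ = _ := by
          rw [Finset.sum_const, Finset.card_univ, Fintype.card_prod, Fintype.card_bool,
            Fintype.card_coe, nsmul_eq_mul]
          push_cast
          ring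

theorem cos_lip (a b : ℝ) : |Real.cos a - Real.cos b| ≤ |a - b| := by
  have h := Convex.norm_image_sub_le_of_norm_hasDerivWithin_le (f := Real.cos)
    (f' := fun x => - Real.sin x) (C := 1) (s := Set.univ) (x := b) (y := a)
    (fun x _ => (Real.hasDerivAt_cos x).hasDerivWithinAt)
    (fun x _ => by rw [norm_neg, Real.norm_eq_abs]; exact Real.abs_sin_le_one x)
    convex_univ (Set.mem_univ _) (Set.mem_univ _)
  simpa using h

theorem sin_lip (a b : ℝ) : |Real.sin a - Real.sin b| ≤ |a - b| := by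
  have h := Convex.norm_image_sub_le_of_norm_hasDerivWithin_le (f := Real.sin)
    (f' := fun x => Real.cos x) (C := 1) (s := Set.univ) (x := b) (y := a)
    (fun x _ => (Real.hasDerivAt_sin x).hasDerivWithinAt)
    (fun x _ => by rw [Real.norm_eq_abs]; exact Real.abs_cos_le_one x)
    convex_univ (Set.mem_univ _) (Set.mem_univ _)
  simpa using h

/-- Rounding to the grid. -/
theorem rounding (n T : ℕ) (hT : 1 ≤ T) (x : Fin d → ℝ) :
    ∃ m : Fin d → Fin (7 * T), ∀ k : Fin d → ℤ, (∀ j, |k j| ≤ 2 ^ n) → ∀ u q,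
      |EE u q k x - EE u q k (fun j => ((m j : ℕ) : ℝ) / T)| ≤ d * 2 ^ n / T := by
  have hT0 : (0:ℝ) < T := by exact_mod_cast hT
  have hpi : (0:ℝ) < 2 * Real.pi := by positivity
  set z : Fin d → ℤ := fun j => ⌊x j / (2 * Real.pi)⌋ with hz
  set x' : Fin d → ℝ := fun j => x j - (z j : ℝ) * (2 * Real.pi) with hx'
  have hx0 : ∀ j, 0 ≤ x' j := by
    intro j
    have h1 := Int.floor_le (x j / (2 * Real.pi))
    rw [le_div_iff₀ hpi] at h1
    simp only [hx', hz]; linarith
  have hx1 : ∀ j, x' j < 2 * Real.pi := by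
    intro j
    have h1 := Int.lt_floor_add_one (x j / (2 * Real.pi))
    rw [div_lt_iff₀ hpi] at h1
    simp only [hx', hz]; linarith
  have hfl : ∀ j, ⌊x' j * T⌋₊ < 7 * T := by
    intro j
    rw [Nat.floor_lt (by have := hx0 j; positivity)]
    push_cast
    have h1 := hx1 j
    have h2 := Real.pi_lt_d2
    have h3 : x' j < 7 := by linarith
    exact mul_lt_mul_of_pos_right h3 hT0
  refine ⟨fun j => ⟨⌊x' j * T⌋₊, hfl j⟩, ?_⟩
  intro k hk u q
  set g : Fin d → ℝ := fun j => ((⌊x' j * T⌋₊ : ℕ) : ℝ) / T with hg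
  have hdist : ∀ j, |x' j - g j| ≤ 1 / T := by
    intro j
    have h1 := Nat.floor_le (a := x' j * T) (by have := hx0 j; positivity)
    have h2 := Nat.lt_floor_add_one (x' j * T)
    simp only [hg]
    have h3 : x' j - ((⌊x' j * T⌋₊ : ℕ) : ℝ) / T = (x' j * T - (⌊x' j * T⌋₊ : ℕ)) / T := by
      field_simp
    rw [h3, abs_div, abs_of_pos hT0]
    apply div_le_div_of_nonneg_right _ hT0.le
    rw [abs_le]; constructor <;> linarith
  have hang : ang k x = ang k x' + ((∑ j, k j * z j : ℤ) : ℝ) * (2 * Real.pi) := by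
    simp only [ang, hx']
    push_cast
    rw [Finset.sum_mul, ← Finset.sum_add_distrib]
    apply Finset.sum_congr rfl; intro j _; ring
  have hangd : |ang k x' - ang k g| ≤ d * 2 ^ n / T := by
    have h1 : ang k x' - ang k g = ∑ j, (k j : ℝ) * (x' j - g j) := by
      simp only [ang, ← Finset.sum_sub_distrib]
      apply Finset.sum_congr rfl; intro j _; ring
    rw [h1]
    refine (Finset.abs_sum_le_sum_abs _ _).trans ?_
    calc ∑ j, |(k j : ℝ) * (x' j - g j)| ≤ ∑ _j : Fin d, (2:ℝ) ^ n * (1 / T) := by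
          apply Finset.sum_le_sum
          intro j _
          rw [abs_mul]
          apply mul_le_mul _ (hdist j) (abs_nonneg _) (by positivity)
          have := hk j
          rw [← Int.cast_abs]
          exact_mod_cast this
      _ = d * 2 ^ n / T := by
          rw [Finset.sum_const, Finset.card_univ, Fintype.card_fin, nsmul_eq_mul]; ring
  have hcos : Real.cos (ang k x) = Real.cos (ang k x') := by
    rw [hang, Real.cos_add_int_mul_two_pi]
  have hsin : Real.sin (ang k x) = Real.sin (ang k x') := by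
    rw [hang, Real.sin_add_int_mul_two_pi]
  change |EE u q k x - EE u q k g| ≤ _
  cases u <;> cases q
  · rw [EE_ff, EE_ff, hcos]; exact (cos_lip _ _).trans hangd
  · rw [EE_ft, EE_ft, hsin]
    have : -Real.sin (ang k x') - -Real.sin (ang k g) = -(Real.sin (ang k x') - Real.sin (ang k g)) := by
      ring
    rw [this, abs_neg]; exact (sin_lip _ _).trans hangd
  · rw [EE_tf, EE_tf, hsin]; exact (sin_lip _ _).trans hangd
  · rw [EE_tt, EE_tt, hcos]; exact (cos_lip _ _).trans hangd

theorem layer_abs_le {n : ℕ} {k : Fin d → ℤ} (hk : k ∈ layer d n) (j : Fin d) : |k j| ≤ 2 ^ n := by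
  rw [mem_layer_iff] at hk
  have h1 : bt (k j) ≤ n := by
    rw [← hk]
    exact Finset.single_le_sum (f := fun j => bt (k j)) (fun _ _ => Nat.zero_le _) (Finset.mem_univ j)
  exact ((bt_le_iff _ _).mp h1).le

/-- The center attached to grid data. -/
noncomputable def center (n K T : ℕ) (m : Fin K → (Fin d → Fin (7 * T))) (u s : Fin K → Bool) :
    ((layer d n) × Bool) → ℝ :=
  fun i => (1 / (K:ℝ)) * ∑ j, sg (s j) * 5 * EE (u j) i.2 i.1.1 (fun l => ((m j l : ℕ) : ℝ) / T)

theorem covering (n K T : ℕ) (hK : 1 ≤ K) (hT : 1 ≤ T) {c : ((layer d n) × Bool) → ℝ}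
    (hc : c ∈ Bperp (layer d n)) :
    ∃ (m : Fin K → (Fin d → Fin (7 * T))) (u s : Fin K → Bool),
      ∑ i, (center n K T m u s i - c i) ^ 2
        ≤ 324 * ((layer d n).card : ℝ) / K + 100 * ((layer d n).card : ℝ) * (d * 2 ^ n / T) ^ 2 := by
  obtain ⟨x, u, s, h⟩ := greedy (layer d n) hc K
  choose m hm using fun j : Fin K => rounding n T hT (x j)
  refine ⟨m, u, s, ?_⟩
  have hK0 : (0:ℝ) < K := by exact_mod_cast hK
  set A : ((layer d n) × Bool) → ℝ := fun i =>
    (1 / (K:ℝ)) * ∑ j, sg (s j) * 5 * EE (u j) i.2 i.1.1 (x j) with hA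
  have h1 : ∀ i, (center n K T m u s i - c i) ^ 2
      ≤ 2 * (A i - c i) ^ 2 + 2 * (center n K T m u s i - A i) ^ 2 := by
    intro i
    nlinarith [sq_nonneg ((A i - c i) - (center n K T m u s i - A i))]
  have h2 : ∑ i, (A i - c i) ^ 2 ≤ 162 * ((layer d n).card : ℝ) / K := by
    have h3 : ∀ i, (A i - c i) ^ 2
        = (1 / (K:ℝ)) ^ 2 * (∑ j, (sg (s j) * 5 * EE (u j) i.2 i.1.1 (x j) - c i)) ^ 2 := by
      intro i
      rw [← mul_pow]
      congr 1
      rw [Finset.sum_sub_distrib, Finset.sum_const, Finset.card_univ, Fintype.card_fin,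
        nsmul_eq_mul]
      simp only [hA]
      rw [mul_sub]
      congr 1
      rw [one_div, inv_mul_cancel_left₀ hK0.ne']
    simp_rw [h3]
    rw [← Finset.mul_sum]
    calc (1 / (K:ℝ)) ^ 2 * ∑ i, (∑ j, (sg (s j) * 5 * EE (u j) i.2 i.1.1 (x j) - c i)) ^ 2
        ≤ (1 / (K:ℝ)) ^ 2 * (K * (162 * ((layer d n).card : ℝ))) :=
          mul_le_mul_of_nonneg_left h (by positivity)
      _ = _ := by field_simp
  have h4 : ∀ i, (center n K T m u s i - A i) ^ 2 ≤ 25 * (d * 2 ^ n / T) ^ 2 := by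
    intro i
    have h5 : |center n K T m u s i - A i| ≤ 5 * (d * 2 ^ n / T) := by
      have h6 : center n K T m u s i - A i = (1 / (K:ℝ)) * ∑ j, sg (s j) * 5 *
          (EE (u j) i.2 i.1.1 (fun l => ((m j l : ℕ) : ℝ) / T) - EE (u j) i.2 i.1.1 (x j)) := by
        simp only [center, hA]
        rw [← mul_sub, ← Finset.sum_sub_distrib]
        congr 1
        apply Finset.sum_congr rfl; intro j _; ring
      rw [h6, abs_mul, abs_of_pos (by positivity : (0:ℝ) < 1 / K)]
      have h7 : |∑ j, sg (s j) * 5 * (EE (u j) i.2 i.1.1 (fun l => ((m j l : ℕ) : ℝ) / T)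
          - EE (u j) i.2 i.1.1 (x j))| ≤ ∑ _j : Fin K, 5 * (d * 2 ^ n / T : ℝ) := by
        refine (Finset.abs_sum_le_sum_abs _ _).trans (Finset.sum_le_sum fun j _ => ?_)
        rw [abs_mul]
        have h8 : |sg (s j) * 5| = 5 := by
          unfold sg; split_ifs <;> norm_num
        rw [h8]
        apply mul_le_mul_of_nonneg_left _ (by norm_num)
        rw [abs_sub_comm]
        exact hm j i.1.1 (fun j => layer_abs_le i.1.2 j) (u j) i.2
      rw [Finset.sum_const, Finset.card_univ, Fintype.card_fin, nsmul_eq_mul] at h7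
      calc 1 / (K:ℝ) * |∑ j, sg (s j) * 5 * (EE (u j) i.2 i.1.1 (fun l => ((m j l : ℕ) : ℝ) / T)
          - EE (u j) i.2 i.1.1 (x j))| ≤ 1 / (K:ℝ) * (K * (5 * (d * 2 ^ n / T : ℝ))) :=
            mul_le_mul_of_nonneg_left h7 (by positivity)
        _ = _ := by field_simp
    rw [← sq_abs]
    calc |center n K T m u s i - A i| ^ 2 ≤ (5 * (d * 2 ^ n / T)) ^ 2 :=
          pow_le_pow_left₀ (abs_nonneg _) h5 2
      _ = _ := by ring
  calc ∑ i, (center n K T m u s i - c i) ^ 2
      ≤ ∑ i, (2 * (A i - c i) ^ 2 + 2 * (center n K T m u s i - A i) ^ 2) :=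
        Finset.sum_le_sum (fun i _ => h1 i)
    _ = 2 * ∑ i, (A i - c i) ^ 2 + 2 * ∑ i, (center n K T m u s i - A i) ^ 2 := by
        rw [Finset.sum_add_distrib, Finset.mul_sum, Finset.mul_sum]
    _ ≤ 2 * (162 * ((layer d n).card : ℝ) / K)
        + 2 * ∑ _i : (layer d n) × Bool, 25 * (d * 2 ^ n / T : ℝ) ^ 2 := by
        apply add_le_add
        · exact mul_le_mul_of_nonneg_left h2 (by norm_num)
        · exact mul_le_mul_of_nonneg_left (Finset.sum_le_sum (fun i _ => h4 i)) (by norm_num)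
    _ = _ := by
        rw [Finset.sum_const, Finset.card_univ, Fintype.card_prod, Fintype.card_bool,
          Fintype.card_coe, nsmul_eq_mul]
        push_cast
        ring

/-- Volume bound from the covering. -/
theorem volume_upper (n K T : ℕ) (hK : 1 ≤ K) (hT : 1 ≤ T) (hcard : 1 ≤ (layer d n).card)
    (R : ℝ) (hR : 0 ≤ R)
    (hR2 : 324 * ((layer d n).card : ℝ) / K + 100 * ((layer d n).card : ℝ) * (d * 2 ^ n / T) ^ 2
      ≤ R ^ 2) :
    volume (Bperp (layer d n)) ≤ ENNReal.ofReal ((((7 * T : ℕ) : ℝ) ^ d * 4) ^ K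
      * (Real.pi * Real.exp 1 * R ^ 2 / (layer d n).card) ^ (layer d n).card) := by
  let J := (Fin K → (Fin d → Fin (7 * T))) × (Fin K → Bool) × (Fin K → Bool)
  have hcover : Bperp (layer d n) ⊆ ⋃ z : J,
      {y : ((layer d n) × Bool) → ℝ | ∑ i, (center n K T z.1 z.2.1 z.2.2 i - y i) ^ 2 ≤ R ^ 2} := by
    intro c hc
    obtain ⟨m, u, s, h⟩ := covering n K T hK hT hc
    rw [Set.mem_iUnion]
    exact ⟨(m, u, s), h.trans hR2⟩
  have hci : Fintype.card ((layer d n) × Bool) = 2 * (layer d n).card := by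
    rw [Fintype.card_prod, Fintype.card_bool, Fintype.card_coe]; ring
  have hcardJ : (Fintype.card J : ℝ) = (((7 * T : ℕ) : ℝ) ^ d * 4) ^ K := by
    simp only [J, Fintype.card_prod, Fintype.card_fun, Fintype.card_fin, Fintype.card_bool]
    push_cast
    have : (4:ℝ) = 2 * 2 := by norm_num
    rw [this]
    simp only [mul_pow]
  calc volume (Bperp (layer d n)) ≤ volume (⋃ z : J,
      {y : ((layer d n) × Bool) → ℝ | ∑ i, (center n K T z.1 z.2.1 z.2.2 i - y i) ^ 2 ≤ R ^ 2}) :=
        measure_mono hcover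
    _ ≤ ∑ z : J, volume
      {y : ((layer d n) × Bool) → ℝ | ∑ i, (center n K T z.1 z.2.1 z.2.2 i - y i) ^ 2 ≤ R ^ 2} :=
        measure_iUnion_fintype_le _ _
    _ ≤ ∑ _z : J, ENNReal.ofReal
        ((Real.pi * Real.exp 1 * R ^ 2 / (layer d n).card) ^ (layer d n).card) :=
        Finset.sum_le_sum (fun z _ => volume_eball _ hcard hci _ R hR)
    _ = _ := by
        rw [Finset.sum_const, Finset.card_univ, nsmul_eq_mul, ENNReal.ofReal_mul (by positivity),
          ← hcardJ, ENNReal.ofReal_natCast]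

end HypLayer
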