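import Mathlib
import Pool.Agent.Work.MP_36752c_an.Upper

/-!
# Cardinality of the layer
-/

open MeasureTheory Finset

namespace HypLayer

/-- Lower bound for the cardinality of the layer. -/
theorem card_layer_ge (q n : ℕ) :
    2 ^ n * (n / (q+1) + 1) ^ (q+1) ≤ (layer (q+2) n).card := by
  classical
  set m := n / (q+1) with hm
  set P : Finset (Fin (q+1) → ℕ) := Fintype.piFinset (fun _ => range (m+1)) with hP
  set st : (Fin (q+1) → ℕ) → (Fin (q+2) → ℕ) := fun t => Fin.cons (n - ∑ j, t j) t with hst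
  have hPcard : P.card = (m+1) ^ (q+1) := by
    rw [hP, Fintype.card_piFinset]
    simp
  have hsum : ∀ t ∈ P, ∑ j, t j ≤ n := by
    intro t ht
    rw [hP, Fintype.mem_piFinset] at ht
    have h1 : ∑ j, t j ≤ ∑ _j : Fin (q+1), m := by
      apply Finset.sum_le_sum
      intro j _
      have := ht j
      rw [mem_range] at this
      omega
    rw [Finset.sum_const, Finset.card_univ, Fintype.card_fin, smul_eq_mul] at h1
    have h2 : (q+1) * m ≤ n := by rw [hm]; exact Nat.mul_div_le n (q+1)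
    omega
  have hst_sum : ∀ t ∈ P, ∑ j, st t j = n := by
    intro t ht
    rw [hst, Fin.sum_univ_succ]
    simp only [Fin.cons_zero, Fin.cons_succ]
    have := hsum t ht
    omega
  have hsub : P.biUnion (fun t => Fintype.piFinset (fun j => blk (st t j))) ⊆ layer (q+2) n := by
    intro k hk
    rw [mem_biUnion] at hk
    obtain ⟨t, ht, hk⟩ := hk
    rw [Fintype.mem_piFinset] at hk
    rw [mem_layer_iff, ← hst_sum t ht]
    apply Finset.sum_congr rfl
    intro j _
    have := hk j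
    rwa [mem_blk] at this
  have hdisj : ∀ t ∈ P, ∀ t' ∈ P, t ≠ t' → Disjoint (Fintype.piFinset (fun j => blk (st t j)))
      (Fintype.piFinset (fun j => blk (st t' j))) := by
    intro t _ t' _ hne
    rw [Finset.disjoint_left]
    intro k hk hk'
    apply hne
    rw [Fintype.mem_piFinset] at hk hk'
    ext j
    have h1 := hk j.succ
    have h2 := hk' j.succ
    rw [mem_blk] at h1 h2
    simp only [hst, Fin.cons_succ] at h1 h2
    omega
  calc 2 ^ n * (m + 1) ^ (q+1) = ∑ t ∈ P, 2 ^ n := by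
        rw [Finset.sum_const, hPcard, smul_eq_mul]; ring
    _ = ∑ t ∈ P, (Fintype.piFinset (fun j => blk (st t j))).card := by
        apply Finset.sum_congr rfl
        intro t ht
        rw [Fintype.card_piFinset]
        simp only [card_blk]
        rw [Finset.prod_pow_eq_pow_sum, hst_sum t ht]
    _ = (P.biUnion (fun t => Fintype.piFinset (fun j => blk (st t j)))).card := by
        rw [Finset.card_biUnion hdisj]
    _ ≤ _ := Finset.card_le_card hsub

theorem card_layer_ge_real (q n : ℕ) :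
    (2:ℝ) ^ n * (((n:ℝ) + 1) / (q+1)) ^ (q+1) ≤ ((layer (q+2) n).card : ℝ) := by
  have h1 := card_layer_ge q n
  have h2 : ((n:ℝ) + 1) / (q+1) ≤ ((n / (q+1) : ℕ) : ℝ) + 1 := by
    rw [div_le_iff₀ (by positivity)]
    have h3 : n < (n / (q+1) + 1) * (q+1) := by
      rw [mul_comm]
      exact Nat.lt_mul_div_succ n (Nat.succ_pos q)
    have h4 : n + 1 ≤ (n / (q+1) + 1) * (q+1) := h3
    exact_mod_cast h4
  calc (2:ℝ) ^ n * (((n:ℝ) + 1) / (q+1)) ^ (q+1)
      ≤ 2 ^ n * (((n / (q+1) : ℕ) : ℝ) + 1) ^ (q+1) := by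
        apply mul_le_mul_of_nonneg_left _ (by positivity)
        exact pow_le_pow_left₀ (by positivity) h2 _
    _ ≤ _ := by exact_mod_cast h1

theorem card_layer_ge_two_pow (q n : ℕ) : 2 ^ n ≤ (layer (q+2) n).card := by
  have h1 := card_layer_ge q n
  have h2 : 1 ≤ (n / (q+1) + 1) ^ (q+1) := Nat.one_le_pow _ _ (Nat.succ_pos _)
  nlinarith [Nat.pos_of_ne_zero (pow_ne_zero n (two_ne_zero (α := ℕ)))]

/-- Crude upper bound for the cardinality of the layer. -/
theorem card_layer_le (d n : ℕ) : (layer d n).card ≤ 2 ^ ((n+2) * d) := by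
  have hsub : layer d n ⊆ Fintype.piFinset (fun _ => Finset.Icc (-(2:ℤ) ^ n) (2 ^ n)) := by
    intro k hk
    rw [Fintype.mem_piFinset]
    intro j
    have := layer_abs_le hk j
    rw [mem_Icc]
    exact abs_le.mp this
  refine (Finset.card_le_card hsub).trans ?_
  rw [Fintype.card_piFinset, Finset.prod_const, Finset.card_univ, Fintype.card_fin, pow_mul,
    Int.card_Icc]
  apply Nat.pow_le_pow_left
  have h1 : (2:ℤ) ^ n + 1 - -2 ^ n ≤ 2 ^ (n+2) := by
    have : (1:ℤ) ≤ 2 ^ n := one_le_pow₀ (by norm_num)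
    rw [pow_add]
    linarith
  have h2 := Int.toNat_le_toNat h1
  refine h2.trans ?_
  have : ((2:ℤ) ^ (n+2)).toNat = 2 ^ (n+2) := by
    have h3 : ((2:ℤ) ^ (n+2)) = ((2 ^ (n+2) : ℕ) : ℤ) := by push_cast; rfl
    rw [h3, Int.toNat_natCast]
  rw [this]

/-- The rpow computation. -/
theorem rpow_root (x : ℝ) (hx : 0 ≤ x) (N : ℕ) (hN : 1 ≤ N) :
    (x ^ (2 * N)) ^ ((1:ℝ) / (2 * (N:ℝ))) = x := by
  rw [← Real.rpow_natCast, ← Real.rpow_mul hx]
  have h0 : (N:ℝ) ≠ 0 := by exact_mod_cast (by omega : N ≠ 0)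
  have : (((2 * N : ℕ) : ℝ)) * (1 / (2 * (N:ℝ))) = 1 := by
    push_cast; field_simp
  rw [this, Real.rpow_one]

/-- Abstract upper bound. -/
theorem Vn_upper_aux (q n : ℕ) :
    volume (Bperp (layer (q+2) n)) ≤ ENNReal.ofReal
      (((2:ℝ) ^ ((q+2) * (3 + 3 * (q+2)) + 2)
        * Real.sqrt (Real.pi * Real.exp 1 * (424 * ((n:ℝ)+1)) / ((layer (q+2) n).card : ℝ)))
          ^ (2 * (layer (q+2) n).card)) := by
  set d := q + 2 with hd
  set N := (layer d n).card with hN
  have hN2 : 2 ^ n ≤ N := card_layer_ge_two_pow q n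
  have hNn : n + 1 ≤ N := by
    have : n + 1 ≤ 2 ^ n := Nat.lt_two_pow_self
    omega
  have hN1 : 1 ≤ N := by omega
  have hN0 : (0:ℝ) < N := by exact_mod_cast hN1
  set K := N / (n+1) + 1 with hK
  have hK1 : K * (n+1) ≤ 2 * N := by
    have := Nat.div_mul_le_self N (n+1)
    rw [hK, add_mul, one_mul]
    omega
  have hK2 : N ≤ K * (n+1) := by
    have := Nat.lt_mul_div_succ N (Nat.succ_pos n)
    rw [hK, mul_comm]
    exact this.le
  have hK0 : (0:ℝ) < K := by
    have : 0 < K := Nat.succ_pos _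
    exact_mod_cast this
  set T := d * 2 ^ n * N with hT
  have hT1 : 1 ≤ T := by
    rw [hT]
    have : 0 < d * 2 ^ n * N := by positivity
    exact this
  have hT0 : (0:ℝ) < T := by exact_mod_cast hT1
  have hdT : ((d:ℝ) * 2 ^ n / T) = 1 / N := by
    rw [hT]; push_cast
    have hd0 : (d:ℝ) ≠ 0 := by rw [hd]; positivity
    field_simp
  have hR2 : 324 * (N : ℝ) / K + 100 * (N : ℝ) * (d * 2 ^ n / T) ^ 2
      ≤ (Real.sqrt (424 * ((n:ℝ)+1))) ^ 2 := by
    rw [Real.sq_sqrt (by positivity), hdT]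
    have h1 : 324 * (N:ℝ) / K ≤ 324 * ((n:ℝ)+1) := by
      rw [div_le_iff₀ hK0]
      have : (N:ℝ) ≤ K * (n+1) := by exact_mod_cast hK2
      nlinarith
    have h2 : 100 * (N:ℝ) * (1 / N) ^ 2 ≤ 100 * ((n:ℝ)+1) := by
      have h3 : 100 * (N:ℝ) * (1 / N) ^ 2 = 100 * (1 / N) := by field_simp
      rw [h3]
      have h4 : 1 / (N:ℝ) ≤ 1 := by
        rw [div_le_one hN0]; exact_mod_cast hN1
      have h5 : (0:ℝ) ≤ n := Nat.cast_nonneg n
      nlinarith
    linarith
  have hvol := volume_upper (d := d) n K T (Nat.succ_pos _) hT1 hN1 (Real.sqrt (424 * ((n:ℝ)+1)))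
    (Real.sqrt_nonneg _) hR2
  refine hvol.trans (ENNReal.ofReal_le_ofReal ?_)
  rw [← hN, Real.sq_sqrt (by positivity),
    mul_pow ((2:ℝ) ^ (d * (3 + 3 * d) + 2)) _ (2 * N)]
  apply mul_le_mul
  · -- counting factor
    have h1 : ((7 * T) ^ d * 4) ^ K ≤ (2 ^ (d * (3 + 3 * d) + 2)) ^ (2 * N) := by
      have hdd : d ≤ 2 ^ d := Nat.lt_two_pow_self.le
      have h7T : 7 * T ≤ 2 ^ ((3 + 3 * d) * (n+1)) := by
        calc 7 * T ≤ 8 * (2 ^ d * 2 ^ n * 2 ^ ((n+2) * d)) := by
              rw [hT]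
              have hc := card_layer_le d n
              rw [← hN] at hc
              apply Nat.mul_le_mul (by norm_num)
              exact Nat.mul_le_mul (Nat.mul_le_mul_right _ hdd) hc
          _ = 2 ^ (3 + (d + n + (n+2) * d)) := by
              have h8 : (8:ℕ) = 2 ^ 3 := by norm_num
              rw [h8, ← pow_add 2 d n, ← pow_add 2 (d + n), ← pow_add 2 3]
          _ ≤ 2 ^ ((3 + 3 * d) * (n+1)) := by
              apply Nat.pow_le_pow_right (by norm_num)
              nlinarith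
      calc ((7 * T) ^ d * 4) ^ K ≤ ((2 ^ ((3 + 3 * d) * (n+1))) ^ d * 2 ^ (2 * (n+1))) ^ K := by
            apply Nat.pow_le_pow_left
            apply Nat.mul_le_mul (Nat.pow_le_pow_left h7T d)
            calc 4 = 2 ^ 2 := by norm_num
              _ ≤ 2 ^ (2 * (n+1)) := Nat.pow_le_pow_right (by norm_num) (by omega)
        _ = (2 ^ (d * (3 + 3 * d) + 2)) ^ (K * (n+1)) := by
            rw [← pow_mul, ← pow_add, ← pow_mul, ← pow_mul]
            congr 1; ring
        _ ≤ _ := Nat.pow_le_pow_right (by positivity) hK1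
    exact_mod_cast h1
  · apply le_of_eq
    rw [pow_mul, Real.sq_sqrt (by positivity)]
  · positivity
  · positivity

end HypLayer
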