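import Mathlib
import Pool.Agent.Work.MP_36752c_an.Count

/-!
# The order of the volume
-/

open MeasureTheory Finset

namespace HypLayer

theorem card_index (d n : ℕ) : Fintype.card (↥(layer d n) × Bool) = 2 * (layer d n).card := by
  rw [Fintype.card_prod, Fintype.card_bool, Fintype.card_coe]; ring

/-- Upper bound for `V_n`. -/
theorem Vn_le (q n : ℕ) : Vn (q+2) n ≤ (2:ℝ) ^ ((q+2) * (3 + 3 * (q+2)) + 2)
        * Real.sqrt (Real.pi * Real.exp 1 * (424 * ((n:ℝ)+1)) / ((layer (q+2) n).card : ℝ)) := by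
  have h1 := Vn_upper_aux q n
  set X := (2:ℝ) ^ ((q+2) * (3 + 3 * (q+2)) + 2)
        * Real.sqrt (Real.pi * Real.exp 1 * (424 * ((n:ℝ)+1)) / ((layer (q+2) n).card : ℝ)) with hX
  have hX0 : 0 ≤ X := by rw [hX]; positivity
  have hN1 : 1 ≤ (layer (q+2) n).card :=
    (Nat.one_le_two_pow).trans (card_layer_ge_two_pow q n)
  have h2 : (volume (Bperp (layer (q+2) n))).toReal ≤ X ^ (2 * (layer (q+2) n).card) := by
    apply ENNReal.toReal_le_of_le_ofReal (by positivity) h1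
  calc Vn (q+2) n ≤ (X ^ (2 * (layer (q+2) n).card)) ^ ((1:ℝ) / (2 * ((layer (q+2) n).card : ℝ))) :=
        Real.rpow_le_rpow ENNReal.toReal_nonneg h2 (by positivity)
    _ = X := rpow_root X hX0 _ hN1

theorem volume_ne_top (q n : ℕ) : volume (Bperp (layer (q+2) n)) ≠ ⊤ :=
  ne_top_of_le_ne_top ENNReal.ofReal_ne_top (Vn_upper_aux q n)

/-- The constant of the lower bound. -/
noncomputable def cLow (p : ℕ) : ℝ :=
  (1/64) / (5 + 1296 * ((1/64)^2 * (2 * CI p + 16))) * Real.exp (-1)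

theorem cLow_pos (p : ℕ) : 0 < cLow p := by
  have := CI_pos p
  unfold cLow; positivity

/-- Lower bound for `V_n`. -/
theorem le_Vn (p n : ℕ) (hn : 1 ≤ n) :
    cLow p * (Real.sqrt (2 ^ n * ((n:ℝ)+1) ^ (p+1)))⁻¹ ≤ Vn (p+3) n := by
  have hN1 : 1 ≤ (layer (p+3) n).card :=
    (Nat.one_le_two_pow).trans (card_layer_ge_two_pow (p+1) n)
  have hcI := card_index (p+3) n
  have h1 := (concSys p n hn).volume_body (by rw [hcI]; omega)
  set X := cLow p * (Real.sqrt (2 ^ n * ((n:ℝ)+1) ^ (p+1)))⁻¹ with hX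
  have hX0 : 0 ≤ X := by
    have := cLow_pos p
    rw [hX]; positivity
  have hXe : (1/64)/(5+1296*(concSys p n hn).K0)*Real.exp (-1)*(concSys p n hn).r = X := rfl
  rw [hXe, hcI] at h1
  have h2 : ENNReal.ofReal (X ^ (2 * (layer (p+3) n).card)) ≤ volume (Bperp (layer (p+3) n)) :=
    h1.trans (measure_mono (body_sub_Bperp p n hn))
  have h3 : X ^ (2 * (layer (p+3) n).card) ≤ (volume (Bperp (layer (p+3) n))).toReal := by
    rw [← ENNReal.ofReal_le_iff_le_toReal (volume_ne_top (p+1) n)]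
    exact h2
  calc X = (X ^ (2 * (layer (p+3) n).card)) ^ ((1:ℝ) / (2 * ((layer (p+3) n).card : ℝ))) :=
        (rpow_root X hX0 _ hN1).symm
    _ ≤ _ := Real.rpow_le_rpow (by positivity) h3 (by positivity)

theorem main (d : ℕ) (hd : 3 ≤ d) : ∃ c C : ℝ, 0 < c ∧ 0 < C ∧ ∀ n : ℕ, 1 ≤ n →
    c * ((2:ℝ) ^ n * (n:ℝ) ^ (d-2)) ^ (-(1/2) : ℝ) ≤ Vn d n ∧
    Vn d n ≤ C * ((2:ℝ) ^ n * (n:ℝ) ^ (d-2)) ^ (-(1/2) : ℝ) := by
  obtain ⟨p, rfl⟩ : ∃ p, d = p + 3 := ⟨d - 3, by omega⟩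
  have hd2 : p + 3 - 2 = p + 1 := by omega
  rw [hd2]
  refine ⟨cLow p * (Real.sqrt (2 ^ (p+1)))⁻¹,
    (2:ℝ) ^ ((p+3) * (3 + 3 * (p+3)) + 2)
      * Real.sqrt (Real.pi * Real.exp 1 * 424 * ((p:ℝ)+2) ^ (p+2)), ?_, ?_, ?_⟩
  · have := cLow_pos p
    positivity
  · positivity
  intro n hn
  have hn0 : (0:ℝ) < n := by exact_mod_cast hn
  have hn1 : (1:ℝ) ≤ n := by exact_mod_cast hn
  have hY : (0:ℝ) < 2 ^ n * (n:ℝ) ^ (p+1) := by positivity
  have hphi : ((2:ℝ) ^ n * (n:ℝ) ^ (p+1)) ^ (-(1/2) : ℝ)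
      = (Real.sqrt (2 ^ n * (n:ℝ) ^ (p+1)))⁻¹ := by
    rw [Real.rpow_neg hY.le, ← Real.sqrt_eq_rpow]
  rw [hphi]
  constructor
  · refine le_trans ?_ (le_Vn p n hn)
    rw [mul_assoc]
    apply mul_le_mul_of_nonneg_left _ (cLow_pos p).le
    rw [← mul_inv, ← Real.sqrt_mul (by positivity)]
    apply inv_anti₀ (by positivity)
    apply Real.sqrt_le_sqrt
    calc (2:ℝ) ^ n * ((n:ℝ)+1) ^ (p+1) ≤ 2 ^ n * (2 * (n:ℝ)) ^ (p+1) := by
          apply mul_le_mul_of_nonneg_left _ (by positivity)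
          exact pow_le_pow_left₀ (by positivity) (by linarith) _
      _ = 2 ^ (p+1) * (2 ^ n * (n:ℝ) ^ (p+1)) := by rw [mul_pow]; ring
  · refine (Vn_le (p+1) n).trans ?_
    have hN := card_layer_ge_real (p+1) n
    have hN1 : 1 ≤ (layer (p+3) n).card :=
      (Nat.one_le_two_pow).trans (card_layer_ge_two_pow (p+1) n)
    have hN0 : (0:ℝ) < ((layer (p+3) n).card : ℝ) := by exact_mod_cast hN1
    change (2:ℝ) ^ ((p+3) * (3 + 3 * (p+3)) + 2)
        * Real.sqrt (Real.pi * Real.exp 1 * (424 * ((n:ℝ)+1)) / ((layer (p+3) n).card : ℝ)) ≤ _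
    rw [mul_assoc ((2:ℝ) ^ ((p+3) * (3 + 3 * (p+3)) + 2))]
    apply mul_le_mul_of_nonneg_left _ (by positivity)
    rw [← Real.sqrt_inv, ← Real.sqrt_mul (by positivity)]
    apply Real.sqrt_le_sqrt
    rw [div_le_iff₀ hN0]
    push_cast at hN
    have hN' : (2:ℝ) ^ n * (((n:ℝ) + 1) / ((p:ℝ)+1+1)) ^ (p+1+1) ≤ ((layer (p+3) n).card : ℝ) := hN
    have hp : ((p:ℝ)+1+1) = (p:ℝ)+2 := by ring
    rw [hp] at hN'
    calc Real.pi * Real.exp 1 * (424 * ((n:ℝ)+1))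
        = Real.pi * Real.exp 1 * 424 * ((p:ℝ)+2) ^ (p+2) * (2 ^ n * (n:ℝ) ^ (p+1))⁻¹
          * ((2:ℝ) ^ n * (((n:ℝ) + 1) / ((p:ℝ)+2)) ^ (p+1+1) * ((n:ℝ) ^ (p+1) / ((n:ℝ)+1) ^ (p+1))) := by
          rw [div_pow]
          field_simp
          ring
      _ ≤ Real.pi * Real.exp 1 * 424 * ((p:ℝ)+2) ^ (p+2) * (2 ^ n * (n:ℝ) ^ (p+1))⁻¹
          * ((2:ℝ) ^ n * (((n:ℝ) + 1) / ((p:ℝ)+2)) ^ (p+1+1) * 1) := by
          apply mul_le_mul_of_nonneg_left _ (by positivity)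
          apply mul_le_mul_of_nonneg_left _ (by positivity)
          rw [div_le_one (by positivity)]
          exact pow_le_pow_left₀ hn0.le (by linarith) _
      _ ≤ _ := by
          apply mul_le_mul_of_nonneg_left _ (by positivity)
          rw [mul_one]
          exact hN'

end HypLayer
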